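import Mathlib

/-!
Waiter–Client odd cycle game (MP_153aba): shared definitions and statements of the lemmas.
-/

namespace Pool.Agent.R184.OC

open Finset

section Round

variable {ι J E : Type*} [Fintype ι] [Fintype J] [DecidableEq J] [DecidableEq E]

/-- multilinear sum: `g c : J → E` lists the (distinct) board elements of the structure `c` -/
def PS (g : ι → J → E) (w : E → ℝ) : ℝ := ∑ c, ∏ j, w (g c j)

/-- derivative of `PS g` with respect to the variable `w f` -/
def Dv (g : ι → J → E) (w : E → ℝ) (f : E) : ℝ :=
  ∑ c, ∑ j, if g c j = f then ∏ i ∈ Finset.univ.erase j, w (g c i) else 0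

/-- sum over `f' ∈ R` of the mixed derivatives in `f, f'` -/
def Hv (g : ι → J → E) (w : E → ℝ) (R : Finset E) (f : E) : ℝ :=
  ∑ c, ∑ j, if g c j = f then
    ∑ j' ∈ Finset.univ.erase j, if g c j' ∈ R then
      ∏ i ∈ (Finset.univ.erase j).erase j', w (g c i) else 0 else 0

end Round

/-- no cycles of length at most `r` -/
def NSC {V : Type*} (G : SimpleGraph V) (r : ℕ) : Prop :=
  ∀ (a : V) (c : G.Walk a a), c.IsCycle → r < c.length

end Pool.Agent.R184.OC
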