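import Mathlib

/-!
Waiter–Client odd cycle game (MP_153aba): entrywise bounds for powers of nonnegative matrices.
-/

set_option autoImplicit false

namespace Pool.Agent.R184.OC

open Finset

section T1
variable {V : Type*} [Fintype V] [DecidableEq V]

theorem pow_nonneg_entry (M : Matrix V V ℝ) (h : ∀ x y, 0 ≤ M x y) (L : ℕ) (x y : V) :
    0 ≤ (M ^ L) x y := by
  induction L generalizing x y with
  | zero =>
    rw [pow_zero, Matrix.one_apply]
    split_ifs <;> norm_num
  | succ L ih =>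
    rw [pow_succ, Matrix.mul_apply]
    exact Finset.sum_nonneg fun z _ => mul_nonneg (ih x z) (h z y)

theorem pow_mono_entry (M N : Matrix V V ℝ) (h0 : ∀ x y, 0 ≤ M x y) (h : ∀ x y, M x y ≤ N x y)
    (L : ℕ) (x y : V) : (M ^ L) x y ≤ (N ^ L) x y := by
  induction L generalizing x y with
  | zero => simp
  | succ L ih =>
    rw [pow_succ, pow_succ, Matrix.mul_apply, Matrix.mul_apply]
    apply Finset.sum_le_sum
    intro z _
    exact mul_le_mul (ih x z) (h z y) (h0 z y)
      (pow_nonneg_entry N (fun a b => (h0 a b).trans (h a b)) L x z)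

theorem row_pow (M : Matrix V V ℝ) (h0 : ∀ x y, 0 ≤ M x y) (r : ℝ) (h : ∀ x, ∑ y, M x y ≤ r)
    (L : ℕ) (x : V) : ∑ y, (M ^ L) x y ≤ r ^ L := by
  have hr : 0 ≤ r := (Finset.sum_nonneg fun y _ => h0 x y).trans (h x)
  induction L with
  | zero =>
    simp [Matrix.one_apply]
  | succ L ih =>
    have h1 : ∑ y, (M ^ (L + 1)) x y = ∑ z, (M ^ L) x z * ∑ y, M z y := by
      simp only [pow_succ, Matrix.mul_apply]
      rw [Finset.sum_comm]
      refine Finset.sum_congr rfl fun z _ => ?_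
      rw [Finset.mul_sum]
    rw [h1]
    calc ∑ z, (M ^ L) x z * ∑ y, M z y ≤ ∑ z, (M ^ L) x z * r :=
          Finset.sum_le_sum fun z _ =>
            mul_le_mul_of_nonneg_left (h z) (pow_nonneg_entry M h0 L x z)
      _ = (∑ z, (M ^ L) x z) * r := by rw [Finset.sum_mul]
      _ ≤ r ^ L * r := mul_le_mul_of_nonneg_right ih hr
      _ = r ^ (L + 1) := (pow_succ r L).symm

theorem col_pow (M : Matrix V V ℝ) (h0 : ∀ x y, 0 ≤ M x y) (r : ℝ) (h : ∀ y, ∑ x, M x y ≤ r)
    (L : ℕ) (y : V) : ∑ x, (M ^ L) x y ≤ r ^ L := by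
  have h1 := row_pow M.transpose (fun x y => h0 y x) r (fun x => h x) L y
  rw [← Matrix.transpose_pow] at h1
  exact h1

theorem pow_bound (A : Matrix V V ℝ) (h0 : ∀ x y, 0 ≤ A x y) (D Q : ℝ) (hD : 0 ≤ D)
    (hrow : ∀ x, ∑ y, A x y ≤ D) (hcol : ∀ y, ∑ x, A x y ≤ D) (hQ0 : 0 < Q)
    (hQ : (Fintype.card V : ℝ) ≤ Q) (L : ℕ) (u v : V) :
    ((A + (Matrix.of (fun _ _ => Q⁻¹) : Matrix V V ℝ)) ^ L) u v ≤ (A ^ L) u v + L * (D + 1) ^ L / Q := by
  set m : Matrix V V ℝ := A + (Matrix.of (fun _ _ => Q⁻¹) : Matrix V V ℝ) with hm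
  have hmapp : ∀ x y, m x y = A x y + Q⁻¹ := fun x y => by rw [hm]; simp
  have hQi : 0 < Q⁻¹ := inv_pos.2 hQ0
  have hm0 : ∀ x y, 0 ≤ m x y := fun x y => by rw [hmapp]; exact add_nonneg (h0 x y) hQi.le
  have hmrow : ∀ x, ∑ y, m x y ≤ D + 1 := by
    intro x
    have h1 : ∑ y, m x y = ∑ y, A x y + Fintype.card V * Q⁻¹ := by
      simp only [hmapp, Finset.sum_add_distrib, Finset.sum_const, Finset.card_univ, nsmul_eq_mul]
    rw [h1]
    have h2 : (Fintype.card V : ℝ) * Q⁻¹ ≤ 1 := by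
      rw [← div_eq_mul_inv, div_le_one hQ0]; exact hQ
    exact add_le_add (hrow x) h2
  have hR : (1 : ℝ) ≤ D + 1 := by linarith
  induction L generalizing v with
  | zero => simp
  | succ L ih =>
    have e1 : (m ^ (L + 1)) u v = ∑ z, (m ^ L) u z * A z v + Q⁻¹ * ∑ z, (m ^ L) u z := by
      rw [pow_succ, Matrix.mul_apply, Finset.mul_sum, ← Finset.sum_add_distrib]
      refine Finset.sum_congr rfl fun z _ => ?_
      rw [hmapp]; ring
    have e2 : (A ^ (L + 1)) u v = ∑ z, (A ^ L) u z * A z v := by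
      rw [pow_succ, Matrix.mul_apply]
    have hb : ∑ z, (m ^ L) u z ≤ (D + 1) ^ L := row_pow m hm0 (D + 1) hmrow L u
    have ha : ∑ z, (m ^ L) u z * A z v ≤
        ∑ z, (A ^ L) u z * A z v + L * (D + 1) ^ L / Q * D := by
      calc ∑ z, (m ^ L) u z * A z v
          ≤ ∑ z, ((A ^ L) u z + L * (D + 1) ^ L / Q) * A z v :=
            Finset.sum_le_sum fun z _ => mul_le_mul_of_nonneg_right (ih z) (h0 z v)
        _ = ∑ z, (A ^ L) u z * A z v + L * (D + 1) ^ L / Q * ∑ z, A z v := by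
            rw [Finset.mul_sum, ← Finset.sum_add_distrib]
            refine Finset.sum_congr rfl fun z _ => ?_
            ring
        _ ≤ _ := by
            have : (0 : ℝ) ≤ L * (D + 1) ^ L / Q := by positivity
            have := mul_le_mul_of_nonneg_left (hcol v) this
            linarith
    rw [e1, e2]
    have hc : Q⁻¹ * ∑ z, (m ^ L) u z ≤ Q⁻¹ * (D + 1) ^ L := mul_le_mul_of_nonneg_left hb hQi.le
    have hd : (L : ℝ) * (D + 1) ^ L / Q * D + Q⁻¹ * (D + 1) ^ L ≤
        ((L + 1 : ℕ) : ℝ) * (D + 1) ^ (L + 1) / Q := by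
      have e3 : ((L + 1 : ℕ) : ℝ) * (D + 1) ^ (L + 1) / Q -
          ((L : ℝ) * (D + 1) ^ L / Q * D + Q⁻¹ * (D + 1) ^ L) =
          (D + 1) ^ L * (L + D) / Q := by
        push_cast
        field_simp
        ring
      have e4 : 0 ≤ (D + 1) ^ L * (L + D) / Q := by positivity
      linarith
    linarith

theorem ofFn_update_prod (L : ℕ) (M E : Matrix V V ℝ) (j : Fin L) :
    (List.ofFn (Function.update (fun _ : Fin L => M) j E)).prod =
      M ^ (j : ℕ) * E * M ^ (L - 1 - (j : ℕ)) := by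
  induction L with
  | zero => exact j.elim0
  | succ L ih =>
    rw [List.ofFn_succ, List.prod_cons]
    refine Fin.cases ?_ (fun i => ?_) j
    · have h1 : (fun i : Fin L => Function.update (fun _ : Fin (L + 1) => M) 0 E i.succ) =
          fun _ => M := by
        funext i
        rw [Function.update_of_ne (Fin.succ_ne_zero i)]
      rw [h1, Function.update_self, List.ofFn_const, List.prod_replicate]
      simp
    · have h1 : (fun k : Fin L => Function.update (fun _ : Fin (L + 1) => M) i.succ E k.succ) =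
          Function.update (fun _ : Fin L => M) i E := by
        funext k
        by_cases hk : k = i
        · subst hk; rw [Function.update_self, Function.update_self]
        · rw [Function.update_of_ne hk, Function.update_of_ne]
          intro h; exact hk (Fin.succ_injective _ h)
      rw [h1, ih i, Function.update_of_ne (Fin.succ_ne_zero i).symm]
      rw [← mul_assoc, ← mul_assoc, ← pow_succ', Fin.val_succ]
      congr 2
      omega

theorem mid_bound (X Y p q : V → ℝ) (E : V → V → ℝ) (b S d T : ℝ) (hb : 0 ≤ b) (hd : 0 ≤ d)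
    (hX0 : ∀ x, 0 ≤ X x) (hY0 : ∀ x, 0 ≤ Y x) (hp0 : ∀ x, 0 ≤ p x) (hq0 : ∀ x, 0 ≤ q x)
    (hX : ∀ x, X x ≤ p x + b) (hY : ∀ x, Y x ≤ q x + b) (hE : ∀ x y, 0 ≤ E x y)
    (hpS : ∑ x, p x ≤ S) (hqS : ∑ x, q x ≤ S) (hrow : ∀ x, ∑ y, E x y ≤ d)
    (hcol : ∀ y, ∑ x, E x y ≤ d) (hT : ∑ x, ∑ y, E x y ≤ T)
    (h0 : ∀ x y, p x * E x y * q y = 0) :
    ∑ x, ∑ y, X x * E x y * Y y ≤ 2 * b * S * d + b ^ 2 * T := by
  have h1 : ∑ x, ∑ y, X x * E x y * Y y ≤
      ∑ x, ∑ y, (b * (p x * E x y) + b * (q y * E x y) + b ^ 2 * E x y) := by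
    apply Finset.sum_le_sum; intro x _
    apply Finset.sum_le_sum; intro y _
    have e1 : X x * E x y * Y y ≤ (p x + b) * E x y * (q y + b) := by
      apply mul_le_mul _ (hY y) (hY0 y) _
      · exact mul_le_mul_of_nonneg_right (hX x) (hE x y)
      · exact mul_nonneg (add_nonneg (hp0 x) hb) (hE x y)
    have e2 : (p x + b) * E x y * (q y + b) =
        p x * E x y * q y + (b * (p x * E x y) + b * (q y * E x y) + b ^ 2 * E x y) := by ring
    rw [e2, h0 x y, zero_add] at e1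
    exact e1
  have h2 : ∑ x, ∑ y, (b * (p x * E x y) + b * (q y * E x y) + b ^ 2 * E x y) =
      b * (∑ x, p x * ∑ y, E x y) + b * (∑ y, q y * ∑ x, E x y) + b ^ 2 * ∑ x, ∑ y, E x y := by
    simp only [Finset.sum_add_distrib, ← Finset.mul_sum]
    congr 2
    rw [Finset.sum_comm]
    simp only [← Finset.mul_sum]
  have h3 : ∑ x, p x * ∑ y, E x y ≤ S * d := by
    calc ∑ x, p x * ∑ y, E x y ≤ ∑ x, p x * d :=
          Finset.sum_le_sum fun x _ => mul_le_mul_of_nonneg_left (hrow x) (hp0 x)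
      _ = (∑ x, p x) * d := by rw [Finset.sum_mul]
      _ ≤ S * d := mul_le_mul_of_nonneg_right hpS hd
  have h4 : ∑ y, q y * ∑ x, E x y ≤ S * d := by
    calc ∑ y, q y * ∑ x, E x y ≤ ∑ y, q y * d :=
          Finset.sum_le_sum fun y _ => mul_le_mul_of_nonneg_left (hcol y) (hq0 y)
      _ = (∑ y, q y) * d := by rw [Finset.sum_mul]
      _ ≤ S * d := mul_le_mul_of_nonneg_right hqS hd
  rw [h2] at h1
  have h5 := mul_le_mul_of_nonneg_left h3 hb
  have h6 := mul_le_mul_of_nonneg_left h4 hb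
  have h7 := mul_le_mul_of_nonneg_left hT (sq_nonneg b)
  nlinarith [h1, h5, h6, h7]
end T1

end Pool.Agent.R184.OC
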