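import Mathlib
import Pool.Agent.R184.OC.Defs

namespace Pool.Agent.R184.OC

open Finset Matrix

section SeqSum

variable {V : Type*} [Fintype V] [DecidableEq V]

/-- Sums over sequences with prescribed ends are entries of matrix products. -/
theorem seq_sum : ∀ (L : ℕ) (M : Fin L → Matrix V V ℝ) (v u : V),
    ∑ c : Fin (L + 1) → V, (if c 0 = v ∧ c (Fin.last L) = u then
      ∏ i : Fin L, M i (c i.castSucc) (c i.succ) else 0) = (List.ofFn M).prod v u := by
  intro L
  induction L with
  | zero =>
    intro M v u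
    rw [Fintype.sum_equiv (Equiv.funUnique (Fin 1) V)
      (g := fun x => if x = v ∧ x = u then (1 : ℝ) else 0)]
    · simp only [List.ofFn_zero, List.prod_nil, Matrix.one_apply]
      by_cases h : v = u
      · subst h
        simp
      · rw [if_neg h]
        apply Finset.sum_eq_zero
        intro x _
        rw [if_neg]
        rintro ⟨h1, h2⟩
        exact h (h1.symm.trans h2)
    · intro c
      simp [Equiv.funUnique]
  | succ L ih =>
    intro M v u
    rw [Fintype.sum_equiv (Fin.consEquiv (fun _ : Fin (L + 2) => V)).symm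
      (g := fun p : V × (Fin (L + 1) → V) => if p.1 = v ∧ p.2 (Fin.last L) = u then
        M 0 p.1 (p.2 0) * ∏ i : Fin L, M i.succ (p.2 i.castSucc) (p.2 i.succ) else 0)]
    · rw [Fintype.sum_prod_type]
      rw [List.ofFn_succ, List.prod_cons, Matrix.mul_apply]
      rw [Finset.sum_eq_single v]
      · have h1 : ∀ c : Fin (L + 1) → V, (if v = v ∧ c (Fin.last L) = u then
            M 0 v (c 0) * ∏ i : Fin L, M i.succ (c i.castSucc) (c i.succ) else 0) =
            ∑ x, M 0 v x * (if c 0 = x ∧ c (Fin.last L) = u then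
              ∏ i : Fin L, M i.succ (c i.castSucc) (c i.succ) else 0) := by
          intro c
          rw [Finset.sum_eq_single (c 0)]
          · by_cases h : c (Fin.last L) = u <;> simp [h]
          · intro x _ hx
            rw [if_neg, mul_zero]
            rintro ⟨h2, _⟩
            exact hx h2.symm
          · simp
        rw [Finset.sum_congr rfl (fun c _ => h1 c), Finset.sum_comm]
        apply Finset.sum_congr rfl
        intro x _
        rw [← Finset.mul_sum, ih]
      · intro x _ hx
        apply Finset.sum_eq_zero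
        intro c _
        rw [if_neg]
        rintro ⟨h1, _⟩
        exact hx h1
      · simp
    · intro c
      simp only [Fin.consEquiv, Equiv.symm, Equiv.coe_fn_mk]
      have e1 : Fin.tail c (Fin.last L) = c (Fin.last (L + 1)) := rfl
      simp only [e1]
      rw [Fin.prod_univ_succ]
      rfl

/-- Rotation of closed sequences. -/
def rot {V : Type*} {L : ℕ} (j : Fin (L + 1)) (c : Fin (L + 1) → V) : Fin (L + 1) → V :=
  fun i => c (i + (j + 1))

omit [DecidableEq V] in
theorem rot_sum {L : ℕ} (T : (Fin (L + 1) → V) → ℝ) :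
    ∑ c : Fin (L + 1) → V, ∑ j : Fin (L + 1), T (rot j c) =
      (L + 1 : ℕ) * ∑ c : Fin (L + 1) → V, T c := by
  rw [Finset.sum_comm]
  have h : ∀ j : Fin (L + 1), ∑ c : Fin (L + 1) → V, T (rot j c) =
      ∑ c : Fin (L + 1) → V, T c := by
    intro j
    exact Fintype.sum_equiv ((Equiv.addRight (j + 1)).symm.arrowCongr (Equiv.refl V)) _ _
      (fun c => by
        congr 1)
  rw [Finset.sum_congr rfl (fun j _ => h j)]
  simp

/-- the edges of a closed sequence -/
def cycE {V : Type*} {L : ℕ} (c : Fin (L + 1) → V) (j : Fin (L + 1)) : Sym2 V := s(c j, c (j + 1))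

omit [Fintype V] [DecidableEq V] in
theorem rot_last {L : ℕ} (j : Fin (L + 1)) (c : Fin (L + 1) → V) :
    rot j c (Fin.last L) = c j := by
  unfold rot
  congr 1
  rw [← add_assoc, add_right_comm, Fin.last_add_one, zero_add]

omit [Fintype V] [DecidableEq V] in
theorem rot_zero {L : ℕ} (j : Fin (L + 1)) (c : Fin (L + 1) → V) :
    rot j c 0 = c (j + 1) := by
  unfold rot
  rw [zero_add]

omit [Fintype V] [DecidableEq V] in
theorem cycE_rot {L : ℕ} (j i : Fin (L + 1)) (c : Fin (L + 1) → V) :
    cycE (rot j c) i = cycE c (i + (j + 1)) := by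
  unfold cycE rot
  rw [add_right_comm i 1 (j + 1)]

omit [Fintype V] [DecidableEq V] in
theorem cycE_last {L : ℕ} (c : Fin (L + 1) → V) :
    cycE c (Fin.last L) = s(c (Fin.last L), c 0) := by
  unfold cycE
  rw [Fin.last_add_one]

omit [Fintype V] [DecidableEq V] in
theorem cycE_castSucc {L : ℕ} (c : Fin (L + 1) → V) (i : Fin L) :
    cycE c i.castSucc = s(c i.castSucc, c i.succ) := by
  unfold cycE
  rw [Fin.coeSucc_eq_succ]

/-- the positions different from `j` -/
def phi {L : ℕ} (j : Fin (L + 1)) : Fin L ↪ Fin (L + 1) where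
  toFun i := i.castSucc + (j + 1)
  inj' a b h := Fin.castSucc_injective _ (add_right_cancel h)

theorem erase_eq_map {L : ℕ} (j : Fin (L + 1)) :
    (Finset.univ.erase j : Finset (Fin (L + 1))) = Finset.univ.map (phi j) := by
  symm
  apply Finset.eq_of_subset_of_card_le
  · intro i hi
    rw [Finset.mem_map] at hi
    obtain ⟨a, _, rfl⟩ := hi
    rw [Finset.mem_erase]
    refine ⟨?_, Finset.mem_univ _⟩
    have h1 : Fin.last L + (j + 1) = j := by
      rw [← add_assoc, add_right_comm, Fin.last_add_one, zero_add]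
    intro h2
    have h3 : a.castSucc = Fin.last L := add_right_cancel (h2.trans h1.symm)
    exact (Fin.castSucc_lt_last a).ne h3
  · rw [Finset.card_map, Finset.card_erase_of_mem (Finset.mem_univ _)]
    simp

omit [Fintype V] [DecidableEq V] in
theorem cycE_phi {L : ℕ} (j : Fin (L + 1)) (i : Fin L) (c : Fin (L + 1) → V) :
    cycE c (phi j i) = s(rot j c i.castSucc, rot j c i.succ) := by
  rw [← cycE_castSucc, cycE_rot]
  rfl

/-- injective sequences -/
abbrev CycIdx (V : Type*) (L : ℕ) : Type _ := {c : Fin (L + 1) → V // Function.Injective c}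

/-- the cycle structures -/
def gc {L : ℕ} (c : CycIdx V L) (j : Fin (L + 1)) : Sym2 V := cycE c.1 j

omit [Fintype V] [DecidableEq V] in
theorem gc_injective {L : ℕ} (hL : 2 ≤ L) (c : CycIdx V L) : Function.Injective (gc c) := by
  intro i j hij
  unfold gc cycE at hij
  rw [Sym2.eq_iff] at hij
  rcases hij with ⟨h1, _⟩ | ⟨h1, h2⟩
  · exact c.2 h1
  · have h3 := c.2 h1
    have h4 := c.2 h2
    exfalso
    rw [h3, add_assoc] at h4
    have h5 : (1 : Fin (L + 1)) + 1 = 0 := by
      have : j + (1 + 1) = j + 0 := by rw [h4, add_zero]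
      exact add_left_cancel this
    have h6 := congrArg Fin.val h5
    obtain ⟨m, rfl⟩ : ∃ m, L = m + 2 := ⟨L - 2, by omega⟩
    rw [Fin.val_add] at h6
    have h7 : ((1 : Fin (m + 2 + 1)) : ℕ) = 1 := rfl
    rw [h7, Nat.mod_eq_of_lt (by omega)] at h6
    simp at h6

theorem sum_cycIdx {L : ℕ} (X : (Fin (L + 1) → V) → ℝ) :
    ∑ c : CycIdx V L, X c.1 = ∑ c : Fin (L + 1) → V, if Function.Injective c then X c else 0 := by
  classical
  rw [← Finset.sum_filter]
  rw [Finset.sum_subtype (Finset.univ.filter (fun c : Fin (L + 1) → V => Function.Injective c))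
    (p := fun c => Function.Injective c)]
  intro x
  simp

omit [Fintype V] [DecidableEq V] in
theorem rot_injective_iff {L : ℕ} (j : Fin (L + 1)) (c : Fin (L + 1) → V) :
    Function.Injective (rot j c) ↔ Function.Injective c := by
  constructor
  · intro h a b hab
    have h1 : rot j c (a - (j + 1)) = rot j c (b - (j + 1)) := by
      unfold rot
      rw [sub_add_cancel, sub_add_cancel, hab]
    have := h h1
    exact sub_left_injective this
  · intro h a b hab
    exact add_right_cancel (h hab)

theorem rot_sum_cyc {L : ℕ} (T : (Fin (L + 1) → V) → ℝ) :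
    ∑ c : CycIdx V L, ∑ j : Fin (L + 1), T (rot j c.1) =
      (L + 1 : ℕ) * ∑ c : CycIdx V L, T c.1 := by
  classical
  rw [sum_cycIdx (fun c => ∑ j : Fin (L + 1), T (rot j c)), sum_cycIdx T,
    ← rot_sum (fun c => if Function.Injective c then T c else 0)]
  apply Finset.sum_congr rfl
  intro c _
  by_cases h : Function.Injective c
  · simp [h, rot_injective_iff]
  · simp [h, rot_injective_iff]

/-- the weight of the path `d 0, ..., d L` -/
def pathW {L : ℕ} (w : Sym2 V → ℝ) (d : Fin (L + 1) → V) : ℝ :=
  ∏ i : Fin L, w s(d i.castSucc, d i.succ)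

/-- the sum over the edges of the path in `R` of the weights of the rest -/
def pathH {L : ℕ} (w : Sym2 V → ℝ) (R : Finset (Sym2 V)) (d : Fin (L + 1) → V) : ℝ :=
  ∑ j : Fin L, if s(d j.castSucc, d j.succ) ∈ R then
    ∏ i ∈ Finset.univ.erase j, w s(d i.castSucc, d i.succ) else 0

theorem Dv_cyc {L : ℕ} (w : Sym2 V → ℝ) (f : Sym2 V) :
    Dv (gc (V := V) (L := L)) w f = (L + 1 : ℕ) * ∑ d : CycIdx V L,
      if s(d.1 (Fin.last L), d.1 0) = f then pathW w d.1 else 0 := by
  rw [← rot_sum_cyc (fun d : Fin (L + 1) → V =>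
    if s(d (Fin.last L), d 0) = f then pathW w d else 0)]
  unfold Dv
  apply Finset.sum_congr rfl
  intro c _
  apply Finset.sum_congr rfl
  intro j _
  simp only [rot_last, rot_zero]
  unfold gc
  rw [erase_eq_map, Finset.prod_map]
  simp only [cycE_phi]
  rfl

theorem Hv_cyc {L : ℕ} (w : Sym2 V → ℝ) (R : Finset (Sym2 V)) (f : Sym2 V) :
    Hv (gc (V := V) (L := L)) w R f = (L + 1 : ℕ) * ∑ d : CycIdx V L,
      if s(d.1 (Fin.last L), d.1 0) = f then pathH w R d.1 else 0 := by
  rw [← rot_sum_cyc (fun d : Fin (L + 1) → V =>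
    if s(d (Fin.last L), d 0) = f then pathH w R d else 0)]
  unfold Hv
  apply Finset.sum_congr rfl
  intro c _
  apply Finset.sum_congr rfl
  intro j _
  simp only [rot_last, rot_zero]
  unfold gc pathH
  rw [erase_eq_map, Finset.sum_map]
  simp only [cycE_phi, ← Finset.map_erase, Finset.prod_map]
  rfl

end SeqSum

end Pool.Agent.R184.OC
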