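import Mathlib
import Pool.Agent.R184.OC.Defs
import Pool.Agent.R184.OC.Mats
import Pool.Agent.R184.OC.Walks

namespace Pool.Agent.R184.OC

open Finset Matrix

variable {V : Type*} [Fintype V] [DecidableEq V]

/-- weights of a position -/
noncomputable def wt (Q : ℝ) (C F : Finset (Sym2 V)) (e : Sym2 V) : ℝ :=
  if e ∈ C then 1 else if e ∈ F then Q⁻¹ else 0

/-- adjacency matrix of an edge set -/
def adjM (C : Finset (Sym2 V)) : Matrix V V ℝ := Matrix.of fun x y => if s(x, y) ∈ C then 1 else 0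

/-- matrix of weights -/
def wM (w : Sym2 V → ℝ) : Matrix V V ℝ := Matrix.of fun x y => w s(x, y)

theorem wt_nonneg {Q : ℝ} (hQ : 0 < Q) (C F : Finset (Sym2 V)) (e : Sym2 V) : 0 ≤ wt Q C F e := by
  unfold wt
  split_ifs
  · norm_num
  · exact (inv_pos.mpr hQ).le
  · exact le_rfl

theorem adjM_nonneg (C : Finset (Sym2 V)) (x y : V) : 0 ≤ adjM C x y := by
  unfold adjM
  rw [Matrix.of_apply]
  split_ifs <;> norm_num

theorem wM_wt_nonneg {Q : ℝ} (hQ : 0 < Q) (C F : Finset (Sym2 V)) (x y : V) :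
    0 ≤ wM (wt Q C F) x y := by
  unfold wM
  rw [Matrix.of_apply]
  exact wt_nonneg hQ C F _

theorem wM_wt_le {Q : ℝ} (hQ : 0 < Q) (C F : Finset (Sym2 V)) (x y : V) :
    wM (wt Q C F) x y ≤ (adjM C + (Matrix.of (fun _ _ => Q⁻¹) : Matrix V V ℝ)) x y := by
  have h := (inv_pos.mpr hQ).le
  unfold wM wt adjM
  rw [Matrix.add_apply, Matrix.of_apply, Matrix.of_apply, Matrix.of_apply]
  split_ifs <;> linarith

theorem adjM_transpose (C : Finset (Sym2 V)) : (adjM C)ᵀ = adjM C := by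
  ext x y
  unfold adjM
  rw [Matrix.transpose_apply, Matrix.of_apply, Matrix.of_apply, Sym2.eq_swap]

theorem adjM_pow_comm (C : Finset (Sym2 V)) (L : ℕ) (x y : V) :
    (adjM C ^ L) x y = (adjM C ^ L) y x := by
  have h : ((adjM C) ^ L)ᵀ = adjM C ^ L := by
    rw [Matrix.transpose_pow, adjM_transpose]
  conv_lhs => rw [← h]
  rfl

/-- the entries of the powers are `0` or at least `1` -/
theorem adjM_pow_zero_or (C : Finset (Sym2 V)) (L : ℕ) :
    ∀ x y, (adjM C ^ L) x y = 0 ∨ 1 ≤ (adjM C ^ L) x y := by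
  induction L with
  | zero =>
    intro x y
    rw [pow_zero, Matrix.one_apply]
    split_ifs
    · right; exact le_rfl
    · left; rfl
  | succ L ih =>
    intro x y
    rw [pow_succ, Matrix.mul_apply]
    by_cases h : ∃ z, (adjM C ^ L) x z * adjM C z y ≠ 0
    · right
      obtain ⟨z, hz⟩ := h
      have h1 : (adjM C ^ L) x z ≠ 0 := left_ne_zero_of_mul hz
      have h2 : adjM C z y ≠ 0 := right_ne_zero_of_mul hz
      have h3 : 1 ≤ (adjM C ^ L) x z := (ih x z).resolve_left h1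
      have h4 : adjM C z y = 1 := by
        unfold adjM at h2 ⊢
        rw [Matrix.of_apply] at h2 ⊢
        by_contra h5
        rw [if_neg] at h2
        · exact h2 rfl
        · intro h6
          rw [if_pos h6] at h5
          exact h5 rfl
      calc (1 : ℝ) ≤ (adjM C ^ L) x z * adjM C z y := by rw [h4, mul_one]; exact h3
        _ ≤ ∑ z, (adjM C ^ L) x z * adjM C z y := by
          apply Finset.single_le_sum (f := fun z => (adjM C ^ L) x z * adjM C z y)
            (fun z _ => mul_nonneg (pow_nonneg_entry _ (adjM_nonneg C) _ _ _) (adjM_nonneg C _ _))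
            (Finset.mem_univ z)
    · left
      push Not at h
      exact Finset.sum_eq_zero (fun z _ => h z)

/-- a closed sequence with prescribed closing edge is a sequence with prescribed ends -/
theorem closing_le {L : ℕ} (X : (Fin (L + 1) → V) → ℝ) (hX : ∀ d, 0 ≤ X d) (u v : V) :
    ∑ d : CycIdx V L, (if s(d.1 (Fin.last L), d.1 0) = s(u, v) then X d.1 else 0) ≤
      (∑ d : Fin (L + 1) → V, if d 0 = v ∧ d (Fin.last L) = u then X d else 0) +
      (∑ d : Fin (L + 1) → V, if d 0 = u ∧ d (Fin.last L) = v then X d else 0) := by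
  classical
  rw [sum_cycIdx (fun d : Fin (L + 1) → V => if s(d (Fin.last L), d 0) = s(u, v) then X d else 0),
    ← Finset.sum_add_distrib]
  apply Finset.sum_le_sum
  intro d _
  have h1 : (0 : ℝ) ≤ if d 0 = v ∧ d (Fin.last L) = u then X d else 0 := by
    split_ifs
    · exact hX d
    · exact le_rfl
  have h2 : (0 : ℝ) ≤ if d 0 = u ∧ d (Fin.last L) = v then X d else 0 := by
    split_ifs
    · exact hX d
    · exact le_rfl
  by_cases hinj : Function.Injective d
  · rw [if_pos hinj]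
    by_cases h : s(d (Fin.last L), d 0) = s(u, v)
    · rw [if_pos h]
      rw [Sym2.eq_iff] at h
      rcases h with ⟨h3, h4⟩ | ⟨h3, h4⟩
      · rw [if_pos (show d 0 = v ∧ d (Fin.last L) = u from ⟨h4, h3⟩)]
        linarith
      · rw [if_pos (show d 0 = u ∧ d (Fin.last L) = v from ⟨h4, h3⟩)]
        linarith
    · rw [if_neg h]
      linarith
  · rw [if_neg hinj]
    linarith

theorem pathW_nonneg {L : ℕ} {w : Sym2 V → ℝ} (hw : ∀ e, 0 ≤ w e) (d : Fin (L + 1) → V) :
    0 ≤ pathW w d := Finset.prod_nonneg (fun _ _ => hw _)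

theorem pathH_nonneg {L : ℕ} {w : Sym2 V → ℝ} (hw : ∀ e, 0 ≤ w e) (R : Finset (Sym2 V))
    (d : Fin (L + 1) → V) : 0 ≤ pathH w R d := by
  apply Finset.sum_nonneg
  intro j _
  split_ifs
  · exact Finset.prod_nonneg (fun _ _ => hw _)
  · exact le_rfl

theorem pathW_sum {L : ℕ} (w : Sym2 V → ℝ) (v u : V) :
    (∑ d : Fin (L + 1) → V, if d 0 = v ∧ d (Fin.last L) = u then pathW w d else 0) =
      (wM w ^ L) v u := by
  have h := seq_sum L (fun _ => wM w) v u
  rw [List.ofFn_const, List.prod_replicate] at h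
  rw [← h]
  rfl

/-- the indicator matrix of an edge set -/
theorem pathH_sum {L : ℕ} (w : Sym2 V → ℝ) (R : Finset (Sym2 V)) (v u : V) :
    (∑ d : Fin (L + 1) → V, if d 0 = v ∧ d (Fin.last L) = u then pathH w R d else 0) =
      ∑ j : Fin L, (wM w ^ (j : ℕ) * adjM R * wM w ^ (L - 1 - (j : ℕ))) v u := by
  have h : ∀ j : Fin L, (wM w ^ (j : ℕ) * adjM R * wM w ^ (L - 1 - (j : ℕ))) v u =
      ∑ d : Fin (L + 1) → V, if d 0 = v ∧ d (Fin.last L) = u then
        (if s(d j.castSucc, d j.succ) ∈ R then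
          ∏ i ∈ Finset.univ.erase j, w s(d i.castSucc, d i.succ) else 0) else 0 := by
    intro j
    rw [← ofFn_update_prod, ← seq_sum]
    apply Finset.sum_congr rfl
    intro d _
    congr 1
    rw [← Finset.mul_prod_erase Finset.univ _ (Finset.mem_univ j)]
    rw [Function.update_self]
    have h2 : ∏ i ∈ Finset.univ.erase j, (Function.update (fun _ : Fin L => wM w) j (adjM R)) i
        (d i.castSucc) (d i.succ) = ∏ i ∈ Finset.univ.erase j, w s(d i.castSucc, d i.succ) := by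
      apply Finset.prod_congr rfl
      intro i hi
      rw [Function.update_of_ne (Finset.ne_of_mem_erase hi)]
      rfl
    rw [h2]
    unfold adjM
    rw [Matrix.of_apply]
    split_ifs <;> simp
  rw [Finset.sum_congr rfl (fun j _ => h j), Finset.sum_comm]
  apply Finset.sum_congr rfl
  intro d _
  unfold pathH
  split_ifs
  · rfl
  · simp

/-- standing assumptions on a position -/
structure Pos (Q : ℝ) (D : ℕ) (C : Finset (Sym2 V)) : Prop where
  hQ0 : 0 < Q
  hQ : (Fintype.card V : ℝ) ≤ Q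
  row : ∀ v, ∑ x, adjM C v x ≤ D

theorem Pos.col {Q : ℝ} {D : ℕ} {C : Finset (Sym2 V)} (h : Pos Q D C) (v : V) :
    ∑ x, adjM C x v ≤ D := by
  have h1 : ∀ x, adjM C x v = adjM C v x := by
    intro x
    conv_lhs => rw [← adjM_transpose]
    rfl
  simp only [h1]
  exact h.row v

/-- the error term -/
noncomputable def bb (Q : ℝ) (D K0 : ℕ) : ℝ := K0 * ((D : ℝ) + 1) ^ K0 / Q

theorem bb_nonneg {Q : ℝ} (hQ : 0 < Q) (D K0 : ℕ) : 0 ≤ bb Q D K0 := by
  unfold bb
  positivity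

theorem bb_mono {Q : ℝ} (hQ : 0 < Q) (D : ℕ) {L K0 : ℕ} (hL : L ≤ K0) :
    (L : ℝ) * ((D : ℝ) + 1) ^ L / Q ≤ bb Q D K0 := by
  unfold bb
  have h1 : (L : ℝ) ≤ K0 := by exact_mod_cast hL
  have h2 : ((D : ℝ) + 1) ^ L ≤ ((D : ℝ) + 1) ^ K0 :=
    pow_le_pow_right₀ (by have : (0 : ℝ) ≤ D := Nat.cast_nonneg D
                          linarith) hL
  have h3 : (0 : ℝ) ≤ ((D : ℝ) + 1) ^ L := by positivity
  gcongr

theorem walk_le {Q : ℝ} {D : ℕ} {C : Finset (Sym2 V)} (h : Pos Q D C) (F : Finset (Sym2 V))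
    {L K0 : ℕ} (hL : L ≤ K0) (x y : V) :
    (wM (wt Q C F) ^ L) x y ≤ (adjM C ^ L) x y + bb Q D K0 := by
  have h1 := pow_mono_entry _ _ (wM_wt_nonneg h.hQ0 C F) (wM_wt_le h.hQ0 C F) L x y
  have h2 := pow_bound (adjM C) (adjM_nonneg C) D Q (Nat.cast_nonneg D) h.row h.col h.hQ0 h.hQ L x y
  have h3 := bb_mono h.hQ0 D hL
  linarith

theorem Dv_cyc_nonneg {L : ℕ} (w : Sym2 V → ℝ) (hw : ∀ e, 0 ≤ w e) (f : Sym2 V) :
    0 ≤ Dv (gc (V := V) (L := L)) w f := by
  rw [Dv_cyc]
  apply mul_nonneg (Nat.cast_nonneg _)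
  apply Finset.sum_nonneg
  intro d _
  split_ifs
  · exact pathW_nonneg hw _
  · exact le_rfl

theorem Dv_cyc_le {Q : ℝ} {D : ℕ} {C : Finset (Sym2 V)} (h : Pos Q D C) (F : Finset (Sym2 V))
    {L K0 : ℕ} (hL : L ≤ K0) (u v : V) (huv : (adjM C ^ L) u v = 0) :
    Dv (gc (V := V) (L := L)) (wt Q C F) s(u, v) ≤ (L + 1 : ℕ) * (2 * bb Q D K0) := by
  rw [Dv_cyc]
  apply mul_le_mul_of_nonneg_left _ (Nat.cast_nonneg _)
  refine (closing_le (pathW (wt Q C F)) (pathW_nonneg (wt_nonneg h.hQ0 C F)) u v).trans ?_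
  rw [pathW_sum, pathW_sum]
  have h1 := walk_le h F hL v u
  have h2 := walk_le h F hL u v
  rw [adjM_pow_comm, huv] at h1
  rw [huv] at h2
  linarith

theorem sum_adjM_le (R : Finset (Sym2 V)) (d : ℕ)
    (hd : ∀ v, (R.filter (fun e => v ∈ e)).card ≤ d) (v : V) : ∑ x, adjM R v x ≤ d := by
  unfold adjM
  simp only [Matrix.of_apply]
  rw [← Finset.sum_filter, Finset.sum_const, nsmul_eq_mul, mul_one]
  have h : (Finset.univ.filter (fun x => s(v, x) ∈ R)).card ≤
      (R.filter (fun e => v ∈ e)).card := by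
    apply Finset.card_le_card_of_injOn (fun x => s(v, x))
    · intro x hx
      simp only [Finset.coe_filter, Finset.mem_univ, true_and, Set.mem_setOf_eq] at hx ⊢
      exact ⟨hx, Sym2.mem_mk_left v x⟩
    · intro x _ y _ hxy
      simp only [Sym2.eq_iff] at hxy
      rcases hxy with ⟨_, h⟩ | ⟨h1, h2⟩
      · exact h
      · exact h2.trans h1
  exact_mod_cast h.trans (hd v)

theorem pathH_erase {L : ℕ} (hL : 2 ≤ L) (w : Sym2 V → ℝ) (R : Finset (Sym2 V)) (d : CycIdx V L) :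
    pathH w R d.1 = pathH w (R.erase s(d.1 (Fin.last L), d.1 0)) d.1 := by
  unfold pathH
  apply Finset.sum_congr rfl
  intro j _
  have h1 : s(d.1 j.castSucc, d.1 j.succ) ≠ s(d.1 (Fin.last L), d.1 0) := by
    intro h
    have h2 : gc d j.castSucc = gc d (Fin.last L) := by
      unfold gc
      rw [cycE_castSucc, cycE_last, h]
    have h3 := gc_injective hL d h2
    exact (Fin.castSucc_lt_last j).ne h3
  simp only [Finset.mem_erase, ne_eq, h1, not_false_eq_true, true_and]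

theorem Hv_cyc_le {Q : ℝ} {D : ℕ} {C : Finset (Sym2 V)} (h : Pos Q D C) (F : Finset (Sym2 V))
    {L K0 : ℕ} (hL2 : 2 ≤ L) (hL : L ≤ K0) (R : Finset (Sym2 V)) (d : ℕ)
    (hd : ∀ v, (R.filter (fun e => v ∈ e)).card ≤ d) (u v : V) (huv : s(u, v) ∈ R)
    (hsel : ∀ x y, s(x, y) ∈ R → (∃ a ≤ K0, (adjM C ^ a) u x ≠ 0) →
      (∃ a ≤ K0, (adjM C ^ a) v y ≠ 0) → s(x, y) = s(u, v)) :
    Hv (gc (V := V) (L := L)) (wt Q C F) R s(u, v) ≤ (L + 1 : ℕ) * (2 * (K0 *
      (2 * bb Q D K0 * ((D : ℝ) + 1) ^ K0 * d + bb Q D K0 ^ 2 * (Fintype.card V * d)))) := by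
  have hw := wt_nonneg h.hQ0 C F
  have hD0 : (0 : ℝ) ≤ D := Nat.cast_nonneg D
  have hmid : ∀ (j : Fin L) (u' v' : V), (∀ x y, s(x, y) ∈ R.erase s(u, v) →
      (∃ a ≤ K0, (adjM C ^ a) v' x ≠ 0) → (∃ a ≤ K0, (adjM C ^ a) u' y ≠ 0) → False) →
      (wM (wt Q C F) ^ (j : ℕ) * adjM (R.erase s(u, v)) * wM (wt Q C F) ^ (L - 1 - (j : ℕ))) v' u' ≤
      2 * bb Q D K0 * ((D : ℝ) + 1) ^ K0 * d + bb Q D K0 ^ 2 * (Fintype.card V * d) := by
    intro j u' v' hno
    have hj : (j : ℕ) ≤ K0 := (Nat.le_of_lt j.2).trans hL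
    have hj' : L - 1 - (j : ℕ) ≤ K0 := by omega
    have hpow : ∀ (a : ℕ), a ≤ K0 → ((D : ℝ)) ^ a ≤ ((D : ℝ) + 1) ^ K0 := by
      intro a ha
      calc ((D : ℝ)) ^ a ≤ ((D : ℝ) + 1) ^ a := by gcongr; linarith
        _ ≤ ((D : ℝ) + 1) ^ K0 := pow_le_pow_right₀ (by linarith) ha
    have hdE : ∀ w', ((R.erase s(u, v)).filter (fun e => w' ∈ e)).card ≤ d := by
      intro w'
      exact (Finset.card_le_card (Finset.filter_subset_filter _ (Finset.erase_subset _ _))).trans
        (hd w')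
    have hE := sum_adjM_le (R.erase s(u, v)) d hdE
    have hE' : ∀ y, ∑ x, adjM (R.erase s(u, v)) x y ≤ d := by
      intro y
      have h1 : ∀ x, adjM (R.erase s(u, v)) x y = adjM (R.erase s(u, v)) y x := by
        intro x
        conv_lhs => rw [← adjM_transpose]
        rfl
      simp only [h1]
      exact hE y
    rw [Matrix.mul_apply]
    simp only [Matrix.mul_apply, Finset.sum_mul]
    rw [Finset.sum_comm]
    apply mid_bound (fun x => (wM (wt Q C F) ^ (j : ℕ)) v' x)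
      (fun y => (wM (wt Q C F) ^ (L - 1 - (j : ℕ))) y u')
      (fun x => (adjM C ^ (j : ℕ)) v' x) (fun y => (adjM C ^ (L - 1 - (j : ℕ))) y u')
      (adjM (R.erase s(u, v)))
    · exact bb_nonneg h.hQ0 D K0
    · exact Nat.cast_nonneg d
    · intro x
      exact pow_nonneg_entry _ (wM_wt_nonneg h.hQ0 C F) _ _ _
    · intro x
      exact pow_nonneg_entry _ (wM_wt_nonneg h.hQ0 C F) _ _ _
    · intro x
      exact pow_nonneg_entry _ (adjM_nonneg C) _ _ _
    · intro x
      exact pow_nonneg_entry _ (adjM_nonneg C) _ _ _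
    · intro x
      exact walk_le h F hj _ _
    · intro x
      exact walk_le h F hj' _ _
    · exact adjM_nonneg _
    · exact (row_pow _ (adjM_nonneg C) D h.row _ _).trans (hpow _ hj)
    · exact (col_pow _ (adjM_nonneg C) D h.col _ _).trans (hpow _ hj')
    · exact hE
    · exact hE'
    · calc ∑ x, ∑ y, adjM (R.erase s(u, v)) x y ≤ ∑ _x : V, (d : ℝ) :=
          Finset.sum_le_sum (fun x _ => hE x)
        _ = Fintype.card V * d := by
          rw [Finset.sum_const, nsmul_eq_mul, Finset.card_univ]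
    · intro x y
      by_contra hne
      have h1 : (adjM C ^ (j : ℕ)) v' x ≠ 0 := fun h0 => hne (by rw [h0]; ring)
      have h2 : adjM (R.erase s(u, v)) x y ≠ 0 := fun h0 => hne (by rw [h0]; ring)
      have h3 : (adjM C ^ (L - 1 - (j : ℕ))) y u' ≠ 0 := fun h0 => hne (by rw [h0]; ring)
      have h4 : s(x, y) ∈ R.erase s(u, v) := by
        by_contra h5
        apply h2
        unfold adjM
        rw [Matrix.of_apply, if_neg h5]
      exact hno x y h4 ⟨_, hj, h1⟩ ⟨_, hj', by rwa [adjM_pow_comm]⟩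
  rw [Hv_cyc]
  apply mul_le_mul_of_nonneg_left _ (Nat.cast_nonneg _)
  have h1 : ∑ d : CycIdx V L, (if s(d.1 (Fin.last L), d.1 0) = s(u, v) then
      pathH (wt Q C F) R d.1 else 0) = ∑ d : CycIdx V L,
      (if s(d.1 (Fin.last L), d.1 0) = s(u, v) then
        pathH (wt Q C F) (R.erase s(u, v)) d.1 else 0) := by
    apply Finset.sum_congr rfl
    intro d _
    split_ifs with h2
    · rw [pathH_erase hL2, h2]
    · rfl
  rw [h1]
  refine (closing_le (pathH (wt Q C F) (R.erase s(u, v))) (pathH_nonneg hw _) u v).trans ?_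
  rw [pathH_sum, pathH_sum]
  have hLK : (L : ℝ) ≤ K0 := by exact_mod_cast hL
  have hb := bb_nonneg h.hQ0 D K0
  have hX : 0 ≤ 2 * bb Q D K0 * ((D : ℝ) + 1) ^ K0 * d +
      bb Q D K0 ^ 2 * (Fintype.card V * d) := by positivity
  have h2 : ∑ j : Fin L, (wM (wt Q C F) ^ (j : ℕ) * adjM (R.erase s(u, v)) *
      wM (wt Q C F) ^ (L - 1 - (j : ℕ))) v u ≤ K0 * (2 * bb Q D K0 * ((D : ℝ) + 1) ^ K0 * d +
      bb Q D K0 ^ 2 * (Fintype.card V * d)) := by
    refine (Finset.sum_le_sum (fun j _ => hmid j u v ?_)).trans ?_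
    · intro x y hxy hx hy
      have h3 := Finset.mem_erase.mp hxy
      apply h3.1
      have h4 := hsel y x (by rw [Sym2.eq_swap]; exact h3.2) hy hx
      rw [Sym2.eq_swap, h4]
    · rw [Finset.sum_const, nsmul_eq_mul, Finset.card_univ, Fintype.card_fin]
      exact mul_le_mul_of_nonneg_right hLK hX
  have h3 : ∑ j : Fin L, (wM (wt Q C F) ^ (j : ℕ) * adjM (R.erase s(u, v)) *
      wM (wt Q C F) ^ (L - 1 - (j : ℕ))) u v ≤ K0 * (2 * bb Q D K0 * ((D : ℝ) + 1) ^ K0 * d +
      bb Q D K0 ^ 2 * (Fintype.card V * d)) := by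
    refine (Finset.sum_le_sum (fun j _ => hmid j v u ?_)).trans ?_
    · intro x y hxy hx hy
      have h3 := Finset.mem_erase.mp hxy
      apply h3.1
      exact hsel x y h3.2 hx hy
    · rw [Finset.sum_const, nsmul_eq_mul, Finset.card_univ, Fintype.card_fin]
      exact mul_le_mul_of_nonneg_right hLK hX
  linarith

end Pool.Agent.R184.OC
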