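import Mathlib

/-!
The `(1:q)` Waiter–Client odd cycle game on `K_n`.
-/

namespace Pool.Agent.R184.OC

open Finset Filter

/-- The board: the edges of the complete graph on `Fin n`. -/
def board (n : ℕ) : Finset (Sym2 (Fin n)) := Finset.univ.filter (fun e => ¬ e.IsDiag)

/-- The graph with edge set `C` is not bipartite (it contains an odd cycle). -/
def OddCyc {n : ℕ} (C : Finset (Sym2 (Fin n))) : Prop :=
  ¬ (SimpleGraph.fromEdgeSet (C : Set (Sym2 (Fin n)))).Colorable 2

/-- `WaiterWins last q F C`: Waiter can win the `(1:q)` Waiter–Client odd cycle game from the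
position in which the set of free edges is `F` and Client has claimed the edges in `C`.
In each full round Waiter offers a set `O` of exactly `q + 1` free edges, Client picks one of
them (any `e ∈ O`), and the other ones go to Waiter.
The flag `last` says what happens when fewer than `q + 1` free edges remain: for `last = true`
Waiter offers all of them and Client has to claim one; for `last = false` all of them go to
Waiter and the game is over. -/
inductive WaiterWins {n : ℕ} (last : Bool) (q : ℕ) :
    Finset (Sym2 (Fin n)) → Finset (Sym2 (Fin n)) → Prop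
  | finished {F C : Finset (Sym2 (Fin n))} :
      (F = ∅ ∨ (last = false ∧ F.card ≤ q)) → OddCyc C → WaiterWins last q F C
  | round {F C : Finset (Sym2 (Fin n))} (O : Finset (Sym2 (Fin n))) :
      O ⊆ F → O.card = q + 1 → (∀ e ∈ O, WaiterWins last q (F \ O) (insert e C)) →
      WaiterWins last q F C
  | lastRound {F C : Finset (Sym2 (Fin n))} :
      last = true → F.Nonempty → F.card ≤ q → (∀ e ∈ F, WaiterWins last q ∅ (insert e C)) →
      WaiterWins last q F C

/-- The threshold bias: the largest `q` for which Waiter wins. -/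
noncomputable def bwc (last : Bool) (n : ℕ) : ℕ :=
  sSup {q : ℕ | 1 ≤ q ∧ WaiterWins last q (board n) ∅}

theorem oddCyc_mono {n : ℕ} {C C' : Finset (Sym2 (Fin n))} (h : C ⊆ C') (hC : OddCyc C) :
    OddCyc C' := by
  intro hcol
  apply hC
  refine SimpleGraph.Colorable.mono_left ?_ hcol
  exact SimpleGraph.fromEdgeSet_mono (by exact_mod_cast h)

theorem waiterWins_of_oddCyc {n : ℕ} (last : Bool) (q : ℕ) :
    ∀ (m : ℕ) (F C : Finset (Sym2 (Fin n))), F.card = m → OddCyc C → WaiterWins last q F C := by
  intro m
  induction m using Nat.strong_induction_on with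
  | _ m ih =>
    intro F C hF hC
    rcases Nat.lt_or_ge q F.card with h | h
    · obtain ⟨O, hO, hOc⟩ := Finset.exists_subset_card_eq (by omega : q + 1 ≤ F.card)
      refine WaiterWins.round O hO hOc (fun e _ => ?_)
      refine ih (F \ O).card ?_ _ _ rfl (oddCyc_mono (Finset.subset_insert _ _) hC)
      rw [Finset.card_sdiff_of_subset hO]
      omega
    · cases last with
      | false => exact WaiterWins.finished (Or.inr ⟨rfl, h⟩) hC
      | true =>
        rcases Finset.eq_empty_or_nonempty F with h0 | h0
        · exact WaiterWins.finished (Or.inl h0) hC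
        · refine WaiterWins.lastRound rfl h0 h (fun e _ => ?_)
          exact WaiterWins.finished (Or.inl rfl) (oddCyc_mono (Finset.subset_insert _ _) hC)

/-- Waiter wins if he can preserve an invariant until he gets an odd cycle. -/
theorem waiterWins_of_inv {n : ℕ} (last : Bool) (q : ℕ)
    (P : Finset (Sym2 (Fin n)) → Finset (Sym2 (Fin n)) → Prop)
    (hP : ∀ F C, P F C → ∃ O ⊆ F, O.card = q + 1 ∧
      ∀ e ∈ O, OddCyc (insert e C) ∨ P (F \ O) (insert e C)) :
    ∀ (m : ℕ) (F C : Finset (Sym2 (Fin n))), F.card = m → P F C → WaiterWins last q F C := by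
  intro m
  induction m using Nat.strong_induction_on with
  | _ m ih =>
    intro F C hF hPFC
    obtain ⟨O, hO, hOc, hstep⟩ := hP F C hPFC
    refine WaiterWins.round O hO hOc (fun e he => ?_)
    rcases hstep e he with h | h
    · exact waiterWins_of_oddCyc last q _ _ _ rfl h
    · refine ih (F \ O).card ?_ _ _ rfl h
      rw [Finset.card_sdiff_of_subset hO]
      have := Finset.card_le_card hO
      omega

theorem not_oddCyc_empty {n : ℕ} : ¬ OddCyc (∅ : Finset (Sym2 (Fin n))) := by
  intro h
  apply h
  refine ⟨SimpleGraph.Coloring.mk (fun _ => 0) ?_⟩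
  intro u v huv
  simp at huv

theorem not_oddCyc_singleton {n : ℕ} (e : Sym2 (Fin n)) :
    ¬ OddCyc ({e} : Finset (Sym2 (Fin n))) := by
  intro h
  apply h
  induction e using Sym2.ind with
  | _ x y =>
    refine ⟨SimpleGraph.Coloring.mk (fun v => if v = x then (0 : Fin 2) else 1) ?_⟩
    intro u v huv
    rw [SimpleGraph.fromEdgeSet_adj] at huv
    obtain ⟨h1, h2⟩ := huv
    simp only [Finset.coe_singleton, Set.mem_singleton_iff, Sym2.eq_iff] at h1
    rcases h1 with ⟨h3, h4⟩ | ⟨h3, h4⟩
    · subst h3
      rw [if_pos rfl, if_neg (Ne.symm h2)]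
      decide
    · subst h4
      rw [if_pos rfl, if_neg h2]
      decide

theorem not_wins_empty {n q : ℕ} {last : Bool} {e : Sym2 (Fin n)}
    (h : WaiterWins last q ∅ ({e} : Finset (Sym2 (Fin n)))) : False := by
  cases h with
  | finished _ h2 => exact not_oddCyc_singleton e h2
  | round O hO hc _ =>
    have h3 := Finset.card_le_card hO
    rw [Finset.card_empty] at h3
    omega
  | lastRound _ hne' _ _ => simp at hne'

theorem not_wins_small {n q : ℕ} {last : Bool} {F C : Finset (Sym2 (Fin n))}
    (h : WaiterWins last q F C) (hF : F.card ≤ q) (hC : C = ∅) : False := by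
  cases h with
  | finished _ h => exact not_oddCyc_empty (hC ▸ h)
  | round O hO hc _ =>
    have h3 := Finset.card_le_card hO
    omega
  | lastRound _ hne _ h =>
    obtain ⟨e, he⟩ := hne
    have h1 := h e he
    subst hC
    rw [show insert e (∅ : Finset (Sym2 (Fin n))) = {e} by simp] at h1
    exact not_wins_empty h1

theorem bddAbove_wins (last : Bool) (n : ℕ) :
    BddAbove {q : ℕ | 1 ≤ q ∧ WaiterWins last q (board n) ∅} := by
  refine ⟨(board n).card, ?_⟩
  rintro q ⟨hq1, hq⟩
  by_contra hlt
  exact not_wins_small hq (by omega) rfl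

theorem le_bwc {last : Bool} {n q : ℕ} (hq : 1 ≤ q) (h : WaiterWins last q (board n) ∅) :
    q ≤ bwc last n :=
  le_csSup (bddAbove_wins last n) ⟨hq, h⟩

/-- a closed sequence of odd length in a graph prevents a 2-colouring -/
theorem oddCyc_of_seq {n : ℕ} (C : Finset (Sym2 (Fin n))) (k : ℕ) (hk : Odd (k + 1))
    (c : Fin (k + 1) → Fin n) (hc : ∀ i, s(c i, c (i + 1)) ∈ C) (hne : ∀ i, c i ≠ c (i + 1)) :
    OddCyc C := by
  rintro ⟨col⟩
  have h1 : ∀ i, col (c i) ≠ col (c (i + 1)) := by
    intro i
    apply col.valid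
    rw [SimpleGraph.fromEdgeSet_adj]
    exact ⟨by exact_mod_cast hc i, hne i⟩
  have h2 : ∀ i, (col (c (i + 1)) : Fin 2) = col (c i) + 1 := by
    intro i
    have := h1 i
    revert this
    generalize (col (c (i + 1)) : Fin 2) = a
    generalize (col (c i) : Fin 2) = b
    revert a b
    decide
  have h3 : ∑ i : Fin (k + 1), (col (c (i + 1)) : Fin 2) = ∑ i : Fin (k + 1), (col (c i) : Fin 2) :=
    Equiv.sum_comp (Equiv.addRight (1 : Fin (k + 1))) (fun i => (col (c i) : Fin 2))
  simp only [h2] at h3
  rw [Finset.sum_add_distrib] at h3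
  simp only [Finset.sum_const, Finset.card_univ, Fintype.card_fin] at h3
  have h4 : (k + 1) • (1 : Fin 2) = 0 := by
    have := h3
    rwa [add_eq_left] at this
  obtain ⟨m, hm⟩ := hk
  rw [hm] at h4
  have h5 : (2 * m + 1) • (1 : Fin 2) = 1 := by
    rw [add_smul, mul_comm, mul_smul]
    have : (2 : ℕ) • (1 : Fin 2) = 0 := by decide
    rw [this]
    simp
  rw [h5] at h4
  exact absurd h4 (by decide)

end Pool.Agent.R184.OC
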