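import Mathlib
import Pool.Agent.R184.OC.Defs

/-! Graphs without short cycles (part S2 of MP_153aba_co). -/

namespace Pool.Agent.R184.OC

open SimpleGraph

theorem exists_append_of_dart {V : Type*} {G : SimpleGraph V} {a b : V} (c : G.Walk a b)
    (d : G.Dart) (hd : d ∈ c.darts) :
    ∃ (p1 : G.Walk a d.fst) (p2 : G.Walk d.snd b), c = p1.append (Walk.cons d.adj p2) := by
  induction c with
  | nil => simp at hd
  | @cons u v w h p ih =>
    rw [Walk.darts_cons, List.mem_cons] at hd
    rcases hd with hd | hd
    · subst hd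
      exact ⟨Walk.nil, p, rfl⟩
    · obtain ⟨p1, p2, hp⟩ := ih hd
      exact ⟨Walk.cons h p1, p2, by rw [Walk.cons_append, ← hp]⟩

theorem nsc_sup_edge {V : Type*} (G : SimpleGraph V) (r : ℕ) (u v : V) (_huv : u ≠ v)
    (h : NSC G r) (hfar : ∀ p : G.Walk u v, r < p.length) :
    NSC (G ⊔ SimpleGraph.edge u v) r := by
  intro a c hc
  have hGe : ∀ e ∈ (G ⊔ SimpleGraph.edge u v).edgeSet, e ≠ s(u, v) → e ∈ G.edgeSet := by
    intro e he hne
    induction e with
    | _ x y =>
      rw [mem_edgeSet, sup_adj, adj_edge] at he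
      rcases he with he | he
      · exact he
      · exact absurd he.1.symm hne
  by_cases huvc : s(u, v) ∈ c.edges
  · -- the rest of the cycle
    have hex : ∃ d ∈ c.darts, d.edge = s(u, v) := by
      rw [Walk.edges, List.mem_map] at huvc
      exact huvc
    obtain ⟨d, hd, hde⟩ := hex
    obtain ⟨p1, p2, hp⟩ := exists_append_of_dart c d hd
    have hnodup : c.edges.Nodup := hc.isTrail.edges_nodup
    have hedges : c.edges = p1.edges ++ (s(d.fst, d.snd) :: p2.edges) := by
      rw [hp, Walk.edges_append, Walk.edges_cons]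
    have hde' : s(d.fst, d.snd) = s(u, v) := hde
    rw [hedges, hde'] at hnodup
    have hn1 : s(u, v) ∉ p1.edges := fun hmem =>
      (List.nodup_append.1 hnodup).2.2 _ hmem _ List.mem_cons_self rfl
    have hn2 : s(u, v) ∉ p2.edges :=
      (List.nodup_cons.1 (List.nodup_append.1 hnodup).2.1).1
    set q := p2.append p1 with hq
    have hqe : ∀ e ∈ q.edges, e ∈ G.edgeSet := by
      intro e he
      refine hGe e (q.edges_subset_edgeSet he) ?_
      rintro rfl
      rw [hq, Walk.edges_append, List.mem_append] at he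
      rcases he with he | he
      · exact hn2 he
      · exact hn1 he
    have hlen : c.length = q.length + 1 := by
      rw [hp, hq, Walk.length_append, Walk.length_cons, Walk.length_append]
      ring
    have hq' := q.transfer G hqe
    have hlt : r < q.length := by
      rcases Sym2.eq_iff.1 hde' with ⟨h1, h2⟩ | ⟨h1, h2⟩
      · have := hfar (((q.transfer G hqe).reverse).copy h1 h2)
        rwa [Walk.length_copy, Walk.length_reverse, Walk.length_transfer] at this
      · have := hfar ((q.transfer G hqe).copy h2 h1)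
        rwa [Walk.length_copy, Walk.length_transfer] at this
    omega
  · have hce : ∀ e ∈ c.edges, e ∈ G.edgeSet := fun e he =>
      hGe e (c.edges_subset_edgeSet he) (by rintro rfl; exact huvc he)
    have := h a (c.transfer G hce) (hc.transfer hce)
    rwa [Walk.length_transfer] at this

theorem nsc_path_unique {V : Type*} (G : SimpleGraph V) (k : ℕ) (h : NSC G (2 * k)) {a b : V}
    (p p' : G.Walk a b) (hp : p.IsPath) (hp' : p'.IsPath) (hl : p.length ≤ k)
    (hl' : p'.length ≤ k) : p.support = p'.support := by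
  classical
  set H : SimpleGraph V := fromEdgeSet {e | e ∈ p.edges ∨ e ∈ p'.edges} with hH
  have hHe : ∀ e, e ∈ H.edgeSet ↔ (e ∈ p.edges ∨ e ∈ p'.edges) := by
    intro e
    rw [hH, edgeSet_fromEdgeSet, Set.mem_sdiff, Set.mem_setOf_eq]
    constructor
    · exact fun h => h.1
    · intro h
      refine ⟨h, ?_⟩
      intro hd
      rcases h with h | h
      · exact (G.not_isDiag_of_mem_edgeSet (p.edges_subset_edgeSet h)) hd
      · exact (G.not_isDiag_of_mem_edgeSet (p'.edges_subset_edgeSet h)) hd
  have hacyc : H.IsAcyclic := by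
    intro x c hc
    have hsub : ∀ e ∈ c.edges, e ∈ p.edges ++ p'.edges := fun e he =>
      List.mem_append.2 ((hHe e).1 (c.edges_subset_edgeSet he))
    have hcG : ∀ e ∈ c.edges, e ∈ G.edgeSet := by
      intro e he
      rcases List.mem_append.1 (hsub e he) with h1 | h1
      · exact p.edges_subset_edgeSet h1
      · exact p'.edges_subset_edgeSet h1
    have h1 := h x (c.transfer G hcG) (hc.transfer hcG)
    rw [Walk.length_transfer] at h1
    have h2 : c.edges.length ≤ (p.edges ++ p'.edges).length :=
      (List.subperm_of_subset hc.isTrail.edges_nodup hsub).length_le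
    rw [List.length_append, Walk.length_edges, Walk.length_edges, Walk.length_edges] at h2
    omega
  have hpH : ∀ e ∈ p.edges, e ∈ H.edgeSet := fun e he => (hHe e).2 (Or.inl he)
  have hpH' : ∀ e ∈ p'.edges, e ∈ H.edgeSet := fun e he => (hHe e).2 (Or.inr he)
  have heq := hacyc.path_unique ⟨p.transfer H hpH, hp.transfer hpH⟩
    ⟨p'.transfer H hpH', hp'.transfer hpH'⟩
  have h3 : p.transfer H hpH = p'.transfer H hpH' := congrArg Subtype.val heq
  rw [← Walk.support_transfer p hpH, h3, Walk.support_transfer]

theorem exists_walk_ofFn {V : Type*} (G : SimpleGraph V) : ∀ {L : ℕ} (c : Fin (L + 1) → V)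
    (_ : ∀ i : Fin L, G.Adj (c i.castSucc) (c i.succ)),
    ∃ p : G.Walk (c 0) (c (Fin.last L)), p.support = List.ofFn c ∧ p.length = L := by
  intro L
  induction L with
  | zero =>
    intro c _
    exact ⟨Walk.nil, by simp, rfl⟩
  | succ L ih =>
    intro c hadj
    obtain ⟨p, hp, hl⟩ := ih (fun i => c i.succ) (fun i => by
      have := hadj i.succ
      rwa [← Fin.succ_castSucc] at this)
    have h0 : G.Adj (c 0) (c (Fin.succ 0)) := by
      have := hadj 0
      simpa using this
    refine ⟨Walk.cons h0 (p.copy rfl (by rw [Fin.succ_last])), ?_, ?_⟩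
    · rw [Walk.support_cons, Walk.support_copy, hp, List.ofFn_succ (f := c)]
    · rw [Walk.length_cons, Walk.length_copy, hl]

theorem nsc_seq_unique {V : Type*} (G : SimpleGraph V) (k : ℕ) (h : NSC G (2 * k)) {L L' : ℕ}
    (hL : L ≤ k) (hL' : L' ≤ k) (c : Fin (L + 1) → V) (c' : Fin (L' + 1) → V)
    (hc : Function.Injective c) (hc' : Function.Injective c')
    (hadj : ∀ i : Fin L, G.Adj (c i.castSucc) (c i.succ))
    (hadj' : ∀ i : Fin L', G.Adj (c' i.castSucc) (c' i.succ))
    (h0 : c 0 = c' 0) (h1 : c (Fin.last L) = c' (Fin.last L')) :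
    List.ofFn c = List.ofFn c' := by
  obtain ⟨p, hp, hl⟩ := exists_walk_ofFn G c hadj
  obtain ⟨p', hp', hl'⟩ := exists_walk_ofFn G c' hadj'
  have hpp : p.IsPath := by
    rw [Walk.isPath_def, hp]
    exact List.nodup_ofFn.2 hc
  have hpp' : (p'.copy h0.symm h1.symm).IsPath := by
    rw [Walk.isPath_def, Walk.support_copy, hp']
    exact List.nodup_ofFn.2 hc'
  have h2 := nsc_path_unique G k h p (p'.copy h0.symm h1.symm) hpp hpp' (by rw [hl]; exact hL)
    (by rw [Walk.length_copy, hl']; exact hL')
  rw [Walk.support_copy, hp, hp'] at h2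
  exact h2

end Pool.Agent.R184.OC
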