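import Mathlib
import Pool.Agent.R184.OC.Defs
import Pool.Agent.R184.OC.Mats
import Pool.Agent.R184.OC.Walks
import Pool.Agent.R184.OC.Cyc
import Pool.Agent.R184.OC.Graph
import Pool.Agent.R184.OC.Game

namespace Pool.Agent.R184.OC

open Finset Matrix

section Gen

variable {V : Type*} [Fintype V] [DecidableEq V]

theorem sum_pos_cyc {L : ℕ} (w : Sym2 V → ℝ) (P : Sym2 V → Prop) [DecidablePred P] :
    ∑ c : CycIdx V L, ∑ j, (if P (gc c j) then ∏ i ∈ Finset.univ.erase j, w (gc c i) else 0) =
      (L + 1 : ℕ) * ∑ d : CycIdx V L,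
      if P s(d.1 (Fin.last L), d.1 0) then pathW w d.1 else 0 := by
  rw [← rot_sum_cyc (fun d : Fin (L + 1) → V =>
    if P s(d (Fin.last L), d 0) then pathW w d else 0)]
  apply Finset.sum_congr rfl
  intro c _
  apply Finset.sum_congr rfl
  intro j _
  simp only [rot_last, rot_zero]
  unfold gc
  rw [erase_eq_map, Finset.prod_map]
  simp only [cycE_phi]
  rfl

theorem PS_cyc_le {Q : ℝ} (hQ : 0 < Q) (C F : Finset (Sym2 V)) {L : ℕ}
    (hno : ∀ d : CycIdx V L, ¬ ∀ j, gc d j ∈ C) :
    PS (gc (V := V) (L := L)) (wt Q C F) ≤ Q⁻¹ * ((L + 1 : ℕ) * ∑ d : CycIdx V L,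
      if s(d.1 (Fin.last L), d.1 0) ∈ F then pathW (wt Q C F) d.1 else 0) := by
  have hw := wt_nonneg hQ C F
  rw [← sum_pos_cyc (wt Q C F) (fun e => e ∈ F), Finset.mul_sum]
  unfold PS
  apply Finset.sum_le_sum
  intro c _
  have hnn : ∀ j, (0 : ℝ) ≤ if gc c j ∈ F then
      ∏ i ∈ Finset.univ.erase j, wt Q C F (gc c i) else 0 := by
    intro j
    split_ifs
    · exact Finset.prod_nonneg (fun _ _ => hw _)
    · exact le_rfl
  obtain ⟨j, hj⟩ := not_forall.mp (hno c)
  rw [← Finset.mul_prod_erase Finset.univ _ (Finset.mem_univ j)]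
  by_cases hF : gc c j ∈ F
  · have h1 : wt Q C F (gc c j) = Q⁻¹ := by
      unfold wt
      rw [if_neg hj, if_pos hF]
    rw [h1]
    apply mul_le_mul_of_nonneg_left _ (inv_pos.mpr hQ).le
    have h2 := Finset.single_le_sum (f := fun j => if gc c j ∈ F then
      ∏ i ∈ Finset.univ.erase j, wt Q C F (gc c i) else 0) (fun j _ => hnn j) (Finset.mem_univ j)
    simp only [if_pos hF] at h2
    exact h2
  · have h1 : wt Q C F (gc c j) = 0 := by
      unfold wt
      rw [if_neg hj, if_neg hF]
    rw [h1, zero_mul]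
    exact mul_nonneg (inv_pos.mpr hQ).le (Finset.sum_nonneg (fun j _ => hnn j))

/-- all edges of the path are in `C` -/
def InC {L : ℕ} (C : Finset (Sym2 V)) (d : Fin (L + 1) → V) : Prop :=
  ∀ i : Fin L, s(d i.castSucc, d i.succ) ∈ C

instance {L : ℕ} (C : Finset (Sym2 V)) (d : Fin (L + 1) → V) : Decidable (InC C d) := by
  unfold InC
  infer_instance

theorem path_defect {Q : ℝ} {D : ℕ} {C : Finset (Sym2 V)} (h : Pos Q D C) (F : Finset (Sym2 V))
    {L K0 : ℕ} (hL : L ≤ K0) (v u : V) :
    (∑ d : Fin (L + 1) → V, if d 0 = v ∧ d (Fin.last L) = u then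
      (if InC C d then 0 else pathW (wt Q C F) d) else 0) ≤ bb Q D K0 := by
  have hQ := (inv_pos.mpr h.hQ0).le
  set m : Matrix V V ℝ := adjM C + (Matrix.of (fun _ _ => Q⁻¹) : Matrix V V ℝ) with hm
  have h1 := seq_sum L (fun _ => m) v u
  have h2 := seq_sum L (fun _ => adjM C) v u
  rw [List.ofFn_const, List.prod_replicate] at h1 h2
  have h3 := pow_bound (adjM C) (adjM_nonneg C) D Q (Nat.cast_nonneg D) h.row h.col h.hQ0 h.hQ L v u
  have h4 := bb_mono h.hQ0 D hL
  rw [← hm, ← h1, ← h2] at h3
  have h5 : (∑ d : Fin (L + 1) → V, if d 0 = v ∧ d (Fin.last L) = u then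
      (if InC C d then 0 else pathW (wt Q C F) d) else 0) +
      (∑ c : Fin (L + 1) → V, if c 0 = v ∧ c (Fin.last L) = u then
        ∏ i : Fin L, adjM C (c i.castSucc) (c i.succ) else 0) ≤
      (∑ c : Fin (L + 1) → V, if c 0 = v ∧ c (Fin.last L) = u then
        ∏ i : Fin L, m (c i.castSucc) (c i.succ) else 0) := by
    rw [← Finset.sum_add_distrib]
    apply Finset.sum_le_sum
    intro d _
    by_cases hd : d 0 = v ∧ d (Fin.last L) = u
    · rw [if_pos hd, if_pos hd, if_pos hd]
      by_cases hC : InC C d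
      · rw [if_pos hC, zero_add]
        apply Finset.prod_le_prod
        · intro i _
          exact adjM_nonneg C _ _
        · intro i _
          rw [hm, Matrix.add_apply, Matrix.of_apply]
          linarith
      · rw [if_neg hC]
        have h6 : ∏ i : Fin L, adjM C (d i.castSucc) (d i.succ) = 0 := by
          unfold InC at hC
          push Not at hC
          obtain ⟨i, hi⟩ := hC
          apply Finset.prod_eq_zero (Finset.mem_univ i)
          unfold adjM
          rw [Matrix.of_apply, if_neg hi]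
        rw [h6, add_zero]
        unfold pathW
        apply Finset.prod_le_prod
        · intro i _
          exact wt_nonneg h.hQ0 C F _
        · intro i _
          exact wM_wt_le h.hQ0 C F _ _
    · rw [if_neg hd, if_neg hd, if_neg hd, add_zero]
  linarith

theorem closing_sum_le {Q : ℝ} {D : ℕ} {C : Finset (Sym2 V)} (h : Pos Q D C)
    (F : Finset (Sym2 V)) {L K0 : ℕ} (hL : L ≤ K0) :
    (∑ d : CycIdx V L, if s(d.1 (Fin.last L), d.1 0) ∈ F then pathW (wt Q C F) d.1 else 0) ≤
      ((Finset.univ.filter (fun d : CycIdx V L =>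
        s(d.1 (Fin.last L), d.1 0) ∈ F ∧ InC C d.1)).card : ℝ) + F.card * (2 * bb Q D K0) := by
  have hw := wt_nonneg h.hQ0 C F
  have h1 : ∀ d : CycIdx V L,
      (if s(d.1 (Fin.last L), d.1 0) ∈ F then pathW (wt Q C F) d.1 else 0) =
      (if s(d.1 (Fin.last L), d.1 0) ∈ F ∧ InC C d.1 then 1 else 0) +
      ∑ f ∈ F, (if s(d.1 (Fin.last L), d.1 0) = f then
        (if InC C d.1 then 0 else pathW (wt Q C F) d.1) else 0) := by
    intro d
    rw [Finset.sum_ite_eq F]
    by_cases hF : s(d.1 (Fin.last L), d.1 0) ∈ F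
    · by_cases hC : InC C d.1
      · simp only [hF, hC, and_self, if_true, add_zero]
        unfold pathW
        apply Finset.prod_eq_one
        intro i _
        unfold wt
        rw [if_pos (hC i)]
      · simp only [hF, hC, and_false, if_true, if_false, zero_add]
    · simp only [hF, false_and, if_false, add_zero]
  rw [Finset.sum_congr rfl (fun d _ => h1 d), Finset.sum_add_distrib]
  apply add_le_add
  · rw [Finset.sum_boole]
  · rw [Finset.sum_comm, ← nsmul_eq_mul, ← Finset.sum_const]
    apply Finset.sum_le_sum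
    intro f _
    induction f using Sym2.ind with
    | _ u v =>
      refine (closing_le (fun d => if InC C d then 0 else pathW (wt Q C F) d) ?_ u v).trans ?_
      · intro d
        split_ifs
        · exact le_rfl
        · exact pathW_nonneg hw _
      · have h2 := path_defect h F hL v u
        have h3 := path_defect h F hL u v
        linarith

end Gen

section Fin

variable {n : ℕ}

/-- Client's graph -/
abbrev GC (C : Finset (Sym2 (Fin n))) : SimpleGraph (Fin n) :=
  SimpleGraph.fromEdgeSet (C : Set (Sym2 (Fin n)))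

theorem inC_unique {C : Finset (Sym2 (Fin n))} {K0 : ℕ} (hC : NSC (GC C) (2 * K0)) {L L' : ℕ}
    (hL : L ≤ K0) (hL' : L' ≤ K0) (d : CycIdx (Fin n) L) (d' : CycIdx (Fin n) L')
    (hd : InC C d.1) (hd' : InC C d'.1) (h0 : d.1 0 = d'.1 0)
    (h1 : d.1 (Fin.last L) = d'.1 (Fin.last L')) : List.ofFn d.1 = List.ofFn d'.1 := by
  apply nsc_seq_unique (GC C) K0 hC hL hL' d.1 d'.1 d.2 d'.2 _ _ h0 h1
  · intro i
    rw [SimpleGraph.fromEdgeSet_adj]
    refine ⟨by exact_mod_cast hd i, fun h => ?_⟩
    exact (Fin.castSucc_lt_succ (i := i)).ne (d.2 h)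
  · intro i
    rw [SimpleGraph.fromEdgeSet_adj]
    refine ⟨by exact_mod_cast hd' i, fun h => ?_⟩
    exact (Fin.castSucc_lt_succ (i := i)).ne (d'.2 h)

theorem no_closed {C : Finset (Sym2 (Fin n))} {K0 : ℕ} (hC : NSC (GC C) (2 * K0)) {L : ℕ}
    (hL2 : 2 ≤ L) (hL : L ≤ K0) (d : CycIdx (Fin n) L) : ¬ ∀ j, gc d j ∈ C := by
  intro h
  have hd : InC C d.1 := by
    intro i
    have := h i.castSucc
    unfold gc at this
    rwa [cycE_castSucc] at this
  have hlast : s(d.1 (Fin.last L), d.1 0) ∈ C := by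
    have := h (Fin.last L)
    unfold gc at this
    rwa [cycE_last] at this
  have hne : d.1 0 ≠ d.1 (Fin.last L) := by
    intro h0
    have h1 := d.2 h0
    have h2 := congrArg Fin.val h1
    simp at h2
    omega
  let e : CycIdx (Fin n) 1 := ⟨![d.1 0, d.1 (Fin.last L)], by
    intro a b hab
    fin_cases a <;> fin_cases b <;> simp_all⟩
  have he : InC C e.1 := by
    intro i
    fin_cases i
    change s(d.1 0, d.1 (Fin.last L)) ∈ C
    rw [Sym2.eq_swap]
    exact hlast
  have h1 := inC_unique hC hL (by omega : 1 ≤ K0) d e hd he rfl rfl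
  have h2 := congrArg List.length h1
  rw [List.length_ofFn, List.length_ofFn] at h2
  omega

/-- the free edges that complete an odd cycle of length at most `2J+1` -/
noncomputable def closers (J : ℕ) (C F : Finset (Sym2 (Fin n))) : Finset (Sym2 (Fin n)) := by
  classical
  exact F.filter (fun e => ∃ j < J, ∃ d : CycIdx (Fin n) (2 * j + 2),
    s(d.1 (Fin.last _), d.1 0) = e ∧ InC C d.1)

theorem mem_closers {J : ℕ} {C F : Finset (Sym2 (Fin n))} {e : Sym2 (Fin n)} :
    e ∈ closers J C F ↔ e ∈ F ∧ ∃ j < J, ∃ d : CycIdx (Fin n) (2 * j + 2),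
      s(d.1 (Fin.last _), d.1 0) = e ∧ InC C d.1 := by
  unfold closers
  rw [Finset.mem_filter]

theorem closers_oddCyc {J : ℕ} {C F : Finset (Sym2 (Fin n))} {e : Sym2 (Fin n)}
    (he : e ∈ closers J C F) : OddCyc (insert e C) := by
  rw [mem_closers] at he
  obtain ⟨_, j, _, d, hd, hC⟩ := he
  apply oddCyc_of_seq (insert e C) (2 * j + 2) ⟨j + 1, by ring⟩ d.1
  · intro i
    rcases Fin.eq_castSucc_or_eq_last i with ⟨i', rfl⟩ | rfl
    · rw [Fin.coeSucc_eq_succ]
      exact Finset.mem_insert_of_mem (hC i')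
    · rw [Fin.last_add_one, hd]
      exact Finset.mem_insert_self _ _
  · intro i h
    have h1 := d.2 h
    have h2 : (1 : Fin (2 * j + 2 + 1)) = 0 := by
      have : i + 1 = i + 0 := by rw [← h1, add_zero]
      exact add_left_cancel this
    have h3 := congrArg Fin.val h2
    simp at h3

theorem sum_closing_le {C F : Finset (Sym2 (Fin n))} (J : ℕ) (hC : NSC (GC C) (2 * (2 * J))) :
    ∑ j ∈ Finset.range J, (Finset.univ.filter (fun d : CycIdx (Fin n) (2 * j + 2) =>
      s(d.1 (Fin.last _), d.1 0) ∈ F ∧ InC C d.1)).card ≤ 2 * (closers J C F).card := by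
  classical
  rw [← Finset.card_sigma]
  let P : Finset (Fin n × Fin n) := Finset.univ.filter (fun p => s(p.1, p.2) ∈ closers J C F)
  have h1 : P.card ≤ 2 * (closers J C F).card := by
    have h2 : P.card ≤ 2 * (P.image (fun p => s(p.1, p.2))).card := by
      apply Finset.card_le_mul_card_image
      intro e _
      induction e using Sym2.ind with
      | _ a b =>
        have h3 : P.filter (fun p => s(p.1, p.2) = s(a, b)) ⊆ {(a, b), (b, a)} := by
          intro p hp
          rw [Finset.mem_filter, Sym2.eq_iff] at hp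
          rw [Finset.mem_insert, Finset.mem_singleton]
          rcases hp.2 with ⟨h4, h5⟩ | ⟨h4, h5⟩
          · left
            exact Prod.ext h4 h5
          · right
            exact Prod.ext h4 h5
        exact (Finset.card_le_card h3).trans Finset.card_le_two
    refine h2.trans (Nat.mul_le_mul_left 2 (Finset.card_le_card ?_))
    intro e he
    rw [Finset.mem_image] at he
    obtain ⟨p, hp, rfl⟩ := he
    exact (Finset.mem_filter.mp hp).2
  refine le_trans ?_ h1
  apply Finset.card_le_card_of_injOn (fun x => (x.2.1 0, x.2.1 (Fin.last _)))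
  · rintro ⟨j, d⟩ hx
    simp only [Finset.coe_sigma, Set.mem_sigma_iff, Finset.mem_coe, Finset.mem_range,
      Finset.mem_filter, Finset.mem_univ, true_and] at hx
    simp only [P, Finset.coe_filter, Finset.mem_univ, true_and, Set.mem_setOf_eq]
    rw [mem_closers]
    refine ⟨by rw [Sym2.eq_swap]; exact hx.2.1, j, hx.1, d, Sym2.eq_swap, hx.2.2⟩
  · rintro ⟨j, d⟩ hx ⟨j', d'⟩ hx' heq
    simp only [Finset.coe_sigma, Set.mem_sigma_iff, Finset.mem_coe, Finset.mem_range,
      Finset.mem_filter, Finset.mem_univ, true_and] at hx hx'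
    simp only [Prod.mk.injEq] at heq
    have h4 := inC_unique hC (by omega : 2 * j + 2 ≤ 2 * J) (by omega : 2 * j' + 2 ≤ 2 * J) d d'
      hx.2.2 hx'.2.2 heq.1 heq.2
    have h5 := congrArg List.length h4
    rw [List.length_ofFn, List.length_ofFn] at h5
    obtain rfl : j = j' := by omega
    have h6 := List.ofFn_injective h4
    have h7 : d = d' := Subtype.ext h6
    rw [h7]

end Fin

end Pool.Agent.R184.OC
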