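import Pool.Agent.R184.OC.Round

/-!
Waiter–Client odd cycle game (MP_153aba): star sums.
-/

set_option autoImplicit false

namespace Pool.Agent.R184.OC

open Finset

section T2
variable {V : Type*} [Fintype V] [DecidableEq V]

/-- a centre and `D` distinct leaves -/
abbrev StIdx (V : Type*) (D : ℕ) : Type _ :=
  {p : V × (Fin D → V) // Function.Injective p.2 ∧ ∀ i, p.2 i ≠ p.1}

/-- the edges of a star -/
def gs {V : Type*} {D : ℕ} (p : StIdx V D) (j : Fin D) : Sym2 V := s(p.1.1, p.1.2 j)

theorem gs_injective {V : Type*} {D : ℕ} (p : StIdx V D) : Function.Injective (gs p) := by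
  intro i j h
  exact p.2.1 (Sym2.congr_right.1 h)

/-- a nonnegative sum over the stars is at most the sum over all sequences -/
theorem sum_star_le {D : ℕ} (F : V → (Fin D → V) → ℝ) (hF : ∀ v t, 0 ≤ F v t) :
    ∑ c : StIdx V D, F c.1.1 c.1.2 ≤ ∑ v, ∑ t, F v t := by
  rw [← Fintype.sum_prod_type' (f := fun v t => F v t)]
  have h1 : ∑ c : StIdx V D, F c.1.1 c.1.2 =
      ∑ p ∈ (Finset.univ : Finset (StIdx V D)).map ⟨Subtype.val, Subtype.val_injective⟩,
        F p.1 p.2 := by
    rw [Finset.sum_map]; rfl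
  rw [h1]
  exact Finset.sum_le_univ_sum_of_nonneg fun p => hF p.1 p.2

theorem star_single (D : ℕ) (w : Sym2 V → ℝ) (hw : ∀ e, 0 ≤ w e) (r : ℝ)
    (hr : ∀ v, ∑ x, w s(v, x) ≤ r) (a b : V) (j : Fin D) :
    ∑ t : Fin D → V, (if t j = b then ∏ i ∈ univ.erase j, w s(a, t i) else 0) ≤ r ^ (D - 1) := by
  set φ : Fin D → V → ℝ := fun i x => if i = j then (if x = b then 1 else 0) else w s(a, x) with hφ
  have h1 : ∀ t : Fin D → V, (if t j = b then ∏ i ∈ univ.erase j, w s(a, t i) else 0) =
      ∏ i, φ i (t i) := by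
    intro t
    rw [← Finset.mul_prod_erase univ (fun i => φ i (t i)) (Finset.mem_univ j)]
    have h2 : ∏ i ∈ univ.erase j, φ i (t i) = ∏ i ∈ univ.erase j, w s(a, t i) :=
      Finset.prod_congr rfl fun i hi => by
        rw [hφ]; simp only [if_neg (Finset.ne_of_mem_erase hi)]
    rw [h2]
    have h3 : φ j (t j) = if t j = b then 1 else 0 := by rw [hφ]; simp
    rw [h3]
    split_ifs <;> simp
  rw [Finset.sum_congr rfl fun t _ => h1 t, ← Fintype.prod_sum]
  rw [← Finset.mul_prod_erase univ _ (Finset.mem_univ j)]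
  have h4 : ∑ x, φ j x = 1 := by rw [hφ]; simp
  rw [h4, one_mul]
  calc ∏ i ∈ univ.erase j, ∑ x, φ i x ≤ ∏ _i ∈ univ.erase j, r := by
        apply Finset.prod_le_prod
        · intro i hi
          apply Finset.sum_nonneg
          intro x _
          rw [hφ]; simp only [if_neg (Finset.ne_of_mem_erase hi)]; exact hw _
        · intro i hi
          rw [hφ]; simp only [if_neg (Finset.ne_of_mem_erase hi)]; exact hr a
    _ = r ^ (D - 1) := by
        rw [Finset.prod_const, Finset.card_erase_of_mem (Finset.mem_univ j), Finset.card_univ,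
          Fintype.card_fin]


theorem star_double (D : ℕ) (w : Sym2 V → ℝ) (hw : ∀ e, 0 ≤ w e) (r : ℝ)
    (hr : ∀ v, ∑ x, w s(v, x) ≤ r) (R : Finset (Sym2 V)) (d : ℕ)
    (hd : ∀ v, (R.filter (fun e => v ∈ e)).card ≤ d) 
    (a b : V) (j j' : Fin D) (hjj : j' ≠ j) :
    ∑ t : Fin D → V, (if t j = b then
      (if s(a, t j') ∈ R then ∏ i ∈ (univ.erase j).erase j', w s(a, t i) else 0) else 0) ≤
      d * r ^ (D - 2) := by
  set φ : Fin D → V → ℝ := fun i x => if i = j then (if x = b then 1 else 0) else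
    if i = j' then (if s(a, x) ∈ R then 1 else 0) else w s(a, x) with hφ
  have hj' : j' ∈ (univ : Finset (Fin D)).erase j := Finset.mem_erase.2 ⟨hjj, Finset.mem_univ _⟩
  have hφr : ∀ i ∈ (univ.erase j).erase j', ∀ x, φ i x = w s(a, x) := by
    intro i hi x
    have h1 : i ≠ j' := Finset.ne_of_mem_erase hi
    have h2 : i ≠ j := Finset.ne_of_mem_erase (Finset.mem_of_mem_erase hi)
    rw [hφ]; simp only [if_neg h1, if_neg h2]
  have h1 : ∀ t : Fin D → V, (if t j = b then
      (if s(a, t j') ∈ R then ∏ i ∈ (univ.erase j).erase j', w s(a, t i) else 0) else 0) =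
      ∏ i, φ i (t i) := by
    intro t
    rw [← Finset.mul_prod_erase univ (fun i => φ i (t i)) (Finset.mem_univ j),
      ← Finset.mul_prod_erase _ (fun i => φ i (t i)) hj']
    have h2 : ∏ i ∈ (univ.erase j).erase j', φ i (t i) =
        ∏ i ∈ (univ.erase j).erase j', w s(a, t i) :=
      Finset.prod_congr rfl fun i hi => hφr i hi _
    rw [h2]
    have h3 : φ j (t j) = if t j = b then 1 else 0 := by rw [hφ]; simp
    have h4 : φ j' (t j') = if s(a, t j') ∈ R then 1 else 0 := by
      rw [hφ]; simp only [if_neg hjj, if_true]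
    rw [h3, h4]
    split_ifs <;> simp
  rw [Finset.sum_congr rfl fun t _ => h1 t, ← Fintype.prod_sum]
  rw [← Finset.mul_prod_erase univ _ (Finset.mem_univ j), ← Finset.mul_prod_erase _ _ hj']
  have h4 : ∑ x, φ j x = 1 := by rw [hφ]; simp
  have h5 : ∑ x, φ j' x ≤ d := by
    have e1 : ∑ x, φ j' x = ((univ.filter fun x => s(a, x) ∈ R).card : ℝ) := by
      rw [hφ]; simp only [if_neg hjj, if_true]
      rw [Finset.sum_boole]
    rw [e1]
    have e2 : (univ.filter fun x => s(a, x) ∈ R).card ≤ (R.filter (fun e => a ∈ e)).card := by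
      apply Finset.card_le_card_of_injOn (fun x => s(a, x))
      · intro x hx
        have hx' := (Finset.mem_filter.1 hx).2
        exact Finset.mem_filter.2 ⟨hx', Sym2.mem_mk_left a x⟩
      · intro x _ y _ h
        exact Sym2.congr_right.1 h
    exact_mod_cast e2.trans (hd a)
  have h6 : ∏ i ∈ (univ.erase j).erase j', ∑ x, φ i x ≤ r ^ (D - 2) := by
    calc ∏ i ∈ (univ.erase j).erase j', ∑ x, φ i x ≤
        ∏ _i ∈ ((univ : Finset (Fin D)).erase j).erase j', r := by
          apply Finset.prod_le_prod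
          · intro i hi
            apply Finset.sum_nonneg
            intro x _
            rw [hφr i hi x]; exact hw _
          · intro i hi
            rw [Finset.sum_congr rfl fun x _ => hφr i hi x]; exact hr a
      _ = r ^ (D - 2) := by
          rw [Finset.prod_const, Finset.card_erase_of_mem hj',
            Finset.card_erase_of_mem (Finset.mem_univ j), Finset.card_univ,
            Fintype.card_fin]
          congr 1
  have h7 : 0 ≤ ∏ i ∈ (univ.erase j).erase j', ∑ x, φ i x := by
    apply Finset.prod_nonneg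
    intro i hi
    apply Finset.sum_nonneg
    intro x _
    rw [hφr i hi x]; exact hw _
  rw [h4, one_mul]
  exact mul_le_mul h5 h6 h7 (Nat.cast_nonneg d)

omit [Fintype V] [DecidableEq V] in
theorem gs_eq_iff {D : ℕ} (v : V) (t : Fin D → V) (j : Fin D) (a b : V) :
    s(v, t j) = s(a, b) ↔ (v = a ∧ t j = b) ∨ (v = b ∧ t j = a) := by
  rw [Sym2.eq_iff]

/-- splitting the sum over all sequences according to the two orientations of `s(a,b)` -/
theorem split_sum {D : ℕ} (G : V → (Fin D → V) → ℝ) (hG : ∀ v t, 0 ≤ G v t) (j : Fin D)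
    (a b : V) (B : ℝ)
    (h1 : ∑ t, (if t j = b then G a t else 0) ≤ B)
    (h2 : ∑ t, (if t j = a then G b t else 0) ≤ B) :
    ∑ v, ∑ t : Fin D → V, (if s(v, t j) = s(a, b) then G v t else 0) ≤ 2 * B := by
  have h3 : ∀ v t, (if s(v, t j) = s(a, b) then G v t else 0) ≤
      (if v = a then (if t j = b then G a t else 0) else 0) +
      (if v = b then (if t j = a then G b t else 0) else 0) := by
    intro v t
    have hG1 : 0 ≤ (if v = a then (if t j = b then G a t else 0) else 0) := by
      split_ifs <;> first | exact hG _ _ | exact le_rfl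
    have hG2 : 0 ≤ (if v = b then (if t j = a then G b t else 0) else 0) := by
      split_ifs <;> first | exact hG _ _ | exact le_rfl
    by_cases h : s(v, t j) = s(a, b)
    · rw [if_pos h]
      rcases (gs_eq_iff v t j a b).1 h with ⟨hv, ht⟩ | ⟨hv, ht⟩
      · have e : (if v = a then (if t j = b then G a t else 0) else 0) = G v t := by
          rw [if_pos hv, if_pos ht, hv]
        rw [e]
        exact le_add_of_nonneg_right hG2
      · have e : (if v = b then (if t j = a then G b t else 0) else 0) = G v t := by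
          rw [if_pos hv, if_pos ht, hv]
        rw [e]
        exact le_add_of_nonneg_left hG1
    · rw [if_neg h]
      exact add_nonneg hG1 hG2
  calc ∑ v, ∑ t : Fin D → V, (if s(v, t j) = s(a, b) then G v t else 0)
      ≤ ∑ v, ∑ t : Fin D → V, ((if v = a then (if t j = b then G a t else 0) else 0) +
      (if v = b then (if t j = a then G b t else 0) else 0)) :=
        Finset.sum_le_sum fun v _ => Finset.sum_le_sum fun t _ => h3 v t
    _ = ∑ t, (if t j = b then G a t else 0) + ∑ t, (if t j = a then G b t else 0) := by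
        simp only [Finset.sum_add_distrib]
        congr 1
        · rw [Finset.sum_comm]
          refine Finset.sum_congr rfl fun t _ => ?_
          rw [Finset.sum_ite_eq' univ a]; simp
        · rw [Finset.sum_comm]
          refine Finset.sum_congr rfl fun t _ => ?_
          rw [Finset.sum_ite_eq' univ b]; simp
    _ ≤ 2 * B := by linarith

theorem Dv_star_le (D : ℕ) (w : Sym2 V → ℝ) (hw : ∀ e, 0 ≤ w e) (r : ℝ)
    (hr : ∀ v, ∑ x, w s(v, x) ≤ r) (f : Sym2 V) :
    Dv (gs (V := V) (D := D)) w f ≤ 2 * D * r ^ (D - 1) := by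
  induction f using Sym2.ind with
  | _ a b =>
  unfold Dv
  rw [Finset.sum_comm]
  have h1 : ∀ j : Fin D, ∑ c : StIdx V D, (if gs c j = s(a, b) then
      ∏ i ∈ univ.erase j, w (gs c i) else 0) ≤ 2 * r ^ (D - 1) := by
    intro j
    have h2 := sum_star_le (V := V) (D := D)
      (fun v t => if s(v, t j) = s(a, b) then ∏ i ∈ univ.erase j, w s(v, t i) else 0)
      (fun v t => by
        split_ifs
        · exact Finset.prod_nonneg fun i _ => hw _
        · exact le_rfl)
    refine le_trans h2 ?_
    exact split_sum (fun v t => ∏ i ∈ univ.erase j, w s(v, t i))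
      (fun v t => Finset.prod_nonneg fun i _ => hw _) j a b _
      (star_single D w hw r hr a b j) (star_single D w hw r hr b a j)
  calc ∑ j : Fin D, ∑ c : StIdx V D, (if gs c j = s(a, b) then
      ∏ i ∈ univ.erase j, w (gs c i) else 0) ≤ ∑ _j : Fin D, 2 * r ^ (D - 1) :=
        Finset.sum_le_sum fun j _ => h1 j
    _ = 2 * D * r ^ (D - 1) := by
        rw [Finset.sum_const, Finset.card_univ, Fintype.card_fin, nsmul_eq_mul]; ring

theorem Hv_star_le (D : ℕ) (w : Sym2 V → ℝ) (hw : ∀ e, 0 ≤ w e) (r : ℝ)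
    (hr : ∀ v, ∑ x, w s(v, x) ≤ r) (R : Finset (Sym2 V)) (d : ℕ)
    (hd : ∀ v, (R.filter (fun e => v ∈ e)).card ≤ d) (f : Sym2 V) :
    Hv (gs (V := V) (D := D)) w R f ≤ 2 * D ^ 2 * d * r ^ (D - 2) := by
  induction f using Sym2.ind with
  | _ a b =>
  have hr0 : 0 ≤ r := (Finset.sum_nonneg fun x _ => hw s(a, x)).trans (hr a)
  unfold Hv
  rw [Finset.sum_comm]
  have h1 : ∀ j : Fin D, ∑ c : StIdx V D, (if gs c j = s(a, b) then
      ∑ j' ∈ univ.erase j, (if gs c j' ∈ R then
        ∏ i ∈ (univ.erase j).erase j', w (gs c i) else 0) else 0) ≤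
        D * (2 * (d * r ^ (D - 2))) := by
    intro j
    have e1 : ∀ c : StIdx V D, (if gs c j = s(a, b) then
      ∑ j' ∈ univ.erase j, (if gs c j' ∈ R then
        ∏ i ∈ (univ.erase j).erase j', w (gs c i) else 0) else 0) =
        ∑ j' ∈ univ.erase j, (if gs c j = s(a, b) then (if gs c j' ∈ R then
        ∏ i ∈ (univ.erase j).erase j', w (gs c i) else 0) else 0) := by
      intro c
      split_ifs
      · rfl
      · simp
    rw [Finset.sum_congr rfl fun c _ => e1 c, Finset.sum_comm]
    have h2 : ∀ j' ∈ (univ : Finset (Fin D)).erase j, ∑ c : StIdx V D,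
        (if gs c j = s(a, b) then (if gs c j' ∈ R then
        ∏ i ∈ (univ.erase j).erase j', w (gs c i) else 0) else 0) ≤ 2 * (d * r ^ (D - 2)) := by
      intro j' hj'
      have hjj : j' ≠ j := Finset.ne_of_mem_erase hj'
      have h3 := sum_star_le (V := V) (D := D)
        (fun v t => if s(v, t j) = s(a, b) then (if s(v, t j') ∈ R then
          ∏ i ∈ (univ.erase j).erase j', w s(v, t i) else 0) else 0)
        (fun v t => by
          split_ifs
          · exact Finset.prod_nonneg fun i _ => hw _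
          · exact le_rfl
          · exact le_rfl)
      refine le_trans h3 ?_
      exact split_sum (fun v t => (if s(v, t j') ∈ R then
          ∏ i ∈ (univ.erase j).erase j', w s(v, t i) else 0))
        (fun v t => by
          split_ifs
          · exact Finset.prod_nonneg fun i _ => hw _
          · exact le_rfl) j a b _
        (star_double D w hw r hr R d hd a b j j' hjj)
        (star_double D w hw r hr R d hd b a j j' hjj)
    calc _ ≤ ∑ _j' ∈ (univ : Finset (Fin D)).erase j, 2 * (d * r ^ (D - 2)) :=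
          Finset.sum_le_sum h2
      _ ≤ ∑ _j' : Fin D, 2 * (d * r ^ (D - 2)) := by
          apply Finset.sum_le_sum_of_subset_of_nonneg (Finset.erase_subset _ _)
          intro i _ _
          positivity
      _ = D * (2 * (d * r ^ (D - 2))) := by
          rw [Finset.sum_const, Finset.card_univ, Fintype.card_fin, nsmul_eq_mul]
  calc _ ≤ ∑ _j : Fin D, (D : ℝ) * (2 * (d * r ^ (D - 2))) :=
        Finset.sum_le_sum fun j _ => h1 j
    _ = 2 * D ^ 2 * d * r ^ (D - 2) := by
        rw [Finset.sum_const, Finset.card_univ, Fintype.card_fin, nsmul_eq_mul]; ring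

theorem PS_star_le (D : ℕ) (w : Sym2 V → ℝ) (hw : ∀ e, 0 ≤ w e) (r : ℝ)
    (hr : ∀ v, ∑ x, w s(v, x) ≤ r) :
    PS (gs (V := V) (D := D)) w ≤ Fintype.card V * r ^ D := by
  unfold PS
  have h1 := sum_star_le (V := V) (D := D) (fun v t => ∏ j, w s(v, t j))
    (fun v t => Finset.prod_nonneg fun i _ => hw _)
  refine le_trans h1 ?_
  have h2 : ∀ v : V, ∑ t : Fin D → V, ∏ j, w s(v, t j) ≤ r ^ D := by
    intro v
    rw [← Fintype.prod_sum (fun (_ : Fin D) (x : V) => w s(v, x))]
    calc ∏ _i : Fin D, ∑ x, w s(v, x) ≤ ∏ _i : Fin D, r :=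
          Finset.prod_le_prod (fun i _ => Finset.sum_nonneg fun x _ => hw _) (fun i _ => hr v)
      _ = r ^ D := by rw [Finset.prod_const, Finset.card_univ, Fintype.card_fin]
  calc _ ≤ ∑ _v : V, r ^ D := Finset.sum_le_sum fun v _ => h2 v
    _ = Fintype.card V * r ^ D := by
        rw [Finset.sum_const, Finset.card_univ, nsmul_eq_mul]

theorem PS_star_ge (D : ℕ) (w : Sym2 V → ℝ) (hw : ∀ e, 0 ≤ w e) (T : Finset V)
    (hT : ∀ v ∈ T, D ≤ (Finset.univ.filter (fun x => x ≠ v ∧ w s(v, x) = 1)).card) :
    (T.card : ℝ) * D.factorial ≤ PS (gs (V := V) (D := D)) w := by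
  classical
  let G : (Σ v : {v // v ∈ T}, (Fin D ↪ {x : V // x ≠ v.1 ∧ w s(v.1, x) = 1})) → StIdx V D :=
    fun q => ⟨(q.1.1, fun i => (q.2 i).1),
      fun i j h => q.2.injective (Subtype.ext h), fun i => (q.2 i).2.1⟩
  have hGinj : Function.Injective G := by
    rintro ⟨⟨v, hv⟩, e⟩ ⟨⟨v', hv'⟩, e'⟩ h
    have h1 : v = v' := congrArg (fun c : StIdx V D => c.1.1) h
    subst h1
    have h2 : (fun i => (e i).1) = fun i => (e' i).1 :=
      congrArg (fun c : StIdx V D => c.1.2) h
    have h3 : e = e' := by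
      ext i
      exact congrFun h2 i
    rw [h3]
  have h1 : ∀ q, ∏ j, w (gs (G q) j) = 1 := by
    intro q
    apply Finset.prod_eq_one
    intro j _
    exact (q.2 j).2.2
  have h2 : ∑ q, ∏ j, w (gs (G q) j) ≤ PS (gs (V := V) (D := D)) w := by
    unfold PS
    have e1 : ∑ q, ∏ j, w (gs (G q) j) =
        ∑ c ∈ Finset.univ.map ⟨G, hGinj⟩, ∏ j, w (gs c j) := by
      rw [Finset.sum_map]; rfl
    rw [e1]
    exact Finset.sum_le_univ_sum_of_nonneg fun c => Finset.prod_nonneg fun i _ => hw _
  refine le_trans ?_ h2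
  rw [Finset.sum_congr rfl fun q _ => h1 q, Finset.sum_const, Finset.card_univ, nsmul_eq_mul,
    mul_one, Fintype.card_sigma]
  have h3 : T.card * D.factorial ≤ ∑ v : {v // v ∈ T},
      Fintype.card (Fin D ↪ {x : V // x ≠ v.1 ∧ w s(v.1, x) = 1}) := by
    calc T.card * D.factorial = ∑ _v : {v // v ∈ T}, D.factorial := by
          rw [Finset.sum_const, Finset.card_univ, Fintype.card_coe, smul_eq_mul]
      _ ≤ _ := by
          apply Finset.sum_le_sum
          intro v _
          rw [Fintype.card_embedding_eq, Fintype.card_fin, Fintype.card_subtype]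
          have h4 := hT v.1 v.2
          rw [← Nat.descFactorial_self D]
          exact Nat.descFactorial_le D h4
  exact_mod_cast h3

end T2
end Pool.Agent.R184.OC
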