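import Mathlib
import Pool.Agent.R184.OC.Defs
import Pool.Agent.R184.OC.Mats
import Pool.Agent.R184.OC.Stars
import Pool.Agent.R184.OC.Walks
import Pool.Agent.R184.OC.Cyc
import Pool.Agent.R184.OC.Graph
import Pool.Agent.R184.OC.Game
import Pool.Agent.R184.OC.Final

namespace Pool.Agent.R184.OC

open Finset Matrix

section V

variable {V : Type*} [Fintype V] [DecidableEq V]

/-- `u` and `v` are joined by a walk of length at most `r` in `C` -/
def near (C : Finset (Sym2 V)) (r : ℕ) (u v : V) : Prop := ∃ a ≤ r, (adjM C ^ a) u v ≠ 0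

theorem near_symm {C : Finset (Sym2 V)} {r : ℕ} {u v : V} (h : near C r u v) : near C r v u := by
  obtain ⟨a, ha, h⟩ := h
  exact ⟨a, ha, by rwa [adjM_pow_comm]⟩

theorem near_ball {Q : ℝ} {D : ℕ} {C : Finset (Sym2 V)} (h : Pos Q D C) (r : ℕ) (u : V) :
    Set.ncard {x | near C r u x} ≤ (r + 1) * (D + 1) ^ r := by
  classical
  have h1 : {x | near C r u x} = ((Finset.range (r + 1)).biUnion
      (fun a => Finset.univ.filter (fun x => (adjM C ^ a) u x ≠ 0)) : Finset V) := by
    ext x
    simp only [near, Set.mem_setOf_eq, Finset.coe_biUnion, Finset.coe_range, Set.mem_Iio,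
      Finset.coe_filter, Finset.mem_univ, true_and, Set.mem_iUnion, exists_prop, Nat.lt_succ_iff]
  rw [h1, Set.ncard_coe_finset]
  refine (Finset.card_biUnion_le).trans ?_
  have h2 : ∀ a ∈ Finset.range (r + 1),
      (Finset.univ.filter (fun x => (adjM C ^ a) u x ≠ 0)).card ≤ (D + 1) ^ r := by
    intro a ha
    have ha' : a ≤ r := by
      rw [Finset.mem_range] at ha
      omega
    have h3 : ((Finset.univ.filter (fun x => (adjM C ^ a) u x ≠ 0)).card : ℝ) ≤
        ∑ x, (adjM C ^ a) u x := by
      rw [Finset.card_filter]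
      push_cast
      apply Finset.sum_le_sum
      intro x _
      rcases adjM_pow_zero_or C a u x with h4 | h4
      · rw [h4]
        simp
      · split_ifs
        · exact h4
        · linarith
    have h5 := row_pow (adjM C) (adjM_nonneg C) D h.row a u
    have h6 : ((Finset.univ.filter (fun x => (adjM C ^ a) u x ≠ 0)).card : ℝ) ≤
        ((D ^ a : ℕ) : ℝ) := by
      push_cast
      exact h3.trans h5
    have h7 : (Finset.univ.filter (fun x => (adjM C ^ a) u x ≠ 0)).card ≤ D ^ a := by
      exact_mod_cast h6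
    calc _ ≤ D ^ a := h7
      _ ≤ (D + 1) ^ a := Nat.pow_le_pow_left (by omega) a
      _ ≤ (D + 1) ^ r := Nat.pow_le_pow_right (by omega) ha'
  calc _ ≤ ∑ _a ∈ Finset.range (r + 1), (D + 1) ^ r := Finset.sum_le_sum h2
    _ = (r + 1) * (D + 1) ^ r := by
      rw [Finset.sum_const, Finset.card_range, smul_eq_mul]

end V

section Fin

variable {n : ℕ}

theorem walk_adjM {C : Finset (Sym2 (Fin n))} {u v : Fin n} (p : (GC C).Walk u v) :
    (adjM C ^ p.length) u v ≠ 0 := by
  induction p with
  | nil => simp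
  | @cons u x v hux p ih =>
    rw [SimpleGraph.Walk.length_cons, pow_succ', Matrix.mul_apply]
    apply ne_of_gt
    have h1 : adjM C u x = 1 := by
      unfold adjM
      rw [Matrix.of_apply, if_pos]
      rw [SimpleGraph.fromEdgeSet_adj] at hux
      exact_mod_cast hux.1
    have h2 : 0 < (adjM C ^ p.length) x v :=
      lt_of_le_of_ne (pow_nonneg_entry _ (adjM_nonneg C) _ _ _) (Ne.symm ih)
    calc (0 : ℝ) < adjM C u x * (adjM C ^ p.length) x v := by rw [h1, one_mul]; exact h2
      _ ≤ ∑ z, adjM C u z * (adjM C ^ p.length) z v :=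
        Finset.single_le_sum (f := fun z => adjM C u z * (adjM C ^ p.length) z v)
          (fun z _ => mul_nonneg (adjM_nonneg C _ _) (pow_nonneg_entry _ (adjM_nonneg C) _ _ _))
          (Finset.mem_univ x)

theorem far_of_not_near {C : Finset (Sym2 (Fin n))} {r : ℕ} {u v : Fin n} (h : ¬ near C r u v)
    (p : (GC C).Walk u v) : r < p.length := by
  by_contra hle
  exact h ⟨p.length, by omega, walk_adjM p⟩

theorem GC_insert (C : Finset (Sym2 (Fin n))) (u v : Fin n) :
    GC (insert s(u, v) C) = GC C ⊔ SimpleGraph.edge u v := by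
  ext a b
  simp only [SimpleGraph.fromEdgeSet_adj, SimpleGraph.sup_adj, SimpleGraph.edge_adj,
    Finset.coe_insert, Set.mem_insert_iff, Sym2.eq_iff]
  tauto

theorem nsc_insert {C : Finset (Sym2 (Fin n))} {r : ℕ} {u v : Fin n} (huv : u ≠ v)
    (hC : NSC (GC C) r) (h : ¬ near C r u v) : NSC (GC (insert s(u, v) C)) r := by
  rw [GC_insert]
  exact nsc_sup_edge (GC C) r u v huv hC (far_of_not_near h)

theorem pos_of_deg {C : Finset (Sym2 (Fin n))} {D q : ℕ} {Q : ℝ} (hQq : Q = q + 1)
    (hn : n ≤ q + 1) (hdeg : ∀ v, (C.filter (fun e => v ∈ e)).card ≤ D) : Pos Q D C where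
  hQ0 := by rw [hQq]; positivity
  hQ := by
    rw [hQq, Fintype.card_fin]
    exact_mod_cast hn
  row := sum_adjM_le C D hdeg

end Fin

end Pool.Agent.R184.OC
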