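import Mathlib
import Pool.Agent.R184.OC.Defs

/-!
Waiter–Client odd cycle game (MP_153aba): the one-round lemma for multilinear sums.
-/

set_option autoImplicit false

namespace Pool.Agent.R184.OC

open Finset

section One

variable {J E : Type*} [Fintype J] [DecidableEq J] [DecidableEq E]

/-- the estimate for one structure -/
theorem one_structure (g : J → E) (hg : Function.Injective g) (w w' : E → ℝ)
    (hw : ∀ e, 0 ≤ w e) (R : Finset E) (Q : ℝ) (hQ : 0 < Q) (hwR : ∀ f ∈ R, w f = Q⁻¹)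
    (e : E) (he : e ∈ R) (hw'e : w' e = 1) (hw'R : ∀ f ∈ R, f ≠ e → w' f = 0)
    (hw' : ∀ f, f ∉ R → w' f = w f) :
    |∏ j, w' (g j) - ∏ j, w (g j) -
      ((∑ j, if g j = e then ∏ i ∈ univ.erase j, w (g i) else 0) -
        Q⁻¹ * ∑ j, if g j ∈ R then ∏ i ∈ univ.erase j, w (g i) else 0)| ≤
      Q⁻¹ * (∑ j, if g j = e then
        (∑ j' ∈ univ.erase j, if g j' ∈ R then
          ∏ i ∈ (univ.erase j).erase j', w (g i) else 0) else 0) +
      2 * (Q⁻¹ * (Q⁻¹ * ∑ j, if g j ∈ R then
        (∑ j' ∈ univ.erase j, if g j' ∈ R then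
          ∏ i ∈ (univ.erase j).erase j', w (g i) else 0) else 0)) := by
  classical
  have hQ' : 0 < Q⁻¹ := inv_pos.2 hQ
  set P : J → ℝ := fun j => ∏ i ∈ univ.erase j, w (g i) with hP
  set H : J → ℝ := fun j => ∑ j' ∈ univ.erase j, if g j' ∈ R then
          ∏ i ∈ (univ.erase j).erase j', w (g i) else 0 with hH
  have hP0 : ∀ j, 0 ≤ P j := fun j => Finset.prod_nonneg fun i _ => hw _
  have hterm : ∀ j j', 0 ≤ (if g j' ∈ R then
      ∏ i ∈ (univ.erase j).erase j', w (g i) else (0 : ℝ)) := by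
    intro j j'
    split_ifs
    · exact Finset.prod_nonneg fun i _ => hw _
    · exact le_rfl
  have hH0 : ∀ j, 0 ≤ H j := fun j => Finset.sum_nonneg fun j' _ => hterm j j'
  have hprod : ∀ j, ∏ i, w (g i) = w (g j) * P j := fun j =>
    (Finset.mul_prod_erase univ (fun i => w (g i)) (Finset.mem_univ j)).symm
  have hprod' : ∀ j, ∏ i, w' (g i) = w' (g j) * ∏ i ∈ univ.erase j, w' (g i) := fun j =>
    (Finset.mul_prod_erase univ (fun i => w' (g i)) (Finset.mem_univ j)).symm
  set A : ℝ := ∑ j, if g j = e then P j else 0 with hA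
  set B : ℝ := ∑ j, if g j ∈ R then P j else 0 with hB
  set SA : ℝ := ∑ j, if g j = e then H j else 0 with hSA
  set SB : ℝ := ∑ j, if g j ∈ R then H j else 0 with hSB
  have hA0 : 0 ≤ A := Finset.sum_nonneg fun j _ => by split_ifs <;> simp [hP0 j]
  have hB0 : 0 ≤ B := Finset.sum_nonneg fun j _ => by split_ifs <;> simp [hP0 j]
  have hSA0 : 0 ≤ SA := Finset.sum_nonneg fun j _ => by split_ifs <;> simp [hH0 j]
  have hSB0 : 0 ≤ SB := Finset.sum_nonneg fun j _ => by split_ifs <;> simp [hH0 j]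
  have hRHS : 0 ≤ Q⁻¹ * SA + 2 * (Q⁻¹ * (Q⁻¹ * SB)) := by positivity
  by_cases h0 : ∃ j, g j ∈ R
  · obtain ⟨j, hj⟩ := h0
    by_cases h1 : ∃ j', j' ≠ j ∧ g j' ∈ R
    · obtain ⟨j', hj'j, hj'⟩ := h1
      -- at least two indices in `R`
      have hzero : ∏ i, w' (g i) = 0 := by
        by_cases hje : g j = e
        · have : g j' ≠ e := fun h => hj'j (hg (h.trans hje.symm))
          exact Finset.prod_eq_zero (Finset.mem_univ j') (hw'R _ hj' this)
        · exact Finset.prod_eq_zero (Finset.mem_univ j) (hw'R _ hj hje)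
      have hPH : ∀ a, g a ∈ R → P a ≤ Q⁻¹ * H a := by
        intro a ha
        obtain ⟨b, hba, hb⟩ : ∃ b, b ≠ a ∧ g b ∈ R := by
          by_cases haj : a = j
          · exact ⟨j', by rw [haj]; exact hj'j, hj'⟩
          · exact ⟨j, Ne.symm haj, hj⟩
        have hbm : b ∈ univ.erase a := Finset.mem_erase.2 ⟨hba, Finset.mem_univ b⟩
        have h2 : P a = Q⁻¹ * ∏ i ∈ (univ.erase a).erase b, w (g i) := by
          rw [hP, ← hwR _ hb]
          exact (Finset.mul_prod_erase (univ.erase a) (fun i => w (g i)) hbm).symm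
        rw [h2]
        apply mul_le_mul_of_nonneg_left _ hQ'.le
        have h3 := Finset.single_le_sum (f := fun b => if g b ∈ R then
          ∏ i ∈ (univ.erase a).erase b, w (g i) else (0 : ℝ)) (fun b _ => hterm a b) hbm
        simp only [if_pos hb] at h3
        exact h3
      have hAle : A ≤ Q⁻¹ * SA := by
        rw [hA, hSA, Finset.mul_sum]
        apply Finset.sum_le_sum
        intro a _
        split_ifs with ha
        · exact hPH a (ha ▸ he)
        · simp
      have hBle : B ≤ Q⁻¹ * SB := by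
        rw [hB, hSB, Finset.mul_sum]
        apply Finset.sum_le_sum
        intro a _
        split_ifs with ha
        · exact hPH a ha
        · simp
      have hprodle : ∏ i, w (g i) ≤ Q⁻¹ * (Q⁻¹ * SB) := by
        rw [hprod j, hwR _ hj]
        apply mul_le_mul_of_nonneg_left _ hQ'.le
        refine (hPH j hj).trans ?_
        apply mul_le_mul_of_nonneg_left _ hQ'.le
        have h3 := Finset.single_le_sum (f := fun a => if g a ∈ R then H a else (0 : ℝ))
          (fun a _ => by split_ifs <;> simp [hH0 a]) (Finset.mem_univ j)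
        simp only [if_pos hj] at h3
        exact h3
      have hprod0 : 0 ≤ ∏ i, w (g i) := Finset.prod_nonneg fun i _ => hw _
      have hBle2 : Q⁻¹ * B ≤ Q⁻¹ * (Q⁻¹ * SB) := mul_le_mul_of_nonneg_left hBle hQ'.le
      have hQB0 : 0 ≤ Q⁻¹ * B := by positivity
      rw [hzero, abs_le]
      constructor <;> linarith
    · -- exactly one index in `R`
      push Not at h1
      have hothers : ∏ i ∈ univ.erase j, w' (g i) = P j := by
        apply Finset.prod_congr rfl
        intro i hi
        exact hw' _ (h1 i (Finset.ne_of_mem_erase hi))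
      have hBj : B = P j := by
        rw [hB, Finset.sum_eq_single j]
        · rw [if_pos hj]
        · intro i _ hi
          rw [if_neg (h1 i hi)]
        · intro h
          exact absurd (Finset.mem_univ j) h
      have hAj : A = if g j = e then P j else 0 := by
        rw [hA, Finset.sum_eq_single j]
        · intro i _ hi
          rw [if_neg]
          intro h
          exact h1 i hi (h ▸ he)
        · intro h
          exact absurd (Finset.mem_univ j) h
      have hΔ : ∏ j, w' (g j) - ∏ j, w (g j) - (A - Q⁻¹ * B) = 0 := by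
        rw [hprod j, hprod' j, hothers, hwR _ hj, hBj, hAj]
        by_cases hje : g j = e
        · rw [if_pos hje, hje, hw'e]; ring
        · rw [if_neg hje, hw'R _ hj hje]; ring
      rw [hΔ, abs_zero]
      exact hRHS
  · push Not at h0
    have h1 : ∏ j, w' (g j) = ∏ j, w (g j) := Finset.prod_congr rfl fun j _ => hw' _ (h0 j)
    have hA2 : A = 0 := Finset.sum_eq_zero fun j _ => by
      rw [if_neg]
      intro h
      exact h0 j (h ▸ he)
    have hB2 : B = 0 := Finset.sum_eq_zero fun j _ => by rw [if_neg (h0 j)]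
    rw [h1, hA2, hB2]
    simpa using hRHS

end One

section Round

variable {ι J E : Type*} [Fintype ι] [Fintype J] [DecidableEq J] [DecidableEq E]

theorem sum_mem (R : Finset E) (F : J → ℝ) (g : J → E) :
    ∑ f ∈ R, ∑ j, (if g j = f then F j else 0) = ∑ j, if g j ∈ R then F j else 0 := by
  rw [Finset.sum_comm]
  refine Finset.sum_congr rfl fun j _ => ?_
  rw [Finset.sum_ite_eq]

theorem round_lemma
    (g : ι → J → E) (hg : ∀ c, Function.Injective (g c)) (w w' : E → ℝ) (hw : ∀ e, 0 ≤ w e)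
    (R : Finset E) (Q : ℝ) (hQ : 0 < Q) (hR : (R.card : ℝ) = Q) (hwR : ∀ f ∈ R, w f = Q⁻¹)
    (e : E) (he : e ∈ R) (hw'e : w' e = 1) (hw'R : ∀ f ∈ R, f ≠ e → w' f = 0)
    (hw' : ∀ f, f ∉ R → w' f = w f) (h : ℝ) (hH : ∀ f ∈ R, Hv g w R f ≤ h) :
    |PS g w' - PS g w - (Dv g w e - Q⁻¹ * ∑ f ∈ R, Dv g w f)| ≤ 3 * h / Q := by
  classical
  have hQ' : 0 < Q⁻¹ := inv_pos.2 hQ
  have h1 : PS g w' - PS g w - (Dv g w e - Q⁻¹ * ∑ f ∈ R, Dv g w f) =
      ∑ c, (∏ j, w' (g c j) - ∏ j, w (g c j) -
      ((∑ j, if g c j = e then ∏ i ∈ univ.erase j, w (g c i) else 0) -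
        Q⁻¹ * ∑ j, if g c j ∈ R then ∏ i ∈ univ.erase j, w (g c i) else 0)) := by
    have h2 : ∑ f ∈ R, Dv g w f =
        ∑ c, ∑ j, if g c j ∈ R then ∏ i ∈ univ.erase j, w (g c i) else 0 := by
      unfold Dv
      rw [Finset.sum_comm]
      exact Finset.sum_congr rfl fun c _ => sum_mem R _ (g c)
    rw [h2]
    unfold PS Dv
    rw [Finset.sum_sub_distrib, Finset.sum_sub_distrib, Finset.sum_sub_distrib, Finset.mul_sum]
  rw [h1]
  refine (Finset.abs_sum_le_sum_abs _ _).trans ?_
  refine (Finset.sum_le_sum fun c _ => one_structure (g c) (hg c) w w' hw R Q hQ hwR e he hw'e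
    hw'R hw').trans ?_
  rw [Finset.sum_add_distrib, ← Finset.mul_sum, ← Finset.mul_sum, ← Finset.mul_sum,
    ← Finset.mul_sum]
  have h3 : ∑ c, ∑ j, (if g c j = e then
        (∑ j' ∈ univ.erase j, if g c j' ∈ R then
          ∏ i ∈ (univ.erase j).erase j', w (g c i) else 0) else 0) ≤ h := hH e he
  have h4 : ∑ c, ∑ j, (if g c j ∈ R then
        (∑ j' ∈ univ.erase j, if g c j' ∈ R then
          ∏ i ∈ (univ.erase j).erase j', w (g c i) else 0) else 0) ≤ Q * h := by
    have h5 : ∑ c, ∑ j, (if g c j ∈ R then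
        (∑ j' ∈ univ.erase j, if g c j' ∈ R then
          ∏ i ∈ (univ.erase j).erase j', w (g c i) else 0) else 0) = ∑ f ∈ R, Hv g w R f := by
      unfold Hv
      rw [Finset.sum_comm (s := R)]
      exact (Finset.sum_congr rfl fun c _ => sum_mem R _ (g c)).symm
    rw [h5]
    calc ∑ f ∈ R, Hv g w R f ≤ ∑ f ∈ R, h := Finset.sum_le_sum hH
      _ = Q * h := by rw [Finset.sum_const, nsmul_eq_mul, hR]
  calc _ ≤ Q⁻¹ * h + 2 * (Q⁻¹ * (Q⁻¹ * (Q * h))) := by
        gcongr
    _ = 3 * h / Q := by field_simp; ring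

end Round

end Pool.Agent.R184.OC
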