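import Mathlib

/-! Greedy selection of a set of edges with small degrees and pairwise far from each other. -/

set_option autoImplicit false

namespace Pool.Agent.R184.OC

theorem sum_deg_le {V : Type*} [Fintype V] [DecidableEq V] (R : Finset (Sym2 V)) :
    ∑ v : V, (R.filter (fun e => v ∈ e)).card ≤ 2 * R.card := by
  classical
  have h : ∑ v : V, (R.filter (fun e => v ∈ e)).card =
      ∑ e ∈ R, ((Finset.univ : Finset V).filter (fun v => v ∈ e)).card := by
    simp_rw [Finset.card_filter]
    exact Finset.sum_comm
  rw [h, mul_comm, ← smul_eq_mul]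
  refine Finset.sum_le_card_nsmul _ _ _ ?_
  intro e _
  induction e using Sym2.ind with
  | _ a b =>
    have : (Finset.univ : Finset V).filter (fun v => v ∈ s(a, b)) ⊆ {a, b} := by
      intro v hv
      simp only [Finset.mem_filter, Finset.mem_univ, true_and, Sym2.mem_iff] at hv
      simp only [Finset.mem_insert, Finset.mem_singleton]
      exact hv
    exact (Finset.card_le_card this).trans Finset.card_le_two

theorem select {V : Type*} [Fintype V] [DecidableEq V] (near : V → V → Prop)
    (hsymm : ∀ u v, near u v → near v u) (β : ℕ)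
    (hβ : ∀ u, Set.ncard {x | near u x} ≤ β) (S : Finset (Sym2 V)) (κ d Q : ℕ)
    (hd : 2 * Fintype.card V ≤ κ * d) (hS : Q * (1 + β ^ 2 + κ) ≤ S.card) :
    ∃ R ⊆ S, R.card = Q ∧ (∀ v, (R.filter (fun e => v ∈ e)).card ≤ d) ∧
      ∀ u v x y, s(u, v) ∈ R → s(x, y) ∈ R → near u x → near v y → s(x, y) = s(u, v) := by
  classical
  let ball : V → Finset V := fun u => Finset.univ.filter (fun x => near u x)
  have hball : ∀ u, (ball u).card ≤ β := by
    intro u
    have h := hβ u
    have e : {x | near u x} = ((ball u : Finset V) : Set V) := by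
      ext x
      simp [ball]
    rw [e, Set.ncard_coe_finset] at h
    exact h
  let N : Sym2 V → Finset (Sym2 V) := fun e =>
    Finset.univ.filter (fun f => ∃ u v x y, e = s(u, v) ∧ f = s(x, y) ∧ near u x ∧ near v y)
  have hN : ∀ e, (N e).card ≤ β ^ 2 := by
    intro e
    induction e using Sym2.ind with
    | _ a b =>
      have hsub : N s(a, b) ⊆ (ball a ×ˢ ball b).image (fun p => s(p.1, p.2)) := by
        intro f hf
        simp only [N, Finset.mem_filter, Finset.mem_univ, true_and] at hf
        obtain ⟨u, v, x, y, h1, rfl, hx, hy⟩ := hf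
        rw [Sym2.eq_iff] at h1
        rw [Finset.mem_image]
        rcases h1 with ⟨rfl, rfl⟩ | ⟨rfl, rfl⟩
        · exact ⟨(x, y), by simp [ball, hx, hy], rfl⟩
        · exact ⟨(y, x), by simp [ball, hx, hy], Sym2.eq_swap⟩
      refine (Finset.card_le_card hsub).trans (Finset.card_image_le.trans ?_)
      rw [Finset.card_product, sq]
      exact Nat.mul_le_mul (hball a) (hball b)
  have key : ∀ s ≤ Q, ∃ R ⊆ S, R.card = s ∧ (∀ v, (R.filter (fun e => v ∈ e)).card ≤ d) ∧
      ∀ u v x y, s(u, v) ∈ R → s(x, y) ∈ R → near u x → near v y → s(x, y) = s(u, v) := by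
    intro s
    induction s with
    | zero =>
      intro _
      exact ⟨∅, Finset.empty_subset _, rfl, by simp, by simp⟩
    | succ s ih =>
      intro hs
      obtain ⟨R, hRS, hRc, hdeg, hsep⟩ := ih (by omega)
      let sat : Finset V := Finset.univ.filter (fun v => (R.filter (fun e => v ∈ e)).card = d)
      let B3 : Finset (Sym2 V) := sat.biUnion (fun v => Finset.univ.image (fun w => s(v, w)))
      have hsat : sat.card * d ≤ 2 * s := by
        have h1 : ∑ v ∈ sat, (R.filter (fun e => v ∈ e)).card = sat.card * d := by
          rw [Finset.sum_const_nat]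
          intro v hv
          exact (Finset.mem_filter.mp hv).2
        rw [← h1, ← hRc]
        exact (Finset.sum_le_sum_of_subset (Finset.subset_univ _)).trans (sum_deg_le R)
      have hB3 : B3.card ≤ s * κ := by
        have h1 : B3.card ≤ sat.card * Fintype.card V := by
          refine Finset.card_biUnion_le_card_mul _ _ _ ?_
          intro v _
          exact Finset.card_image_le.trans (by simp)
        have h2 : 2 * (sat.card * Fintype.card V) ≤ 2 * (s * κ) := by
          calc 2 * (sat.card * Fintype.card V) = sat.card * (2 * Fintype.card V) := by ring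
            _ ≤ sat.card * (κ * d) := Nat.mul_le_mul le_rfl hd
            _ = κ * (sat.card * d) := by ring
            _ ≤ κ * (2 * s) := Nat.mul_le_mul le_rfl hsat
            _ = 2 * (s * κ) := by ring
        omega
      have hB2 : (R.biUnion N).card ≤ s * β ^ 2 := by
        rw [← hRc]
        exact Finset.card_biUnion_le_card_mul _ _ _ (fun e _ => hN e)
      have htot : (R ∪ R.biUnion N ∪ B3).card < S.card := by
        have h1 : (R ∪ R.biUnion N ∪ B3).card ≤ s + s * β ^ 2 + s * κ := by
          refine (Finset.card_union_le _ _).trans (Nat.add_le_add ?_ hB3)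
          refine (Finset.card_union_le _ _).trans (Nat.add_le_add hRc.le hB2)
        have h2 : s + s * β ^ 2 + s * κ < Q * (1 + β ^ 2 + κ) := by
          have h3 : s * (1 + β ^ 2 + κ) < Q * (1 + β ^ 2 + κ) :=
            Nat.mul_lt_mul_of_pos_right (by omega) (by positivity)
          calc s + s * β ^ 2 + s * κ = s * (1 + β ^ 2 + κ) := by ring
            _ < _ := h3
        omega
      obtain ⟨f, hfS, hf⟩ := Finset.exists_mem_notMem_of_card_lt_card htot
      simp only [Finset.mem_union, not_or] at hf
      obtain ⟨⟨hfR, hf2⟩, hf3⟩ := hf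
      refine ⟨insert f R, Finset.insert_subset hfS hRS, ?_, ?_, ?_⟩
      · rw [Finset.card_insert_of_notMem hfR, hRc]
      · intro v
        rw [Finset.filter_insert]
        split_ifs with hv
        · have hne : (R.filter (fun e => v ∈ e)).card ≠ d := by
            intro h
            apply hf3
            simp only [B3, Finset.mem_biUnion]
            refine ⟨v, by simp [sat, h], ?_⟩
            obtain ⟨w, hw⟩ := hv
            exact Finset.mem_image.mpr ⟨w, Finset.mem_univ _, hw.symm⟩
          have h1 := hdeg v
          have h2 := Finset.card_insert_le f (R.filter (fun e => v ∈ e))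
          omega
        · exact hdeg v
      · intro u v x y h1 h2 hx hy
        rw [Finset.mem_insert] at h1 h2
        have notN : ∀ e ∈ R, f ∉ N e := fun e he hfe =>
          hf2 (Finset.mem_biUnion.mpr ⟨e, he, hfe⟩)
        rcases h1 with h1 | h1 <;> rcases h2 with h2 | h2
        · rw [h1, h2]
        · exact absurd (by
            simp only [N, Finset.mem_filter, Finset.mem_univ, true_and]
            exact ⟨x, y, u, v, rfl, h1.symm, hsymm _ _ hx, hsymm _ _ hy⟩) (notN _ h2)
        · exact absurd (by
            simp only [N, Finset.mem_filter, Finset.mem_univ, true_and]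
            exact ⟨u, v, x, y, rfl, h2.symm, hx, hy⟩) (notN _ h1)
        · exact hsep u v x y h1 h2 hx hy
  exact key Q le_rfl

end Pool.Agent.R184.OC
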