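import Mathlib
import Pool.Agent.R184.OC.Defs
import Pool.Agent.R184.OC.Mats
import Pool.Agent.R184.OC.Stars
import Pool.Agent.R184.OC.Walks
import Pool.Agent.R184.OC.Cyc
import Pool.Agent.R184.OC.Graph
import Pool.Agent.R184.OC.Game
import Pool.Agent.R184.OC.Round
import Pool.Agent.R184.OC.Select
import Pool.Agent.R184.OC.Final

namespace Pool.Agent.R184.OC

open Finset Matrix

variable {n : ℕ}

/-- the coefficient of the cycles of length `2j+3` -/
noncomputable def coef (j : ℕ) : ℝ := 1 / (2 * (2 * (j : ℝ) + 3))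

theorem coef_pos (j : ℕ) : 0 < coef j := by
  unfold coef
  positivity

theorem coef_mul (j : ℕ) (y : ℝ) : coef j * (((2 * j + 2 + 1 : ℕ) : ℝ) * (2 * y)) = y := by
  unfold coef
  have h : (2 * (j : ℝ) + 3) ≠ 0 := by positivity
  push_cast
  field_simp
  ring

/-- the potential -/
noncomputable def Psi (J D : ℕ) (μ : ℝ) (w : Sym2 (Fin n) → ℝ) : ℝ :=
  (∑ j ∈ Finset.range J, coef j * PS (gc (V := Fin n) (L := 2 * j + 2)) w) -
    μ * PS (gs (V := Fin n) (D := D)) w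

/-- its derivative -/
noncomputable def DvPsi (J D : ℕ) (μ : ℝ) (w : Sym2 (Fin n) → ℝ) (f : Sym2 (Fin n)) : ℝ :=
  (∑ j ∈ Finset.range J, coef j * Dv (gc (V := Fin n) (L := 2 * j + 2)) w f) -
    μ * Dv (gs (V := Fin n) (D := D)) w f

theorem wt_after {Q : ℝ} {C F R : Finset (Sym2 (Fin n))} (hdisj : Disjoint C F) (hR : R ⊆ F)
    {e : Sym2 (Fin n)} (he : e ∈ R) :
    wt Q (insert e C) (F \ R) e = 1 ∧
    (∀ f ∈ R, f ≠ e → wt Q (insert e C) (F \ R) f = 0) ∧
    (∀ f, f ∉ R → wt Q (insert e C) (F \ R) f = wt Q C F f) := by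
  refine ⟨?_, ?_, ?_⟩
  · unfold wt
    rw [if_pos (Finset.mem_insert_self _ _)]
  · intro f hf hne
    have h1 : f ∉ C := fun h => (Finset.disjoint_left.mp hdisj h) (hR hf)
    unfold wt
    rw [if_neg, if_neg]
    · simp [hf]
    · simp [hne, h1]
  · intro f hf
    have hne : f ≠ e := fun h => hf (h ▸ he)
    unfold wt
    simp only [Finset.mem_insert, hne, false_or, Finset.mem_sdiff, hf, not_false_eq_true,
      and_true]

/-- the change of the potential in one round -/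
theorem psi_round {J D q : ℕ} {μ Q : ℝ} (hμ : 0 ≤ μ) (hQq : Q = q + 1)
    {C F R : Finset (Sym2 (Fin n))} (hdisj : Disjoint C F) (hR : R ⊆ F) (hRc : R.card = q + 1)
    {e : Sym2 (Fin n)} (he : e ∈ R) (h1 : ℕ → ℝ) (h2 : ℝ)
    (hH1 : ∀ j < J, ∀ f ∈ R, Hv (gc (V := Fin n) (L := 2 * j + 2)) (wt Q C F) R f ≤ h1 j)
    (hH2 : ∀ f ∈ R, Hv (gs (V := Fin n) (D := D)) (wt Q C F) R f ≤ h2) :
    Psi J D μ (wt Q C F) + (DvPsi J D μ (wt Q C F) e -
      Q⁻¹ * ∑ f ∈ R, DvPsi J D μ (wt Q C F) f) -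
      3 * ((∑ j ∈ Finset.range J, coef j * h1 j) + μ * h2) / Q ≤
      Psi J D μ (wt Q (insert e C) (F \ R)) := by
  have hQ : 0 < Q := by rw [hQq]; positivity
  have hw := wt_nonneg hQ C F
  obtain ⟨ha, hb, hc⟩ := wt_after (Q := Q) hdisj hR he
  have hcard : (R.card : ℝ) = Q := by rw [hRc, hQq]; push_cast; ring
  have hwR : ∀ f ∈ R, wt Q C F f = Q⁻¹ := by
    intro f hf
    have h1 : f ∉ C := fun h => (Finset.disjoint_left.mp hdisj h) (hR hf)
    unfold wt
    rw [if_neg h1, if_pos (hR hf)]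
  have hcyc : ∀ j ∈ Finset.range J, coef j * PS (gc (V := Fin n) (L := 2 * j + 2)) (wt Q C F) +
      (coef j * Dv (gc (V := Fin n) (L := 2 * j + 2)) (wt Q C F) e -
        Q⁻¹ * ∑ f ∈ R, coef j * Dv (gc (V := Fin n) (L := 2 * j + 2)) (wt Q C F) f) -
      3 * (coef j * h1 j) / Q ≤
      coef j * PS (gc (V := Fin n) (L := 2 * j + 2)) (wt Q (insert e C) (F \ R)) := by
    intro j hj
    have h := round_lemma (gc (V := Fin n) (L := 2 * j + 2)) (gc_injective (by omega))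
      (wt Q C F) (wt Q (insert e C) (F \ R)) hw R Q hQ hcard hwR e he ha hb hc (h1 j)
      (hH1 j (Finset.mem_range.mp hj))
    have h' := (abs_le.mp h).1
    have hcf := coef_pos j
    rw [← Finset.mul_sum]
    have h3 := mul_le_mul_of_nonneg_left h' hcf.le
    have h4 : coef j * (-(3 * h1 j / Q)) = -(3 * (coef j * h1 j) / Q) := by ring
    rw [h4] at h3
    nlinarith [h3]
  have hst := round_lemma (gs (V := Fin n) (D := D)) (gs_injective)
      (wt Q C F) (wt Q (insert e C) (F \ R)) hw R Q hQ hcard hwR e he ha hb hc h2 hH2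
  have hst' := (abs_le.mp hst).2
  have hst2 := mul_le_mul_of_nonneg_left hst' hμ
  have hsum := Finset.sum_le_sum hcyc
  unfold Psi DvPsi
  simp only [Finset.sum_sub_distrib, Finset.sum_add_distrib] at hsum ⊢
  have e1 : ∑ j ∈ Finset.range J, Q⁻¹ * ∑ f ∈ R, coef j *
      Dv (gc (V := Fin n) (L := 2 * j + 2)) (wt Q C F) f =
      Q⁻¹ * ∑ f ∈ R, ∑ j ∈ Finset.range J, coef j *
      Dv (gc (V := Fin n) (L := 2 * j + 2)) (wt Q C F) f := by
    rw [← Finset.mul_sum, Finset.sum_comm]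
  have e2 : ∑ j ∈ Finset.range J, 3 * (coef j * h1 j) / Q =
      3 * (∑ j ∈ Finset.range J, coef j * h1 j) / Q := by
    rw [← Finset.sum_div, ← Finset.mul_sum]
  have e3 : ∑ f ∈ R, μ * Dv (gs (V := Fin n) (D := D)) (wt Q C F) f =
      μ * ∑ f ∈ R, Dv (gs (V := Fin n) (D := D)) (wt Q C F) f := by
    rw [← Finset.mul_sum]
  rw [e1, e2] at hsum
  rw [e3]
  have e4 : 3 * ((∑ j ∈ Finset.range J, coef j * h1 j) + μ * h2) / Q =
      3 * (∑ j ∈ Finset.range J, coef j * h1 j) / Q + μ * (3 * h2 / Q) := by ring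
  rw [e4]
  nlinarith [hsum, hst2]

end Pool.Agent.R184.OC
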