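import Mathlib
import Pool.Agent.R184.OC.Step
import Pool.Agent.R184.OC.Near

namespace Pool.Agent.R184.OC

open Finset Matrix

variable {n : ℕ}

/-- row sums of the weights -/
theorem wt_row {Q : ℝ} {D : ℕ} {C : Finset (Sym2 (Fin n))} (h : Pos Q D C)
    (F : Finset (Sym2 (Fin n))) (v : Fin n) : ∑ x, wt Q C F s(v, x) ≤ (D : ℝ) + 1 := by
  have h1 : ∀ x, wt Q C F s(v, x) ≤ adjM C v x + Q⁻¹ := by
    intro x
    have := wM_wt_le h.hQ0 C F v x
    unfold wM at this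
    rw [Matrix.of_apply, Matrix.add_apply, Matrix.of_apply] at this
    exact this
  have h2 := h.row v
  have h3 := h.hQ
  have h4 : (∑ x : Fin n, wt Q C F s(v, x)) ≤ (∑ x, adjM C v x) + (Fintype.card (Fin n)) * Q⁻¹ := by
    calc (∑ x : Fin n, wt Q C F s(v, x)) ≤ ∑ x, (adjM C v x + Q⁻¹) :=
          Finset.sum_le_sum (fun x _ => h1 x)
      _ = _ := by
        rw [Finset.sum_add_distrib, Finset.sum_const, nsmul_eq_mul, Finset.card_univ]
  have h5 : (Fintype.card (Fin n) : ℝ) * Q⁻¹ ≤ 1 := by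
    rw [← div_eq_mul_inv, div_le_one h.hQ0]
    exact h3
  linarith

theorem Dv_star_nonneg {D : ℕ} (w : Sym2 (Fin n) → ℝ) (hw : ∀ e, 0 ≤ w e) (f : Sym2 (Fin n)) :
    0 ≤ Dv (gs (V := Fin n) (D := D)) w f := by
  unfold Dv
  apply Finset.sum_nonneg
  intro c _
  apply Finset.sum_nonneg
  intro j _
  split_ifs
  · exact Finset.prod_nonneg (fun _ _ => hw _)
  · exact le_rfl

/-- bound for the derivative -/
noncomputable def G0 (J D : ℕ) (δ : ℝ) : ℝ :=
  J * ((2 * J : ℕ) * ((D : ℝ) + 1) ^ (2 * J)) + δ * (2 * D * ((D : ℝ) + 1) ^ (D - 1))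

theorem DvPsi_bound {J D : ℕ} {δ Q : ℝ} (hδ : 0 < δ) {C : Finset (Sym2 (Fin n))} (h : Pos Q D C)
    (F : Finset (Sym2 (Fin n))) (u v : Fin n) (hfar : ¬ near C (2 * (2 * J)) u v) :
    |DvPsi J D (δ / Q) (wt Q C F) s(u, v)| ≤ G0 J D δ / Q := by
  have hw := wt_nonneg h.hQ0 C F
  have hQ := h.hQ0
  have h1 : ∀ j ∈ Finset.range J, coef j * Dv (gc (V := Fin n) (L := 2 * j + 2)) (wt Q C F) s(u, v)
      ≤ bb Q D (2 * J) := by
    intro j hj
    rw [Finset.mem_range] at hj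
    have h2 : (adjM C ^ (2 * j + 2)) u v = 0 := by
      by_contra h3
      exact hfar ⟨2 * j + 2, by omega, h3⟩
    have h3 := Dv_cyc_le h F (by omega : 2 * j + 2 ≤ 2 * J) u v h2
    calc coef j * Dv (gc (V := Fin n) (L := 2 * j + 2)) (wt Q C F) s(u, v) ≤
        coef j * (((2 * j + 2 + 1 : ℕ) : ℝ) * (2 * bb Q D (2 * J))) :=
          mul_le_mul_of_nonneg_left h3 (coef_pos j).le
      _ = bb Q D (2 * J) := coef_mul j _
  have h2 : ∑ j ∈ Finset.range J, coef j * Dv (gc (V := Fin n) (L := 2 * j + 2)) (wt Q C F) s(u, v)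
      ≤ J * bb Q D (2 * J) := by
    refine (Finset.sum_le_sum h1).trans ?_
    rw [Finset.sum_const, Finset.card_range, nsmul_eq_mul]
  have h3 : 0 ≤ ∑ j ∈ Finset.range J, coef j *
      Dv (gc (V := Fin n) (L := 2 * j + 2)) (wt Q C F) s(u, v) :=
    Finset.sum_nonneg (fun j _ => mul_nonneg (coef_pos j).le (Dv_cyc_nonneg _ hw _))
  have h4 := Dv_star_le D (wt Q C F) hw ((D : ℝ) + 1) (wt_row h F) s(u, v)
  have h5 := Dv_star_nonneg (D := D) (wt Q C F) hw s(u, v)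
  have hδQ : 0 ≤ δ / Q := (div_pos hδ hQ).le
  have h6 := mul_le_mul_of_nonneg_left h4 hδQ
  have h7 := mul_nonneg hδQ h5
  have e1 : G0 J D δ / Q = J * bb Q D (2 * J) + δ / Q * (2 * D * ((D : ℝ) + 1) ^ (D - 1)) := by
    unfold G0 bb
    ring
  have h8 : 0 ≤ J * bb Q D (2 * J) := mul_nonneg (Nat.cast_nonneg _) (bb_nonneg hQ _ _)
  have h9 : 0 ≤ δ / Q * (2 * D * ((D : ℝ) + 1) ^ (D - 1)) := by positivity
  unfold DvPsi
  rw [e1, abs_le]
  constructor <;> linarith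

/-- bound for the second order terms -/
noncomputable def H0 (J D : ℕ) (δ : ℝ) : ℝ :=
  J * ((2 * J : ℕ) * (2 * (2 * J : ℕ) * ((D : ℝ) + 1) ^ (2 * J) * ((D : ℝ) + 1) ^ (2 * J) +
    ((2 * J : ℕ) * ((D : ℝ) + 1) ^ (2 * J)) ^ 2)) + δ * (2 * D ^ 2 * ((D : ℝ) + 1) ^ (D - 2))

theorem H_total {J D d : ℕ} {δ Q : ℝ} (hδ : 0 < δ) {C : Finset (Sym2 (Fin n))} (h : Pos Q D C) :
    3 * ((∑ j ∈ Finset.range J, coef j * (((2 * j + 2 + 1 : ℕ) : ℝ) * (2 * (((2 * J : ℕ) : ℝ) *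
      (2 * bb Q D (2 * J) * ((D : ℝ) + 1) ^ (2 * J) * d +
        bb Q D (2 * J) ^ 2 * (Fintype.card (Fin n) * d)))))) +
      δ / Q * (2 * D ^ 2 * d * ((D : ℝ) + 1) ^ (D - 2))) / Q ≤ 3 * (H0 J D δ * (d / Q)) / Q := by
  have hQ := h.hQ0
  have hnQ := h.hQ
  simp only [coef_mul]
  rw [Finset.sum_const, Finset.card_range, nsmul_eq_mul]
  have hS : (0 : ℝ) ≤ ((D : ℝ) + 1) ^ (2 * J) := by positivity
  have h1 : bb Q D (2 * J) ^ 2 * (Fintype.card (Fin n) * d) ≤
      ((2 * J : ℕ) * ((D : ℝ) + 1) ^ (2 * J)) ^ 2 * (d / Q) := by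
    unfold bb
    rw [div_pow]
    have h2 : ((2 * J : ℕ) * ((D : ℝ) + 1) ^ (2 * J)) ^ 2 / Q ^ 2 * (Fintype.card (Fin n) * d) ≤
        ((2 * J : ℕ) * ((D : ℝ) + 1) ^ (2 * J)) ^ 2 / Q ^ 2 * (Q * d) := by
      apply mul_le_mul_of_nonneg_left _ (by positivity)
      exact mul_le_mul_of_nonneg_right hnQ (Nat.cast_nonneg d)
    refine h2.trans (le_of_eq ?_)
    field_simp
  have h2 : 2 * bb Q D (2 * J) * ((D : ℝ) + 1) ^ (2 * J) * d =
      2 * (2 * J : ℕ) * ((D : ℝ) + 1) ^ (2 * J) * ((D : ℝ) + 1) ^ (2 * J) * (d / Q) := by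
    unfold bb
    ring
  apply div_le_div_of_nonneg_right _ hQ.le
  apply mul_le_mul_of_nonneg_left _ (by norm_num : (0 : ℝ) ≤ 3)
  rw [h2]
  have h3 : δ / Q * (2 * D ^ 2 * d * ((D : ℝ) + 1) ^ (D - 2)) =
      δ * (2 * D ^ 2 * ((D : ℝ) + 1) ^ (D - 2)) * (d / Q) := by ring
  rw [h3]
  have h4 : (J : ℝ) * (((2 * J : ℕ) : ℝ) * (2 * (2 * J : ℕ) * ((D : ℝ) + 1) ^ (2 * J) *
      ((D : ℝ) + 1) ^ (2 * J) * (d / Q) + bb Q D (2 * J) ^ 2 * (Fintype.card (Fin n) * d))) ≤
      (J : ℝ) * (((2 * J : ℕ) : ℝ) * (2 * (2 * J : ℕ) * ((D : ℝ) + 1) ^ (2 * J) *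
      ((D : ℝ) + 1) ^ (2 * J) * (d / Q) +
      ((2 * J : ℕ) * ((D : ℝ) + 1) ^ (2 * J)) ^ 2 * (d / Q))) := by
    apply mul_le_mul_of_nonneg_left _ (Nat.cast_nonneg _)
    apply mul_le_mul_of_nonneg_left _ (Nat.cast_nonneg _)
    linarith
  refine (add_le_add h4 le_rfl).trans (le_of_eq ?_)
  unfold H0
  ring

/-- the vertices of degree at least `D` -/
def ret (D : ℕ) (C : Finset (Sym2 (Fin n))) : Finset (Fin n) :=
  Finset.univ.filter (fun v => D ≤ (C.filter (fun e => v ∈ e)).card)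

theorem star_ret {D : ℕ} {Q : ℝ} (hQ : 0 < Q) {C : Finset (Sym2 (Fin n))}
    (hC : ∀ e ∈ C, ¬ e.IsDiag) (F : Finset (Sym2 (Fin n))) :
    ((ret D C).card : ℝ) * D.factorial ≤ PS (gs (V := Fin n) (D := D)) (wt Q C F) := by
  apply PS_star_ge D _ (wt_nonneg hQ C F)
  intro v hv
  unfold ret at hv
  rw [Finset.mem_filter] at hv
  refine hv.2.trans ?_
  have h1 : C.filter (fun e => v ∈ e) ⊆
      (Finset.univ.filter (fun x => x ≠ v ∧ wt Q C F s(v, x) = 1)).image (fun x => s(v, x)) := by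
    intro e he
    rw [Finset.mem_filter] at he
    obtain ⟨x, hx⟩ := (Sym2.mem_iff_exists).mp he.2
    rw [Finset.mem_image]
    refine ⟨x, ?_, hx.symm⟩
    rw [Finset.mem_filter]
    refine ⟨Finset.mem_univ _, ?_, ?_⟩
    · rintro rfl
      exact hC e he.1 (by rw [hx]; exact Sym2.mk_isDiag_iff.mpr rfl)
    · unfold wt
      rw [if_pos (hx ▸ he.1)]
  exact (Finset.card_le_card h1).trans Finset.card_image_le

/-- upper bound of the potential -/
theorem Psi_le {J D : ℕ} {δ Q : ℝ} (hδ : 0 < δ) {C : Finset (Sym2 (Fin n))} (h : Pos Q D C)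
    (hC : ∀ e ∈ C, ¬ e.IsDiag) (F : Finset (Sym2 (Fin n))) (hN : NSC (GC C) (2 * (2 * J))) :
    Psi J D (δ / Q) (wt Q C F) ≤ (closers J C F).card / Q + J * (F.card * bb Q D (2 * J)) / Q -
      δ / Q * ((ret D C).card * D.factorial) := by
  have hQ := h.hQ0
  have h1 : ∀ j ∈ Finset.range J, coef j * PS (gc (V := Fin n) (L := 2 * j + 2)) (wt Q C F) ≤
      Q⁻¹ * ((((Finset.univ.filter (fun d : CycIdx (Fin n) (2 * j + 2) =>
        s(d.1 (Fin.last _), d.1 0) ∈ F ∧ InC C d.1)).card : ℝ) +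
          F.card * (2 * bb Q D (2 * J))) / 2) := by
    intro j hj
    rw [Finset.mem_range] at hj
    have h2 := PS_cyc_le hQ C F (no_closed hN (by omega : 2 ≤ 2 * j + 2)
      (by omega : 2 * j + 2 ≤ 2 * J))
    have h3 := closing_sum_le h F (by omega : 2 * j + 2 ≤ 2 * J)
    calc coef j * PS (gc (V := Fin n) (L := 2 * j + 2)) (wt Q C F) ≤ coef j * (Q⁻¹ *
        (((2 * j + 2 + 1 : ℕ) : ℝ) * (((Finset.univ.filter (fun d : CycIdx (Fin n) (2 * j + 2) =>
        s(d.1 (Fin.last _), d.1 0) ∈ F ∧ InC C d.1)).card : ℝ) +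
          F.card * (2 * bb Q D (2 * J))))) := by
          apply mul_le_mul_of_nonneg_left _ (coef_pos j).le
          refine h2.trans ?_
          apply mul_le_mul_of_nonneg_left _ (inv_pos.mpr hQ).le
          exact mul_le_mul_of_nonneg_left h3 (Nat.cast_nonneg _)
      _ = Q⁻¹ * (coef j * (((2 * j + 2 + 1 : ℕ) : ℝ) * (2 *
        ((((Finset.univ.filter (fun d : CycIdx (Fin n) (2 * j + 2) =>
        s(d.1 (Fin.last _), d.1 0) ∈ F ∧ InC C d.1)).card : ℝ) +
          F.card * (2 * bb Q D (2 * J))) / 2)))) := by ring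
      _ = _ := by rw [coef_mul]
  have h2 := Finset.sum_le_sum h1
  rw [← Finset.mul_sum, ← Finset.sum_div, Finset.sum_add_distrib, Finset.sum_const,
    Finset.card_range, nsmul_eq_mul] at h2
  have h3 : (∑ j ∈ Finset.range J, ((Finset.univ.filter (fun d : CycIdx (Fin n) (2 * j + 2) =>
        s(d.1 (Fin.last _), d.1 0) ∈ F ∧ InC C d.1)).card : ℝ)) ≤ 2 * (closers J C F).card := by
    exact_mod_cast sum_closing_le (F := F) J hN
  have h4 := star_ret (D := D) hQ hC F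
  have h5 := mul_le_mul_of_nonneg_left h4 (div_pos hδ hQ).le
  unfold Psi
  have h6 : Q⁻¹ * (((∑ j ∈ Finset.range J,
      ((Finset.univ.filter (fun d : CycIdx (Fin n) (2 * j + 2) =>
        s(d.1 (Fin.last _), d.1 0) ∈ F ∧ InC C d.1)).card : ℝ)) +
      J * (F.card * (2 * bb Q D (2 * J)))) / 2) ≤
      (closers J C F).card / Q + J * (F.card * bb Q D (2 * J)) / Q := by
    have h7 : Q⁻¹ * ((2 * (closers J C F).card + J * (F.card * (2 * bb Q D (2 * J)))) / 2) =
      (closers J C F).card / Q + J * (F.card * bb Q D (2 * J)) / Q := by ring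
    rw [← h7]
    apply mul_le_mul_of_nonneg_left _ (inv_pos.mpr hQ).le
    linarith
  linarith

/-- the edges that may be offered -/
noncomputable def offer (J D : ℕ) (C F : Finset (Sym2 (Fin n))) : Finset (Sym2 (Fin n)) :=
  @Finset.filter _ (fun e => (∀ v ∈ e, v ∉ ret D C) ∧ ∀ u v, e = s(u, v) →
    ¬ near C (2 * (2 * J)) u v) (Classical.decPred _) F

theorem mem_offer {J D : ℕ} {C F : Finset (Sym2 (Fin n))} {e : Sym2 (Fin n)} :
    e ∈ offer J D C F ↔ e ∈ F ∧ (∀ v ∈ e, v ∉ ret D C) ∧ ∀ u v, e = s(u, v) →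
      ¬ near C (2 * (2 * J)) u v := by
  unfold offer
  exact @Finset.mem_filter _ _ (Classical.decPred _) _ _

/-- few free edges remain besides the offerable ones -/
theorem card_free_le {J D : ℕ} {Q : ℝ} {C : Finset (Sym2 (Fin n))} (h : Pos Q D C)
    (F : Finset (Sym2 (Fin n))) :
    F.card ≤ (offer J D C F).card + (ret D C).card * n +
      n * ((2 * (2 * J) + 1) * (D + 1) ^ (2 * (2 * J))) := by
  classical
  have h1 : F ⊆ offer J D C F ∪ ((ret D C ×ˢ Finset.univ).image (fun p => s(p.1, p.2)) ∪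
      (Finset.univ : Finset (Fin n)).biUnion (fun u =>
        (Finset.univ.filter (fun v => near C (2 * (2 * J)) u v)).image (fun v => s(u, v)))) := by
    intro e he
    by_cases ho : e ∈ offer J D C F
    · exact Finset.mem_union_left _ ho
    · apply Finset.mem_union_right
      rw [mem_offer] at ho
      by_cases h2 : ∀ v ∈ e, v ∉ ret D C
      · apply Finset.mem_union_right
        have h3 : ¬ ∀ u v, e = s(u, v) → ¬ near C (2 * (2 * J)) u v := fun h3 => ho ⟨he, h2, h3⟩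
        push Not at h3
        obtain ⟨u, v, huv, hn⟩ := h3
        rw [Finset.mem_biUnion]
        refine ⟨u, Finset.mem_univ _, ?_⟩
        rw [Finset.mem_image]
        exact ⟨v, Finset.mem_filter.mpr ⟨Finset.mem_univ _, hn⟩, huv.symm⟩
      · apply Finset.mem_union_left
        push Not at h2
        obtain ⟨v, hv, hr⟩ := h2
        obtain ⟨x, hx⟩ := Sym2.mem_iff_exists.mp hv
        rw [Finset.mem_image]
        exact ⟨(v, x), Finset.mem_product.mpr ⟨hr, Finset.mem_univ _⟩, hx.symm⟩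
  refine (Finset.card_le_card h1).trans ((Finset.card_union_le _ _).trans ?_)
  rw [add_assoc]
  apply Nat.add_le_add_left
  refine (Finset.card_union_le _ _).trans (Nat.add_le_add ?_ ?_)
  · refine Finset.card_image_le.trans ?_
    rw [Finset.card_product, Finset.card_univ, Fintype.card_fin]
  · refine Finset.card_biUnion_le.trans ?_
    have h2 : ∀ u ∈ (Finset.univ : Finset (Fin n)),
        ((Finset.univ.filter (fun v => near C (2 * (2 * J)) u v)).image (fun v => s(u, v))).card ≤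
        (2 * (2 * J) + 1) * (D + 1) ^ (2 * (2 * J)) := by
      intro u _
      refine Finset.card_image_le.trans ?_
      have h3 := near_ball h (2 * (2 * J)) u
      rw [← Set.ncard_coe_finset]
      refine le_trans (le_of_eq ?_) h3
      congr 1
      ext x
      simp
    refine (Finset.sum_le_sum h2).trans ?_
    rw [Finset.sum_const, Finset.card_univ, Fintype.card_fin, smul_eq_mul]

end Pool.Agent.R184.OC
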