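import Mathlib

/-!
Waiter–Client odd cycle game (MP_153aba): numeric existence lemmas.
-/

set_option autoImplicit false

namespace Pool.Agent.R184.OC

open Finset Filter Topology

theorem exists_D (c δ : ℝ) (K : ℕ) (hδ : 0 < δ) :
    ∃ D : ℕ, 2 ≤ D ∧ c * ((D : ℝ) + 1) ^ K ≤ δ * D.factorial := by
  have h1 := FloorSemiring.tendsto_pow_div_factorial_atTop (Real.exp 1)
  set B : ℝ := |c| * K.factorial * Real.exp 1 + 1 with hB
  have hBpos : 0 < B := by positivity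
  have h2 : ∀ᶠ D : ℕ in atTop, Real.exp 1 ^ D / (D.factorial : ℝ) < δ / B :=
    (tendsto_order.1 h1).2 _ (by positivity)
  obtain ⟨D, hD, hD2⟩ := (h2.and (eventually_ge_atTop 2)).exists
  refine ⟨D, hD2, ?_⟩
  have hDf : (0 : ℝ) < D.factorial := by positivity
  have hKf : (0 : ℝ) < K.factorial := by positivity
  have h3 : ((D : ℝ) + 1) ^ K ≤ K.factorial * Real.exp (D + 1) := by
    have h := Real.pow_div_factorial_le_exp ((D : ℝ) + 1) (by positivity) K
    rw [div_le_iff₀ hKf] at h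
    linarith
  have h4 : Real.exp ((D : ℝ) + 1) = Real.exp 1 * Real.exp 1 ^ D := by
    rw [Real.exp_add, ← Real.exp_nat_mul]
    rw [mul_one, mul_comm]
  have h5 : Real.exp 1 ^ D ≤ δ / B * D.factorial := by
    rw [div_lt_iff₀ hDf] at hD
    exact hD.le
  have h6 : (0 : ℝ) < Real.exp 1 ^ D := by positivity
  calc c * ((D : ℝ) + 1) ^ K ≤ |c| * ((D : ℝ) + 1) ^ K :=
        mul_le_mul_of_nonneg_right (le_abs_self c) (by positivity)
    _ ≤ |c| * (K.factorial * Real.exp (D + 1)) := mul_le_mul_of_nonneg_left h3 (abs_nonneg c)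
    _ = |c| * K.factorial * Real.exp 1 * Real.exp 1 ^ D := by rw [h4]; ring
    _ ≤ B * Real.exp 1 ^ D := mul_le_mul_of_nonneg_right (by rw [hB]; linarith) h6.le
    _ ≤ B * (δ / B * D.factorial) := mul_le_mul_of_nonneg_left h5 hBpos.le
    _ = δ * D.factorial := by field_simp

theorem tendsto_desc (k : ℕ) :
    Tendsto (fun n : ℕ => (((n : ℝ) + 1 - k) / n) ^ k) atTop (𝓝 1) := by
  have h1 : Tendsto (fun n : ℕ => 1 + (1 - (k : ℝ)) / n) atTop (𝓝 (1 + 0)) :=
    tendsto_const_nhds.add (tendsto_const_div_atTop_nhds_zero_nat _)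
  rw [add_zero] at h1
  have h2 : Tendsto (fun n : ℕ => ((n : ℝ) + 1 - k) / n) atTop (𝓝 1) := by
    apply h1.congr'
    filter_upwards [eventually_gt_atTop 0] with n hn
    have : (n : ℝ) ≠ 0 := by positivity
    field_simp
    ring
  have h3 := h2.pow k
  rwa [one_pow] at h3

theorem init_bound (J : ℕ) (x δ : ℝ) (hx : 0 < x) (hδ : 0 < δ) :
    ∃ n0 : ℕ, ∀ n : ℕ, n0 ≤ n → ∀ Q : ℝ, 0 < Q → (n : ℝ) ≤ Q → Q * x ≤ n →
      (∑ j ∈ Finset.range J, x ^ (2 * j + 3) / (2 * (2 * (j : ℝ) + 3))) - δ ≤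
        ∑ j ∈ Finset.range J, 1 / (2 * (2 * (j : ℝ) + 3)) *
          ((n.descFactorial (2 * j + 3) : ℝ) * Q⁻¹ ^ (2 * j + 3)) := by
  have h1 : Tendsto (fun n : ℕ => ∑ j ∈ Finset.range J, 1 / (2 * (2 * (j : ℝ) + 3)) *
      ((((n : ℝ) + 1 - (2 * j + 3 : ℕ)) / n) ^ (2 * j + 3) * x ^ (2 * j + 3))) atTop
      (𝓝 (∑ j ∈ Finset.range J, 1 / (2 * (2 * (j : ℝ) + 3)) * (1 * x ^ (2 * j + 3)))) := by
    apply tendsto_finsetSum
    intro j _
    exact ((tendsto_desc (2 * j + 3)).mul_const _).const_mul _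
  have h2 : (∑ j ∈ Finset.range J, x ^ (2 * j + 3) / (2 * (2 * (j : ℝ) + 3))) - δ <
      ∑ j ∈ Finset.range J, 1 / (2 * (2 * (j : ℝ) + 3)) * (1 * x ^ (2 * j + 3)) := by
    have e : ∑ j ∈ Finset.range J, 1 / (2 * (2 * (j : ℝ) + 3)) * (1 * x ^ (2 * j + 3)) =
        ∑ j ∈ Finset.range J, x ^ (2 * j + 3) / (2 * (2 * (j : ℝ) + 3)) :=
      Finset.sum_congr rfl fun j _ => by rw [one_mul, one_div, inv_mul_eq_div]
    rw [e]
    linarith
  have h3 := (tendsto_order.1 h1).1 _ h2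
  obtain ⟨n0, hn0⟩ := eventually_atTop.1 h3
  refine ⟨n0 + (2 * J + 3), fun n hn Q hQ hnQ hQx => ?_⟩
  refine (hn0 n (by omega)).le.trans ?_
  apply Finset.sum_le_sum
  intro j hj
  have hj' : j < J := Finset.mem_range.1 hj
  apply mul_le_mul_of_nonneg_left _ (by positivity)
  set k := 2 * j + 3 with hk
  have hkn : k ≤ n := by omega
  have hn' : (0 : ℝ) < n := by
    have : 0 < n := by omega
    exact_mod_cast this
  have hd : ((n : ℝ) + 1 - (k : ℕ)) ^ k ≤ (n.descFactorial k : ℝ) := by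
    have h := Nat.pow_sub_le_descFactorial n k
    have h' : (((n + 1 - k : ℕ) : ℝ)) ^ k ≤ (n.descFactorial k : ℝ) := by exact_mod_cast h
    rw [Nat.cast_sub (by omega)] at h'
    push_cast at h' ⊢
    exact h'
  have hb0 : (0 : ℝ) ≤ (n : ℝ) + 1 - (k : ℕ) := by
    have : (k : ℝ) ≤ n := by exact_mod_cast hkn
    linarith
  have hxq : x / n ≤ Q⁻¹ := by
    rw [div_le_iff₀ hn', inv_mul_eq_div, le_div_iff₀ hQ]
    linarith
  calc (((n : ℝ) + 1 - (k : ℕ)) / n) ^ k * x ^ k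
      = ((n : ℝ) + 1 - (k : ℕ)) ^ k * (x / n) ^ k := by
        rw [div_pow, div_pow]; ring
    _ ≤ (n.descFactorial k : ℝ) * Q⁻¹ ^ k := by
        apply mul_le_mul hd _ (by positivity) (by positivity)
        exact pow_le_pow_left₀ (by positivity) hxq k

theorem exists_Jx : ∃ (J : ℕ) (x δ : ℝ), 0 < x ∧ x < 1 ∧ 0 < δ ∧
    1 + 5 * δ ≤ ∑ j ∈ Finset.range J, x ^ (2 * j + 3) / (2 * (2 * (j : ℝ) + 3)) := by
  obtain ⟨J, hJ⟩ := (Real.tendsto_sum_range_one_div_nat_succ_atTop.eventually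
    (eventually_ge_atTop (18 : ℝ))).exists
  have h1 : (3 : ℝ) ≤ ∑ j ∈ Finset.range J, 1 / (2 * (2 * (j : ℝ) + 3)) := by
    have : (1 / 6 : ℝ) * ∑ i ∈ Finset.range J, 1 / ((i : ℝ) + 1) ≤
        ∑ j ∈ Finset.range J, 1 / (2 * (2 * (j : ℝ) + 3)) := by
      rw [Finset.mul_sum]
      apply Finset.sum_le_sum
      intro j _
      have hj : (0 : ℝ) ≤ j := Nat.cast_nonneg j
      rw [div_mul_div_comm, one_mul]
      apply one_div_le_one_div_of_le (by positivity)
      linarith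
    linarith
  set M : ℝ := 3 * (2 * (J : ℝ) + 3) with hM
  have hJ0 : (0 : ℝ) ≤ J := Nat.cast_nonneg J
  have hMpos : 0 < M := by positivity
  have hM1 : 1 < M := by rw [hM]; linarith
  refine ⟨J, 1 - 1 / M, 1 / 5, ?_, ?_, by norm_num, ?_⟩
  · have : 1 / M < 1 := by rw [div_lt_one hMpos]; exact hM1
    linarith
  · have : 0 < 1 / M := by positivity
    linarith
  · have h2 : (2 / 3 : ℝ) * ∑ j ∈ Finset.range J, 1 / (2 * (2 * (j : ℝ) + 3)) ≤
        ∑ j ∈ Finset.range J, (1 - 1 / M) ^ (2 * j + 3) / (2 * (2 * (j : ℝ) + 3)) := by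
      rw [Finset.mul_sum]
      apply Finset.sum_le_sum
      intro j hj
      have hj' : j < J := Finset.mem_range.1 hj
      have hj'' : (j : ℝ) + 1 ≤ J := by exact_mod_cast hj'
      have hM2 : 1 / M ≤ 1 := by rw [div_le_one hMpos]; exact hM1.le
      have h3 := one_add_mul_le_pow (a := -(1 / M)) (by linarith) (2 * j + 3)
      have h4 : (2 / 3 : ℝ) ≤ (1 - 1 / M) ^ (2 * j + 3) := by
        rw [← sub_eq_add_neg] at h3
        refine le_trans ?_ h3
        push_cast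
        have h5 : (2 * (j : ℝ) + 3) * (1 / M) ≤ 1 / 3 := by
          rw [mul_one_div, div_le_iff₀ hMpos, hM]
          linarith
        linarith
      rw [mul_one_div]
      exact div_le_div_of_nonneg_right h4 (by positivity)
    linarith

end Pool.Agent.R184.OC
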