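import Mathlib
import Pool.Agent.R184.OC.Bounds
import Pool.Agent.R184.OC.Nums

namespace Pool.Agent.R184.OC

open Finset Matrix

theorem window {α : Type*} (S : Finset α) (x : α → ℝ) (G : ℝ) (hG : 0 < G) (K T : ℕ)
    (hK : 0 < K) (hx : ∀ a ∈ S, |x a| ≤ G) (hS : (K + 1) * T ≤ S.card) :
    ∃ S' ⊆ S, T ≤ S'.card ∧ ∀ a ∈ S', ∀ b ∈ S', |x a - x b| ≤ 2 * G / K := by
  classical
  have hK' : (0 : ℝ) < K := by exact_mod_cast hK
  let y : α → ℝ := fun a => (x a + G) * K / (2 * G)
  have hy0 : ∀ a ∈ S, 0 ≤ y a := by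
    intro a ha
    have h1 := (abs_le.mp (hx a ha)).1
    apply div_nonneg _ (by linarith)
    apply mul_nonneg _ hK'.le
    linarith
  have hy1 : ∀ a ∈ S, y a ≤ K := by
    intro a ha
    have h1 := (abs_le.mp (hx a ha)).2
    simp only [y]
    rw [div_le_iff₀ (by linarith)]
    nlinarith
  have hmaps : ∀ a ∈ S, ⌊y a⌋₊ ∈ Finset.range (K + 1) := by
    intro a ha
    rw [Finset.mem_range]
    have h1 : ⌊y a⌋₊ ≤ K := by
      have h2 := Nat.floor_le_floor (hy1 a ha)
      rwa [Nat.floor_natCast] at h2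
    omega
  obtain ⟨c, _, hc⟩ := Finset.exists_le_card_fiber_of_mul_le_card_of_maps_to hmaps
    ⟨0, by simp⟩ (by rw [Finset.card_range]; exact hS)
  refine ⟨S.filter (fun a => ⌊y a⌋₊ = c), Finset.filter_subset _ _, hc, ?_⟩
  intro a ha b hb
  rw [Finset.mem_filter] at ha hb
  have h1 := Nat.floor_le (hy0 a ha.1)
  have h2 := Nat.lt_floor_add_one (y a)
  have h3 := Nat.floor_le (hy0 b hb.1)
  have h4 := Nat.lt_floor_add_one (y b)
  rw [ha.2] at h1 h2
  rw [hb.2] at h3 h4
  have e1 : x a - x b = (y a - y b) * (2 * G / K) := by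
    simp only [y]
    field_simp
    ring
  have hGK : 0 < 2 * G / K := by positivity
  rw [e1, abs_mul, abs_of_pos hGK]
  have h5 : |y a - y b| ≤ 1 := by
    rw [abs_le]
    constructor <;> linarith
  calc |y a - y b| * (2 * G / K) ≤ 1 * (2 * G / K) := mul_le_mul_of_nonneg_right h5 hGK.le
    _ = 2 * G / K := one_mul _

variable {n : ℕ}

theorem mem_board {e : Sym2 (Fin n)} : e ∈ board n ↔ ¬ e.IsDiag := by
  unfold board
  simp

theorem card_board_le : (board n).card ≤ n ^ 2 := by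
  classical
  have h : board n ⊆ (Finset.univ : Finset (Fin n × Fin n)).image (fun p => s(p.1, p.2)) := by
    intro e _
    induction e using Sym2.ind with
    | _ a b => exact Finset.mem_image.mpr ⟨(a, b), Finset.mem_univ _, rfl⟩
  refine (Finset.card_le_card h).trans (Finset.card_image_le.trans ?_)
  rw [Finset.card_univ, Fintype.card_prod, Fintype.card_fin, sq]

theorem Psi_init {J D q : ℕ} {δ Q : ℝ} (hδ : 0 < δ) (hQq : Q = q + 1) (hn : n ≤ q + 1) :
    (∑ j ∈ Finset.range J, 1 / (2 * (2 * (j : ℝ) + 3)) *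
      ((n.descFactorial (2 * j + 3) : ℝ) * Q⁻¹ ^ (2 * j + 3))) - δ ≤
    Psi J D (δ / Q) (wt Q ∅ (board n)) := by
  have hQ : 0 < Q := by rw [hQq]; positivity
  have hnQ : (n : ℝ) ≤ Q := by rw [hQq]; exact_mod_cast hn
  have h1 : ∀ j, PS (gc (V := Fin n) (L := 2 * j + 2)) (wt Q ∅ (board n)) =
      (n.descFactorial (2 * j + 3) : ℝ) * Q⁻¹ ^ (2 * j + 3) := by
    intro j
    unfold PS
    have h2 : ∀ c : CycIdx (Fin n) (2 * j + 2), ∏ i, wt Q ∅ (board n) (gc c i) =
        Q⁻¹ ^ (2 * j + 3) := by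
      intro c
      have h3 : ∀ i, wt Q ∅ (board n) (gc c i) = Q⁻¹ := by
        intro i
        unfold wt
        rw [if_neg (by simp), if_pos]
        rw [mem_board]
        unfold gc cycE
        rw [Sym2.mk_isDiag_iff]
        intro h4
        have h5 := c.2 h4
        have h6 : (1 : Fin (2 * j + 2 + 1)) = 0 := by
          have : i + 1 = i + 0 := by rw [← h5, add_zero]
          exact add_left_cancel this
        have h7 := congrArg Fin.val h6
        simp at h7
      rw [Finset.prod_congr rfl (fun i _ => h3 i), Finset.prod_const, Finset.card_univ,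
        Fintype.card_fin]
    rw [Finset.sum_congr rfl (fun c _ => h2 c), Finset.sum_const, nsmul_eq_mul, Finset.card_univ]
    congr 2
    rw [Fintype.card_congr (Equiv.subtypeInjectiveEquivEmbedding (Fin (2 * j + 2 + 1)) (Fin n)),
      Fintype.card_embedding_eq, Fintype.card_fin, Fintype.card_fin]
  have h2 : PS (gs (V := Fin n) (D := D)) (wt Q ∅ (board n)) ≤ n := by
    have h3 := PS_star_le D (wt Q ∅ (board n)) (wt_nonneg hQ _ _) 1 (by
      intro v
      have h4 : ∀ x, wt Q ∅ (board n) s(v, x) ≤ Q⁻¹ := by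
        intro x
        unfold wt
        rw [if_neg (by simp)]
        split_ifs
        · exact le_rfl
        · exact (inv_pos.mpr hQ).le
      refine (Finset.sum_le_sum (fun x _ => h4 x)).trans ?_
      rw [Finset.sum_const, nsmul_eq_mul, Finset.card_univ, Fintype.card_fin, ← div_eq_mul_inv,
        div_le_one hQ]
      exact hnQ)
    rw [one_pow, mul_one, Fintype.card_fin] at h3
    exact h3
  have h3 : δ / Q * PS (gs (V := Fin n) (D := D)) (wt Q ∅ (board n)) ≤ δ := by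
    calc _ ≤ δ / Q * n := mul_le_mul_of_nonneg_left h2 (div_pos hδ hQ).le
      _ ≤ δ / Q * Q := mul_le_mul_of_nonneg_left hnQ (div_pos hδ hQ).le
      _ = δ := by field_simp
  unfold Psi
  simp only [h1]
  unfold coef
  linarith

/-- the invariant -/
structure Inv (J D q : ℕ) (δ ℓ P0 : ℝ) (F C : Finset (Sym2 (Fin n))) : Prop where
  hC : C ⊆ board n
  hF : F ⊆ board n
  hd : Disjoint C F
  deg : ∀ v, (C.filter (fun e => v ∈ e)).card ≤ D
  nsc : NSC (GC C) (2 * (2 * J))
  pot : P0 - ℓ / ((q : ℝ) + 1) ^ 2 * ((board n).card - F.card) ≤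
    Psi J D (δ / ((q : ℝ) + 1)) (wt ((q : ℝ) + 1) C F)

theorem deg_insert {C : Finset (Sym2 (Fin n))} {D : ℕ} {e : Sym2 (Fin n)}
    (hdeg : ∀ v, (C.filter (fun e => v ∈ e)).card ≤ D) (he : ∀ v ∈ e, v ∉ ret D C) (v : Fin n) :
    ((insert e C).filter (fun e => v ∈ e)).card ≤ D := by
  rw [Finset.filter_insert]
  split_ifs with h
  · have h1 := he v h
    unfold ret at h1
    rw [Finset.mem_filter, not_and] at h1
    have h2 := h1 (Finset.mem_univ _)
    have h3 := Finset.card_insert_le e (C.filter (fun e => v ∈ e))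
    omega
  · exact hdeg v

theorem inv_round {J D K q d : ℕ} {δ P0 : ℝ} (hδ : 0 < δ) (hn : n ≤ q + 1)
    {F C : Finset (Sym2 (Fin n))}
    (hI : Inv J D q δ (2 * G0 J D δ / K + 3 * (H0 J D δ * (d / ((q : ℝ) + 1)))) P0 F C)
    {R : Finset (Sym2 (Fin n))} (hR : R ⊆ offer J D C F) (hRc : R.card = q + 1)
    (hRd : ∀ v, (R.filter (fun e => v ∈ e)).card ≤ d)
    (hsel : ∀ u v x y, s(u, v) ∈ R → s(x, y) ∈ R → near C (2 * (2 * J)) u x →
      near C (2 * (2 * J)) v y → s(x, y) = s(u, v))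
    (hwin : ∀ a ∈ R, ∀ b ∈ R, |DvPsi J D (δ / ((q : ℝ) + 1)) (wt ((q : ℝ) + 1) C F) a -
      DvPsi J D (δ / ((q : ℝ) + 1)) (wt ((q : ℝ) + 1) C F) b| ≤
        2 * (G0 J D δ / ((q : ℝ) + 1)) / K)
    {e : Sym2 (Fin n)} (he : e ∈ R) :
    Inv J D q δ (2 * G0 J D δ / K + 3 * (H0 J D δ * (d / ((q : ℝ) + 1)))) P0
      (F \ R) (insert e C) := by
  have hRF : R ⊆ F := hR.trans (fun x hx => (mem_offer.mp hx).1)
  have heo := mem_offer.mp (hR he)
  have hQ : (0 : ℝ) < (q : ℝ) + 1 := by positivity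
  set Q : ℝ := (q : ℝ) + 1 with hQdef
  have hP : Pos Q D C := pos_of_deg hQdef hn hI.deg
  refine ⟨?_, ?_, ?_, ?_, ?_, ?_⟩
  · intro x hx
    rcases Finset.mem_insert.mp hx with rfl | hx
    · exact hI.hF heo.1
    · exact hI.hC hx
  · exact Finset.sdiff_subset.trans hI.hF
  · rw [Finset.disjoint_left]
    intro x hx hx'
    rw [Finset.mem_sdiff] at hx'
    rcases Finset.mem_insert.mp hx with rfl | hx
    · exact hx'.2 he
    · exact (Finset.disjoint_left.mp hI.hd hx) hx'.1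
  · exact deg_insert hI.deg heo.2.1
  · have hnd := mem_board.mp (hI.hF heo.1)
    revert he heo hnd
    induction e using Sym2.ind with
    | _ u v =>
      intro _ heo hnd
      rw [Sym2.mk_isDiag_iff] at hnd
      exact nsc_insert hnd hI.nsc (heo.2.2 u v rfl)
  · have hr := psi_round (J := J) (D := D) (μ := δ / Q) (div_pos hδ hQ).le hQdef hI.hd hRF hRc he
      (fun j => ((2 * j + 2 + 1 : ℕ) : ℝ) * (2 * (((2 * J : ℕ) : ℝ) *
      (2 * bb Q D (2 * J) * ((D : ℝ) + 1) ^ (2 * J) * d +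
        bb Q D (2 * J) ^ 2 * (Fintype.card (Fin n) * d)))))
      (2 * D ^ 2 * d * ((D : ℝ) + 1) ^ (D - 2)) ?_ ?_
    · have h1 := H_total (J := J) (d := d) hδ hP
      have h2 : -(2 * (G0 J D δ / Q) / K) ≤ DvPsi J D (δ / Q) (wt Q C F) e -
          Q⁻¹ * ∑ f ∈ R, DvPsi J D (δ / Q) (wt Q C F) f := by
        have h3 : DvPsi J D (δ / Q) (wt Q C F) e = Q⁻¹ * ∑ _f ∈ R,
            DvPsi J D (δ / Q) (wt Q C F) e := by
          rw [Finset.sum_const, nsmul_eq_mul, hRc]
          push_cast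
          rw [← hQdef]
          field_simp
        have h4 : DvPsi J D (δ / Q) (wt Q C F) e -
          Q⁻¹ * ∑ f ∈ R, DvPsi J D (δ / Q) (wt Q C F) f =
          Q⁻¹ * ∑ f ∈ R, (DvPsi J D (δ / Q) (wt Q C F) e - DvPsi J D (δ / Q) (wt Q C F) f) := by
          rw [Finset.sum_sub_distrib, mul_sub, ← h3]
        have h5 : ∑ _f ∈ R, (-(2 * (G0 J D δ / Q) / K)) ≤
            ∑ f ∈ R, (DvPsi J D (δ / Q) (wt Q C F) e - DvPsi J D (δ / Q) (wt Q C F) f) :=
          Finset.sum_le_sum (fun f hf => (abs_le.mp (hwin e he f hf)).1)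
        rw [Finset.sum_const, nsmul_eq_mul, hRc] at h5
        push_cast at h5
        rw [← hQdef] at h5
        rw [h4]
        have h6 := mul_le_mul_of_nonneg_left h5 (inv_pos.mpr hQ).le
        refine le_trans (le_of_eq ?_) h6
        field_simp
      have hcard : ((F \ R).card : ℝ) = F.card - Q := by
        rw [Finset.card_sdiff_of_subset hRF, Nat.cast_sub (Finset.card_le_card hRF), hRc]
        push_cast
        rfl
      have hpot := hI.pot
      rw [hcard]
      refine le_trans ?_ hr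
      have e1 : (2 * G0 J D δ / K + 3 * (H0 J D δ * (d / Q))) / Q ^ 2 *
          ((board n).card - (F.card - Q)) =
          (2 * G0 J D δ / K + 3 * (H0 J D δ * (d / Q))) / Q ^ 2 * ((board n).card - F.card) +
          (2 * (G0 J D δ / Q) / K + 3 * (H0 J D δ * (d / Q)) / Q) := by
        have h7 : ((board n).card : ℝ) - (F.card - Q) = ((board n).card - F.card) + Q := by ring
        rw [h7, mul_add]
        congr 1
        field_simp
      rw [e1]
      linarith
    · intro j hj f hf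
      have hfo := mem_offer.mp (hR hf)
      revert hf hfo
      induction f using Sym2.ind with
      | _ u v =>
        intro hf _
        apply Hv_cyc_le hP F (by omega) (by omega) R d hRd u v hf
        intro x y hxy hx hy
        obtain ⟨a, ha, hx⟩ := hx
        obtain ⟨b, hb, hy⟩ := hy
        exact hsel u v x y hf hxy ⟨a, by omega, hx⟩ ⟨b, by omega, hy⟩
    · intro f _
      exact Hv_star_le D (wt Q C F) (wt_nonneg hQ C F) ((D : ℝ) + 1) (wt_row hP F) R d hRd f

/-- The numerical assumptions. -/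
structure Good (n J D K κ d q : ℕ) (δ P0 : ℝ) : Prop where
  hδ : 0 < δ
  hn : n ≤ q + 1
  hK : 0 < K
  hG : 0 < G0 J D δ
  hd : 2 * n ≤ κ * d
  hD : (J : ℝ) * ((2 * J : ℕ) * ((D : ℝ) + 1) ^ (2 * J)) ≤ δ * D.factorial
  hℓ : 2 * G0 J D δ / K + 3 * (H0 J D δ * (d / ((q : ℝ) + 1))) ≤ δ
  hend : (J : ℝ) * ((2 * J : ℕ) * ((D : ℝ) + 1) ^ (2 * J)) *
    ((K + 1) * (1 + ((2 * (2 * J) + 1) * (D + 1) ^ (2 * (2 * J)) : ℕ) ^ 2 + κ) +
      ((2 * (2 * J) + 1) * (D + 1) ^ (2 * (2 * J)) : ℕ)) / ((q : ℝ) + 1) ≤ δ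
  hP0 : 1 + 2 * δ ≤ P0

theorem H0_nonneg {J D : ℕ} {δ : ℝ} (hδ : 0 < δ) : 0 ≤ H0 J D δ := by
  unfold H0
  positivity

theorem step {J D K κ d q : ℕ} {δ P0 : ℝ} (hg : Good n J D K κ d q δ P0)
    {F C : Finset (Sym2 (Fin n))}
    (hI : Inv J D q δ (2 * G0 J D δ / K + 3 * (H0 J D δ * (d / ((q : ℝ) + 1)))) P0 F C) :
    ∃ O ⊆ F, O.card = q + 1 ∧ ∀ e ∈ O, OddCyc (insert e C) ∨
      Inv J D q δ (2 * G0 J D δ / K + 3 * (H0 J D δ * (d / ((q : ℝ) + 1)))) P0
        (F \ O) (insert e C) := by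
  by_cases hclo : q + 1 ≤ (closers J C F).card
  · obtain ⟨O, hO, hOc⟩ := Finset.exists_subset_card_eq hclo
    refine ⟨O, hO.trans (fun x hx => (mem_closers.mp hx).1), hOc, fun e he => Or.inl ?_⟩
    exact closers_oddCyc (hO he)
  have hQ : (0 : ℝ) < (q : ℝ) + 1 := by positivity
  have hP : Pos ((q : ℝ) + 1) D C := pos_of_deg rfl hg.hn hI.deg
  set β : ℕ := (2 * (2 * J) + 1) * (D + 1) ^ (2 * (2 * J)) with hβ
  set T : ℕ := (q + 1) * (1 + β ^ 2 + κ) with hT
  by_cases hM : (K + 1) * T ≤ (offer J D C F).card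
  · obtain ⟨S', hS', hTS, hwin⟩ := window (offer J D C F)
      (fun e => DvPsi J D (δ / ((q : ℝ) + 1)) (wt ((q : ℝ) + 1) C F) e)
      (G0 J D δ / ((q : ℝ) + 1)) (div_pos hg.hG hQ) K T hg.hK (by
        intro f hf
        have hfo := mem_offer.mp hf
        revert hfo
        induction f using Sym2.ind with
        | _ u v =>
          intro hfo
          exact DvPsi_bound hg.hδ hP F u v (hfo.2.2 u v rfl)) hM
    obtain ⟨R, hRS, hRc, hRd, hsel⟩ := select (near C (2 * (2 * J))) (fun _ _ h => near_symm h) β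
      (near_ball hP (2 * (2 * J))) S' κ d (q + 1) (by rw [Fintype.card_fin]; exact hg.hd) hTS
    refine ⟨R, (hRS.trans hS').trans (fun x hx => (mem_offer.mp hx).1), hRc,
      fun e he => Or.inr ?_⟩
    exact inv_round hg.hδ hg.hn hI (hRS.trans hS') hRc hRd hsel
      (fun a ha b hb => hwin a (hRS ha) b (hRS hb)) he
  · exfalso
    have h1 := card_free_le (J := J) hP F
    have h2 := Psi_le (J := J) hg.hδ hP (fun e he => mem_board.mp (hI.hC he)) F hI.nsc
    have h3 := hI.pot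
    set Q : ℝ := (q : ℝ) + 1 with hQdef
    set ℓ : ℝ := 2 * G0 J D δ / K + 3 * (H0 J D δ * (d / Q)) with hℓdef
    have hℓ0 : 0 ≤ ℓ := by
      have := hg.hG
      have := H0_nonneg (J := J) (D := D) hg.hδ
      positivity
    have hnQ : (n : ℝ) ≤ Q := by
      rw [hQdef]
      exact_mod_cast hg.hn
    have h4 : ℓ / Q ^ 2 * ((board n).card - F.card) ≤ δ := by
      have h5 : ((board n).card : ℝ) - F.card ≤ Q ^ 2 := by
        have h6 : ((board n).card : ℝ) ≤ (n : ℝ) ^ 2 := by exact_mod_cast card_board_le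
        have h7 : (n : ℝ) ^ 2 ≤ Q ^ 2 := by gcongr
        have h8 : (0 : ℝ) ≤ F.card := Nat.cast_nonneg _
        linarith
      calc ℓ / Q ^ 2 * ((board n).card - F.card) ≤ ℓ / Q ^ 2 * Q ^ 2 :=
            mul_le_mul_of_nonneg_left h5 (by positivity)
        _ = ℓ := by field_simp
        _ ≤ δ := hg.hℓ
    set ρ : ℝ := ((ret D C).card : ℝ) with hρ
    have hρ0 : 0 ≤ ρ := Nat.cast_nonneg _
    set c1 : ℝ := (J : ℝ) * ((2 * J : ℕ) * ((D : ℝ) + 1) ^ (2 * J)) with hc1
    have hc10 : 0 ≤ c1 := by positivity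
    have h5 : (J : ℝ) * (F.card * bb Q D (2 * J)) / Q = c1 * F.card / Q ^ 2 := by
      rw [hc1]
      unfold bb
      field_simp
    rw [h5] at h2
    have h6 : (F.card : ℝ) ≤ (K + 1) * T + ρ * Q + Q * β := by
      have h7 : (F.card : ℝ) ≤ (offer J D C F).card + ρ * n + n * β := by
        rw [hρ]
        exact_mod_cast h1
      have h8 : ((offer J D C F).card : ℝ) ≤ (K + 1) * T := by
        have h9 : (offer J D C F).card ≤ (K + 1) * T := by omega
        exact_mod_cast h9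
      have h9 : ρ * n ≤ ρ * Q := mul_le_mul_of_nonneg_left hnQ hρ0
      have h10 : (n : ℝ) * β ≤ Q * β := mul_le_mul_of_nonneg_right hnQ (Nat.cast_nonneg _)
      linarith
    have h7 : c1 * F.card / Q ^ 2 ≤ c1 * ((K + 1) * (1 + (β : ℝ) ^ 2 + κ) + β) / Q +
        c1 * ρ / Q := by
      have h8 : (T : ℝ) = Q * (1 + (β : ℝ) ^ 2 + κ) := by
        rw [hT, hQdef]
        push_cast
        ring
      rw [h8] at h6
      have h9 : c1 * F.card / Q ^ 2 ≤ c1 * ((K + 1) * (Q * (1 + (β : ℝ) ^ 2 + κ)) + ρ * Q + Q * β) /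
          Q ^ 2 := by
        apply div_le_div_of_nonneg_right _ (by positivity)
        exact mul_le_mul_of_nonneg_left h6 hc10
      refine h9.trans (le_of_eq ?_)
      field_simp
      ring
    have h8 : c1 * ρ / Q ≤ δ / Q * (ρ * D.factorial) := by
      have h9 : c1 * ρ ≤ δ * D.factorial * ρ := mul_le_mul_of_nonneg_right hg.hD hρ0
      calc c1 * ρ / Q ≤ δ * D.factorial * ρ / Q := div_le_div_of_nonneg_right h9 hQ.le
        _ = _ := by ring
    have h9 : ((closers J C F).card : ℝ) / Q < 1 := by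
      rw [div_lt_one hQ, hQdef]
      have : (closers J C F).card < q + 1 := by omega
      exact_mod_cast this
    have h10 := hg.hend
    have h11 := hg.hP0
    linarith

end Pool.Agent.R184.OC
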