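import Mathlib
import Pool.Agent.R184.OC.Main

namespace Pool.Agent.R184.OC

open Finset Filter Topology

theorem init_inv {n J D q : ℕ} {δ ℓ P0 : ℝ} (hn : n ≤ q + 1) (hδ : 0 < δ)
    (hP : P0 + δ ≤ ∑ j ∈ Finset.range J, 1 / (2 * (2 * (j : ℝ) + 3)) *
      ((n.descFactorial (2 * j + 3) : ℝ) * ((q : ℝ) + 1)⁻¹ ^ (2 * j + 3))) :
    Inv J D q δ ℓ P0 (board n) ∅ := by
  refine ⟨Finset.empty_subset _, Finset.Subset.refl _, Finset.disjoint_empty_left _, ?_, ?_, ?_⟩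
  · intro v
    simp
  · intro a c hc
    exfalso
    cases c with
    | nil => exact SimpleGraph.Walk.not_isCycle_nil hc
    | cons h _ =>
      rw [SimpleGraph.fromEdgeSet_adj] at h
      simp at h
  · have h := Psi_init (J := J) (D := D) (q := q) (δ := δ) (Q := (q : ℝ) + 1) hδ rfl hn
    rw [sub_self, mul_zero, sub_zero]
    linarith

/-- If the weighted number of odd cycles exceeds `1`, Waiter wins. -/
theorem waiter_wins (J : ℕ) (x : ℝ) (hx : 0 < x)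
    (hS : 1 < ∑ j ∈ Finset.range J, x ^ (2 * j + 3) / (2 * (2 * (j : ℝ) + 3))) :
    ∃ n0 : ℕ, ∀ n : ℕ, n0 ≤ n → ∀ q : ℕ, n ≤ q + 1 → ((q : ℝ) + 1) * x ≤ n →
      ∀ last : Bool, WaiterWins last q (board n) ∅ := by
  obtain ⟨δ, hδ, hδS⟩ : ∃ δ : ℝ, 0 < δ ∧
      1 + 5 * δ ≤ ∑ j ∈ Finset.range J, x ^ (2 * j + 3) / (2 * (2 * (j : ℝ) + 3)) :=
    ⟨(∑ j ∈ Finset.range J, x ^ (2 * j + 3) / (2 * (2 * (j : ℝ) + 3)) - 1) / 5,
      by linarith, by linarith⟩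
  obtain ⟨D, hD2, hD⟩ := exists_D ((J : ℝ) * (2 * J : ℕ)) δ (2 * J) hδ
  have hG : 0 < G0 J D δ := by
    unfold G0
    have hD' : (0 : ℝ) < D := by
      have : 0 < D := by omega
      exact_mod_cast this
    positivity
  have hH := H0_nonneg (J := J) (D := D) hδ
  obtain ⟨K, hK⟩ := exists_nat_gt (4 * G0 J D δ / δ)
  have hK0 : 0 < K := by
    have h1 : (0 : ℝ) < K := lt_trans (by positivity) hK
    exact_mod_cast h1
  obtain ⟨κ, hκ⟩ := exists_nat_gt (24 * (H0 J D δ + 1) / δ)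
  have hκ0 : 0 < κ := by
    have h1 : (0 : ℝ) < κ := lt_trans (by positivity) hκ
    exact_mod_cast h1
  set β : ℕ := (2 * (2 * J) + 1) * (D + 1) ^ (2 * (2 * J)) with hβ
  set c2 : ℝ := (J : ℝ) * ((2 * J : ℕ) * ((D : ℝ) + 1) ^ (2 * J)) *
    ((K + 1) * (1 + (β : ℕ) ^ 2 + κ) + (β : ℕ)) with hc2
  obtain ⟨n1, hn1⟩ := init_bound J x δ hx hδ
  obtain ⟨n2, hn2⟩ := exists_nat_gt (12 * (H0 J D δ + 1) / δ)
  obtain ⟨n3, hn3⟩ := exists_nat_gt (c2 / δ)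
  refine ⟨max n1 (max n2 n3), ?_⟩
  intro n hn q hnq hqx last
  have hn1' : n1 ≤ n := (le_max_left _ _).trans hn
  have hn2' : n2 ≤ n := ((le_max_left _ _).trans (le_max_right _ _)).trans hn
  have hn3' : n3 ≤ n := ((le_max_right _ _).trans (le_max_right _ _)).trans hn
  have hQ : (0 : ℝ) < (q : ℝ) + 1 := by positivity
  have hnQ : (n : ℝ) ≤ (q : ℝ) + 1 := by exact_mod_cast hnq
  set d : ℕ := 2 * n / κ + 1 with hd
  have hdκ : 2 * n ≤ κ * d := by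
    rw [hd]
    have := Nat.lt_mul_div_succ (2 * n) hκ0
    exact this.le
  have hdle : (d : ℝ) ≤ 2 * n / κ + 1 := by
    rw [hd]
    push_cast
    have := @Nat.cast_div_le ℝ _ _ _ (2 * n) κ
    push_cast at this
    linarith
  have hκ' : (0 : ℝ) < κ := by exact_mod_cast hκ0
  have hK' : (0 : ℝ) < K := by exact_mod_cast hK0
  have hdQ : (d : ℝ) / ((q : ℝ) + 1) ≤ 2 / κ + 1 / ((q : ℝ) + 1) := by
    rw [div_le_iff₀ hQ]
    have h1 : (2 / κ + 1 / ((q : ℝ) + 1)) * ((q : ℝ) + 1) = 2 * ((q : ℝ) + 1) / κ + 1 := by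
      field_simp
    rw [h1]
    have h2 : 2 * (n : ℝ) / κ ≤ 2 * ((q : ℝ) + 1) / κ := by gcongr
    linarith
  have hg : Good n J D K κ d q δ (1 + 2 * δ) := by
    refine ⟨hδ, hnq, hK0, hG, hdκ, ?_, ?_, ?_, le_rfl⟩
    · rw [← mul_assoc]
      exact hD
    · have h1 : 2 * G0 J D δ / K ≤ δ / 2 := by
        rw [div_le_iff₀ hK']
        rw [div_lt_iff₀ hδ] at hK
        linarith
      have h2 : 3 * (H0 J D δ * (2 / κ)) ≤ δ / 4 := by
        rw [div_lt_iff₀ hδ] at hκ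
        have h3 : 3 * (H0 J D δ * (2 / κ)) = 6 * H0 J D δ / κ := by ring
        rw [h3, div_le_iff₀ hκ']
        linarith
      have h3 : 3 * (H0 J D δ * (1 / ((q : ℝ) + 1))) ≤ δ / 4 := by
        have h4 : 12 * (H0 J D δ + 1) / δ < (q : ℝ) + 1 := by
          have : (n2 : ℝ) ≤ n := by exact_mod_cast hn2'
          linarith
        rw [div_lt_iff₀ hδ] at h4
        have h5 : 3 * (H0 J D δ * (1 / ((q : ℝ) + 1))) = 3 * H0 J D δ / ((q : ℝ) + 1) := by ring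
        rw [h5, div_le_iff₀ hQ]
        linarith
      have h4 : H0 J D δ * ((d : ℝ) / ((q : ℝ) + 1)) ≤
          H0 J D δ * (2 / κ + 1 / ((q : ℝ) + 1)) := mul_le_mul_of_nonneg_left hdQ hH
      linarith
    · rw [div_le_iff₀ hQ]
      have h1 : c2 / δ < (q : ℝ) + 1 := by
        have : (n3 : ℝ) ≤ n := by exact_mod_cast hn3'
        linarith
      rw [div_lt_iff₀ hδ] at h1
      linarith
  have hI : Inv J D q δ (2 * G0 J D δ / K + 3 * (H0 J D δ * (d / ((q : ℝ) + 1)))) (1 + 2 * δ)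
      (board n) ∅ := by
    apply init_inv hnq hδ
    have h1 := hn1 n hn1' ((q : ℝ) + 1) hQ hnQ hqx
    linarith
  exact waiterWins_of_inv last q
    (fun F C => Inv J D q δ (2 * G0 J D δ / K + 3 * (H0 J D δ * (d / ((q : ℝ) + 1))))
      (1 + 2 * δ) F C) (fun F C h => step hg h) _ _ _ rfl hI

/-- lower bound for the threshold bias -/
theorem bwc_lower (J : ℕ) (x : ℝ) (hx : 0 < x) (hx1 : x < 1)
    (hS : 1 < ∑ j ∈ Finset.range J, x ^ (2 * j + 3) / (2 * (2 * (j : ℝ) + 3))) (last : Bool) :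
    ∀ᶠ n : ℕ in atTop, (n : ℝ) / x - 2 ≤ bwc last n := by
  obtain ⟨n0, h0⟩ := waiter_wins J x hx hS
  obtain ⟨n1, h1⟩ := exists_nat_gt (3 * x / (1 - x))
  filter_upwards [eventually_ge_atTop (max n0 (max n1 3))] with n hn
  have hn0 : n0 ≤ n := (le_max_left _ _).trans hn
  have hn1 : n1 ≤ n := ((le_max_left _ _).trans (le_max_right _ _)).trans hn
  have hn3 : 3 ≤ n := ((le_max_right _ _).trans (le_max_right _ _)).trans hn
  have hnx : (n : ℝ) ≤ n / x := by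
    rw [le_div_iff₀ hx]
    have : (0 : ℝ) ≤ n := Nat.cast_nonneg n
    nlinarith
  have hfl : n ≤ ⌊(n : ℝ) / x⌋₊ := Nat.le_floor hnx
  have hpos : (0 : ℝ) ≤ (n : ℝ) / x := by positivity
  set q : ℕ := ⌊(n : ℝ) / x⌋₊ - 1 with hq
  have hq1 : q + 1 = ⌊(n : ℝ) / x⌋₊ := by omega
  have hq1' : (q : ℝ) + 1 = (⌊(n : ℝ) / x⌋₊ : ℝ) := by exact_mod_cast hq1
  have h2 : ((q : ℝ) + 1) * x ≤ n := by
    rw [hq1', ← le_div_iff₀ hx]
    exact Nat.floor_le hpos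
  have h3 := h0 n hn0 q (by omega) h2 last
  have h4 := le_bwc (by omega : 1 ≤ q) h3
  have h5 : (q : ℝ) ≤ bwc last n := by exact_mod_cast h4
  have h6 := Nat.lt_floor_add_one ((n : ℝ) / x)
  linarith

end Pool.Agent.R184.OC
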