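import Mathlib
import Pool.Agent.R184.OC.Game
import Pool.Agent.R184.OC.End

namespace Pool.Agent.Results.MP_153aba_co.BiasAboveN

open Filter Topology Pool.Agent.R184.OC

theorem psum_gt {x : ℝ} (hx : 0 < x) (hx1 : x < 1)
    (h : 2 < (Real.log (1 + x) - Real.log (1 - x)) / 2 - x) :
    ∃ J : ℕ, 1 < ∑ j ∈ Finset.range J, x ^ (2 * j + 3) / (2 * (2 * (j : ℝ) + 3)) := by
  have h1 := Real.hasSum_log_sub_log_of_abs_lt_one (x := x) (by rw [abs_of_pos hx]; exact hx1)
  have h2 := h1.tendsto_sum_nat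
  have h3 := (tendsto_add_atTop_iff_nat 1).mpr h2
  have h4 : ∀ᶠ J : ℕ in atTop, 4 + 2 * x <
      ∑ k ∈ Finset.range (J + 1), (2 : ℝ) * (1 / (2 * k + 1)) * x ^ (2 * k + 1) :=
    h3.eventually (lt_mem_nhds (by linarith))
  obtain ⟨J, hJ⟩ := h4.exists
  refine ⟨J, ?_⟩
  rw [Finset.sum_range_succ'] at hJ
  have h5 : ∑ k ∈ Finset.range J, (2 : ℝ) * (1 / (2 * ((k + 1 : ℕ) : ℝ) + 1)) *
      x ^ (2 * (k + 1) + 1) =
      4 * ∑ j ∈ Finset.range J, x ^ (2 * j + 3) / (2 * (2 * (j : ℝ) + 3)) := by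
    rw [Finset.mul_sum]
    apply Finset.sum_congr rfl
    intro k _
    have : (2 * (k : ℝ) + 3) ≠ 0 := by positivity
    push_cast
    rw [show 2 * ((k : ℝ) + 1) + 1 = 2 * k + 3 by ring, show 2 * (k + 1) + 1 = 2 * k + 3 by ring]
    field_simp
    ring
  rw [h5] at hJ
  simp at hJ
  linarith

theorem sharp (last : Bool) {x : ℝ} (hx : 0 < x) (hx1 : x < 1)
    (h : 2 < (Real.log (1 + x) - Real.log (1 - x)) / 2 - x) :
    ∀ᶠ n : ℕ in atTop, (n : ℝ) / x - 2 ≤ bwc last n := by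
  obtain ⟨J, hJ⟩ := psum_gt hx hx1 h
  exact bwc_lower J x hx hx1 hJ last

theorem explicit (last : Bool) : ∀ᶠ n : ℕ in atTop, (1 + 1 / 250) * (n : ℝ) ≤ bwc last n := by
  have h1 : (2 : ℝ) < (Real.log (1 + 403 / 405) - Real.log (1 - 403 / 405)) / 2 - 403 / 405 := by
    rw [← Real.log_div (by norm_num) (by norm_num)]
    have h2 : ((1 + 403 / 405) / (1 - 403 / 405) : ℝ) = 404 := by norm_num
    rw [h2]
    have h3 : (6 : ℝ) ≤ Real.log 404 := by
      rw [Real.le_log_iff_exp_le (by norm_num)]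
      have h4 : Real.exp 6 = Real.exp 1 ^ 6 := by
        rw [← Real.exp_nat_mul]
        norm_num
      rw [h4]
      have h5 := Real.exp_one_lt_d9
      have h6 : Real.exp 1 ^ 6 ≤ 2.7182818286 ^ 6 := by
        gcongr
      refine h6.trans ?_
      norm_num
    linarith
  filter_upwards [sharp last (by norm_num) (by norm_num) h1, eventually_ge_atTop 3000] with n hn h3
  have h4 : (3000 : ℝ) ≤ n := by exact_mod_cast h3
  refine le_trans ?_ hn
  have h5 : (n : ℝ) / (403 / 405) = 405 / 403 * n := by ring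
  rw [h5]
  linarith

/-- The threshold bias of the Waiter–Client odd cycle game on `K_n` is not `(1 + o(1)) n`
(for both treatments of an incomplete last round). -/
theorem result :
    (∀ (last : Bool) (x : ℝ), 0 < x → x < 1 →
      2 < (Real.log (1 + x) - Real.log (1 - x)) / 2 - x →
      ∀ᶠ n : ℕ in atTop, (n : ℝ) / x - 2 ≤ bwc last n) ∧
    (∀ last : Bool, ∀ᶠ n : ℕ in atTop, (1 + 1 / 250) * (n : ℝ) ≤ bwc last n) ∧
    (∀ last : Bool, ¬ Tendsto (fun n : ℕ => (bwc last n : ℝ) / n) atTop (𝓝 1)) := by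
  refine ⟨fun last x hx hx1 h => sharp last hx hx1 h, explicit, fun last ht => ?_⟩
  have h1 : ∀ᶠ n : ℕ in atTop, (bwc last n : ℝ) / n < 1 + 1 / 250 :=
    ht.eventually (gt_mem_nhds (by norm_num))
  obtain ⟨n, hn1, hn2, hn3⟩ := (h1.and ((explicit last).and (eventually_gt_atTop 0))).exists
  have hn : (0 : ℝ) < n := by exact_mod_cast hn3
  rw [div_lt_iff₀ hn] at hn1
  linarith

end Pool.Agent.Results.MP_153aba_co.BiasAboveN
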